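import Pool.Agent.Helper72.PR.Ext2

/-!
The base profile in dimension two.

Names of alternatives: `8 * (3 * x + r)` (`r < 3`) for the alternatives of the variable `x`,
`8 * j + 1` for the alternative of the literal number `j`, `8 * i + 2` (`i < 4`) for the palette.
Names of voters: `8 * j` for the voter of the literal number `j`, `8 * (2 * x + r) + 1` (`r < 2`)
for the voters of the variable `x`, `8 * i + 2` (`i < 4`) for the palette.
-/

namespace Pool.Agent.Helper72.PR

/-- multiples of the unit -/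
def lx (n m x : ℕ) : ℕ := (n + m + 3) * x

section

variable (n m : ℕ) (X : ℕ → ℕ) (S : ℕ → Bool)

/-- the first coordinate of a voter -/
def tN (v : ℕ) : ℕ :=
  if v % 8 = 0 then 2 * lx n m n + 6 * (n + m + 3) + v / 24 + 1
  else if v % 8 = 1 then
    2 * lx n m n + 8 * (n + m + 3) + 2 * lx n m (v / 16)
  else if v / 8 < 2 then 0 else 4 * lx n m n + 8 * (n + m + 3)

/-- decreasing branch of an alternative -/
def aN (a : ℕ) : ℕ :=
  if a % 8 = 0 then
    20 * lx n m n + 80 * (n + m + 3) + 4 * lx n m (a / 24) + 1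
  else if a % 8 = 1 then 0
  else if a / 8 < 2 then 20 * lx n m n + 68 * (n + m + 3) + 1 else 0

/-- increasing branch of an alternative -/
def bN (a : ℕ) : ℕ :=
  if a % 8 = 0 then
    (if (a / 8) % 3 = 2 then 0 else
      16 * lx n m n + 64 * (n + m + 3) - (2 * (a / 24) + (a / 8) % 3 + 2))
  else if a % 8 = 1 then
    16 * lx n m n + 68 * (n + m + 3) + 4 * lx n m (X (a / 8)) - (2 * (a / 24) + 1)
  else if a / 8 = 0 then 0
  else if a / 8 = 1 then 16 * lx n m n + 64 * (n + m + 3) - 1
  else 16 * lx n m n + 64 * (n + m + 3)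

/-- position of an alternative in its class -/
def rN (v a : ℕ) : ℕ :=
  if a % 8 = 0 then
    (if (a / 8) % 3 = 0 then (if v = 16 * (a / 24) + 1 then 5 else 0)
    else if (a / 8) % 3 = 1 then (if v = 16 * (a / 24) + 9 then 8 else 3) else 6)
  else if a % 8 = 1 then
    (if v = a - 1 then (if S (a / 8) then 7 else 4) else (if S (a / 8) then 5 else 2))
  else if a / 8 = 0 then 1
  else if a / 8 = 1 then (if v = 10 then 2 else 0)
  else if a / 8 = 2 then 1
  else (if v = 26 then 2 else 0)

/-- the integer part -/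
def mac (v a : ℕ) : ℕ := max (aN n m a - tN n m v) (bN n m X a + tN n m v)

/-- the sorting key -/
def key (v a : ℕ) : ℕ := 10 * mac n m X v a + rN S v a

/-- bound for the keys -/
def kmax : ℕ := 300 * lx n m n + 1000 * (n + m + 3) + 100

/-- the alternatives -/
def alts : List ℕ :=
  (List.range (3 * n)).map (fun i => 8 * i) ++ ((List.range (3 * m)).map (fun j => 8 * j + 1) ++
    [2, 10, 18, 26])

/-- the order of the voter `v` -/
def ord (v : ℕ) : List ℕ :=
  (List.range (kmax n m)).flatMap (fun k =>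
    (alts n m).filter (fun a => decide (key n m X S v a = k)))

/-- the base profile -/
def base : Prof :=
  (alts n m,
    (List.range (3 * m)).map (fun j => ord n m X S (8 * j)) ++
      ((List.range (2 * n)).map (fun i => ord n m X S (8 * i + 1)) ++
      [ord n m X S 2, ord n m X S 10, ord n m X S 18, ord n m X S 26]),
    [(ord n m X S 2, 2), (ord n m X S 10, 10), (ord n m X S 18, 18), (ord n m X S 26, 26)])

end

section

variable {n m : ℕ} {X : ℕ → ℕ} {S : ℕ → Bool}

theorem mem_alts {a : ℕ} : a ∈ alts n m ↔ (∃ x r, x < n ∧ r < 3 ∧ a = 8 * (3 * x + r)) ∨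
    (∃ j < 3 * m, a = 8 * j + 1) ∨ (∃ i < 4, a = 8 * i + 2) := by
  unfold alts
  rw [List.mem_append, List.mem_append, List.mem_map, List.mem_map]
  simp only [List.mem_range, List.mem_cons, List.not_mem_nil, or_false]
  constructor
  · rintro (⟨i, hi, rfl⟩ | ⟨j, hj, rfl⟩ | rfl | rfl | rfl | rfl)
    · exact Or.inl ⟨i / 3, i % 3, by omega, by omega, by omega⟩
    · exact Or.inr (Or.inl ⟨j, hj, rfl⟩)
    · exact Or.inr (Or.inr ⟨0, by omega, by omega⟩)
    · exact Or.inr (Or.inr ⟨1, by omega, by omega⟩)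
    · exact Or.inr (Or.inr ⟨2, by omega, by omega⟩)
    · exact Or.inr (Or.inr ⟨3, by omega, by omega⟩)
  · rintro (⟨x, r, hx, hr, rfl⟩ | ⟨j, hj, rfl⟩ | ⟨i, hi, rfl⟩)
    · exact Or.inl ⟨3 * x + r, by omega, rfl⟩
    · exact Or.inr (Or.inl ⟨j, hj, rfl⟩)
    · right; right
      omega

theorem nodup_alts : (alts n m).Nodup := by
  unfold alts
  rw [List.nodup_append, List.nodup_append]
  refine ⟨List.nodup_range.map (fun a b h => by simpa using h),
    ⟨List.nodup_range.map (fun a b h => by simpa using h), by decide, ?_⟩, ?_⟩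
  · intro a ha b hb
    rw [List.mem_map] at ha
    obtain ⟨a', _, rfl⟩ := ha
    simp only [List.mem_cons, List.not_mem_nil, or_false] at hb
    omega
  · intro a ha b hb
    rw [List.mem_map] at ha
    obtain ⟨a', _, rfl⟩ := ha
    rw [List.mem_append, List.mem_map] at hb
    rcases hb with ⟨b', _, rfl⟩ | hb
    · omega
    · simp only [List.mem_cons, List.not_mem_nil, or_false] at hb
      omega

/-! ### sorted lists -/

theorem mem_ord {v a : ℕ} (hk : ∀ a ∈ alts n m, key n m X S v a < kmax n m) :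
    a ∈ ord n m X S v ↔ a ∈ alts n m := by
  unfold ord
  rw [List.mem_flatMap]
  constructor
  · rintro ⟨k, _, h⟩
    exact List.mem_of_mem_filter h
  · intro h
    exact ⟨key n m X S v a, List.mem_range.2 (hk a h), List.mem_filter.2 ⟨h, by simp⟩⟩

theorem pairwise_ord {v : ℕ} {R : ℕ → ℕ → Prop}
    (hinj : ∀ a ∈ alts n m, ∀ b ∈ alts n m, key n m X S v a = key n m X S v b → a = b)
    (hR : ∀ a ∈ alts n m, ∀ b ∈ alts n m, key n m X S v a < key n m X S v b → R a b) :
    (ord n m X S v).Pairwise R := by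
  unfold ord
  rw [List.pairwise_flatMap]
  constructor
  · intro k _
    refine List.Pairwise.imp_of_mem (R := fun a b => a ≠ b) ?_ (nodup_alts.filter _)
    intro a b ha hb hne
    rw [List.mem_filter] at ha hb
    exfalso
    apply hne
    have h1 := of_decide_eq_true ha.2
    have h2 := of_decide_eq_true hb.2
    exact hinj a ha.1 b hb.1 (by rw [h1, h2])
  · refine List.Pairwise.imp ?_ List.pairwise_lt_range
    intro k k' hkk a ha b hb
    rw [List.mem_filter] at ha hb
    have h1 := of_decide_eq_true ha.2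
    have h2 := of_decide_eq_true hb.2
    exact hR a ha.1 b hb.1 (by rw [h1, h2]; exact hkk)

theorem nodup_ord {v : ℕ}
    (hinj : ∀ a ∈ alts n m, ∀ b ∈ alts n m, key n m X S v a = key n m X S v b → a = b) :
    (ord n m X S v).Nodup :=
  pairwise_ord hinj (fun a _ b _ h e => by rw [e] at h; exact lt_irrefl _ h)

theorem perm_ord {v : ℕ} (hk : ∀ a ∈ alts n m, key n m X S v a < kmax n m)
    (hinj : ∀ a ∈ alts n m, ∀ b ∈ alts n m, key n m X S v a = key n m X S v b → a = b) :
    (ord n m X S v).Perm (alts n m) :=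
  (List.perm_ext_iff_of_nodup (nodup_ord hinj) nodup_alts).2 (fun _ => mem_ord hk)

theorem pref_of_pairwise {l : List ℕ} {f : ℕ → ℕ} (hl : l.Pairwise (fun a b => f a < f b))
    {a b : ℕ} (ha : a ∈ l) (hb : b ∈ l) (hab : f a < f b) : Pref l a b := by
  induction l with
  | nil => simp at ha
  | cons c t ih =>
    rw [List.pairwise_cons] at hl
    rw [List.mem_cons] at ha hb
    rcases ha with rfl | ha
    · rcases hb with rfl | hb
      · exact absurd hab (lt_irrefl _)
      · exact pref_cons hb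
    · rcases hb with rfl | hb
      · have := hl.1 a ha
        omega
      · exact (ih hl.2 ha hb).cons' _

theorem pref_ord {v : ℕ} (hk : ∀ a ∈ alts n m, key n m X S v a < kmax n m)
    (hinj : ∀ a ∈ alts n m, ∀ b ∈ alts n m, key n m X S v a = key n m X S v b → a = b)
    {a b : ℕ} (ha : a ∈ alts n m) (hb : b ∈ alts n m)
    (hab : key n m X S v a < key n m X S v b) : Pref (ord n m X S v) a b :=
  pref_of_pairwise (pairwise_ord hinj (fun _ _ _ _ h => h)) ((mem_ord hk).2 ha)
    ((mem_ord hk).2 hb) hab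

/-! ### values -/

theorem aN_z (x r : ℕ) (hr : r < 3) : aN n m (8 * (3 * x + r)) =
    20 * lx n m n + 80 * (n + m + 3) + 4 * lx n m x + 1 := by
  have h1 : (8 * (3 * x + r)) % 8 = 0 := by omega
  have h2 : (8 * (3 * x + r)) / 24 = x := by omega
  rw [aN, if_pos h1, h2]

theorem aN_b (j : ℕ) : aN n m (8 * j + 1) = 0 := by
  have h1 : ¬ (8 * j + 1) % 8 = 0 := by omega
  have h2 : (8 * j + 1) % 8 = 1 := by omega
  rw [aN, if_neg h1, if_pos h2]

theorem aN_e (i : ℕ) : aN n m (8 * i + 2) =
    if i < 2 then 20 * lx n m n + 68 * (n + m + 3) + 1 else 0 := by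
  have h1 : ¬ (8 * i + 2) % 8 = 0 := by omega
  have h2 : ¬ (8 * i + 2) % 8 = 1 := by omega
  have h3 : (8 * i + 2) / 8 = i := by omega
  rw [aN, if_neg h1, if_neg h2, h3]

theorem bN_z (x r : ℕ) (hr : r < 3) : bN n m X (8 * (3 * x + r)) =
    if r = 2 then 0 else 16 * lx n m n + 64 * (n + m + 3) - (2 * x + r + 2) := by
  have h1 : (8 * (3 * x + r)) % 8 = 0 := by omega
  have h2 : (8 * (3 * x + r)) / 24 = x := by omega
  have h3 : (8 * (3 * x + r)) / 8 % 3 = r := by omega
  rw [bN, if_pos h1, h2, h3]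

theorem bN_b (j : ℕ) : bN n m X (8 * j + 1) =
    16 * lx n m n + 68 * (n + m + 3) + 4 * lx n m (X j) - (2 * (j / 3) + 1) := by
  have h1 : ¬ (8 * j + 1) % 8 = 0 := by omega
  have h2 : (8 * j + 1) % 8 = 1 := by omega
  have h3 : (8 * j + 1) / 8 = j := by omega
  have h4 : (8 * j + 1) / 24 = j / 3 := by omega
  rw [bN, if_neg h1, if_pos h2, h3, h4]

theorem bN_e (i : ℕ) : bN n m X (8 * i + 2) =
    if i = 0 then 0 else if i = 1 then 16 * lx n m n + 64 * (n + m + 3) - 1
      else 16 * lx n m n + 64 * (n + m + 3) := by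
  have h1 : ¬ (8 * i + 2) % 8 = 0 := by omega
  have h2 : ¬ (8 * i + 2) % 8 = 1 := by omega
  have h3 : (8 * i + 2) / 8 = i := by omega
  rw [bN, if_neg h1, if_neg h2, h3]

theorem rN_z (v x r : ℕ) (hr : r < 3) : rN S v (8 * (3 * x + r)) =
    if r = 0 then (if v = 16 * x + 1 then 5 else 0)
    else if r = 1 then (if v = 16 * x + 9 then 8 else 3) else 6 := by
  have h1 : (8 * (3 * x + r)) % 8 = 0 := by omega
  have h2 : (8 * (3 * x + r)) / 24 = x := by omega
  have h3 : (8 * (3 * x + r)) / 8 % 3 = r := by omega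
  rw [rN, if_pos h1, h2, h3]

theorem rN_b (v j : ℕ) : rN S v (8 * j + 1) =
    if v = 8 * j then (if S j then 7 else 4) else (if S j then 5 else 2) := by
  have h1 : ¬ (8 * j + 1) % 8 = 0 := by omega
  have h2 : (8 * j + 1) % 8 = 1 := by omega
  have h3 : (8 * j + 1) / 8 = j := by omega
  have h4 : 8 * j + 1 - 1 = 8 * j := by omega
  rw [rN, if_neg h1, if_pos h2, h3, h4]

theorem rN_e (v i : ℕ) : rN S v (8 * i + 2) =
    if i = 0 then 1 else if i = 1 then (if v = 10 then 2 else 0)
    else if i = 2 then 1 else (if v = 26 then 2 else 0) := by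
  have h1 : ¬ (8 * i + 2) % 8 = 0 := by omega
  have h2 : ¬ (8 * i + 2) % 8 = 1 := by omega
  have h3 : (8 * i + 2) / 8 = i := by omega
  rw [rN, if_neg h1, if_neg h2, h3]

theorem tN_v (j : ℕ) : tN n m (8 * j) =
    2 * lx n m n + 6 * (n + m + 3) + j / 3 + 1 := by
  have h1 : (8 * j) % 8 = 0 := by omega
  have h2 : (8 * j) / 24 = j / 3 := by omega
  rw [tN, if_pos h1, h2]

theorem tN_w (x r : ℕ) (hr : r < 2) : tN n m (8 * (2 * x + r) + 1) =
    2 * lx n m n + 8 * (n + m + 3) + 2 * lx n m x := by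
  have h1 : ¬ (8 * (2 * x + r) + 1) % 8 = 0 := by omega
  have h2 : (8 * (2 * x + r) + 1) % 8 = 1 := by omega
  have h3 : (8 * (2 * x + r) + 1) / 16 = x := by omega
  rw [tN, if_neg h1, if_pos h2, h3]

theorem tN_u (i : ℕ) : tN n m (8 * i + 2) =
    if i < 2 then 0 else 4 * lx n m n + 8 * (n + m + 3) := by
  have h1 : ¬ (8 * i + 2) % 8 = 0 := by omega
  have h2 : ¬ (8 * i + 2) % 8 = 1 := by omega
  have h3 : (8 * i + 2) / 8 = i := by omega
  rw [tN, if_neg h1, if_neg h2, h3]

end

end Pool.Agent.Helper72.PR
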