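import Pool.Agent.Helper72.PR.BaseMic

/-!
The comparison theorem.
-/

namespace Pool.Agent.Helper72.PR

section

variable {n m : ℕ} {X : ℕ → ℕ} {S : ℕ → Bool} {σ : ℕ → Bool}

theorem v_facts (n : ℕ) (j : ℕ) :
    (third X S σ j ∧ tV X S σ (8 * j) = 1 ∧ eV n X S σ (8 * j) = 0) ∨
    (¬ third X S σ j ∧ tV X S σ (8 * j) = 0 ∧ eV n X S σ (8 * j) = 2 * st X S σ j) := by
  rw [tV_v, eV_v]
  by_cases h : third X S σ j
  · left; simp [h]
  · right; simp [h]

theorem b_facts (n : ℕ) (j : ℕ) :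
    (third X S σ j ∧ muA n X S σ (8 * j + 1) =
      (16 * ((X j : ℕ) : ℤ) + 24) * ((lr S j : ℕ) : ℤ) - 1 ∧ sA X S σ (8 * j + 1) = st X S σ j) ∨
    (¬ third X S σ j ∧ muA n X S σ (8 * j + 1) =
      (16 * ((X j : ℕ) : ℤ) + 24) * ((lr S j : ℕ) : ℤ) - 3 ∧
      sA X S σ (8 * j + 1) = -st X S σ j) := by
  rw [muA_b, sA_b]
  by_cases h : third X S σ j
  · left; simp [h]
  · right; simp [h]

theorem lr_lt (j : ℕ) : lr S j < 3 := by
  unfold lr
  split_ifs <;> norm_num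

theorem sA_lit (j : ℕ) : sA X S σ (8 * (3 * X j + lr S j)) = st X S σ j := by
  rw [sA_z _ _ (lr_lt j), st, lr]
  cases S j <;> simp

theorem muA_lit (j : ℕ) : muA n X S σ (8 * (3 * X j + lr S j)) =
    (16 * ((X j : ℕ) : ℤ) + 24) * ((lr S j : ℕ) : ℤ) := muA_z _ _ (lr_lt j)

theorem rN_b_own (j : ℕ) : rN S (8 * j) (8 * j + 1) = 3 * lr S j + 1 := by
  rw [rN_b, if_pos rfl, lr]
  cases S j <;> simp

theorem rN_b_oth {v j : ℕ} (h : v ≠ 8 * j) : rN S v (8 * j + 1) + 1 = 3 * lr S j := by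
  rw [rN_b, if_neg h, lr]
  cases S j <;> simp

/-- own literal and other literals of the clause -/
theorem cmp_lit (hX : ∀ j < 3 * m, X j < n) {j j' : ℕ} (hj : j < 3 * m)
    (hj' : j' < 3 * m) (hC : j / 3 = j' / 3) :
    Cmp n m X S σ (8 * j) (8 * (3 * X j' + lr S j')) (8 * j' + 1) := by
  intro _
  have hlr := lr_lt (S := S) j'
  rw [rN_z' hlr (by omega) (by omega), mic, mic, brs_vz hj (hX j' hj') hlr, brs_b, muA_lit,
    sA_lit]
  rcases eq_or_ne j j' with rfl | hne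
  · left
    rw [rN_b_own]
    refine ⟨by omega, fun hg => ?_⟩
    rcases v_facts (X := X) (S := S) (σ := σ) n j with ⟨h1, h2, h3⟩ | ⟨h1, h2, h3⟩ <;>
    rcases b_facts (X := X) (S := S) (σ := σ) n j with ⟨h4, h5, h6⟩ | ⟨h4, h5, h6⟩
    · rw [h2, h3, h5, h6]; linarith
    · exact absurd h1 h4
    · exact absurd h4 h1
    · rw [h2, h3, h5, h6]
      rcases st_cases (X := X) (S := S) (σ := σ) j with h | h <;> rw [h] <;> linarith
  · right
    have h0 := rN_b_oth (S := S) (v := 8 * j) (j := j') (by omega)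
    refine ⟨by omega, fun hg => ?_⟩
    obtain ⟨g1, g2⟩ := third_facts hg hj hC hne
    rcases v_facts (X := X) (S := S) (σ := σ) n j with ⟨h1, h2, h3⟩ | ⟨h1, h2, h3⟩ <;>
    rcases b_facts (X := X) (S := S) (σ := σ) n j' with ⟨h4, h5, h6⟩ | ⟨h4, h5, h6⟩
    · exact absurd ⟨h1, h4⟩ g1
    · rw [h2, h3, h5, h6]; linarith
    · rw [h2, h3, h5, h6]; linarith
    · rw [h2, h3, h5, h6, g2 h1 h4]
      rcases st_cases (X := X) (S := S) (σ := σ) j with h | h <;> rw [h] <;> linarith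

theorem cmp_vzb (hX : ∀ j < 3 * m, X j < n) {j j' x r : ℕ} (hj : j < 3 * m)
    (hj' : j' < 3 * m) (hx : x < n) (hr : r < 3) :
    Cmp n m X S σ (8 * j) (8 * (3 * x + r)) (8 * j' + 1) := by
  intro h
  have e1 := mac_vz (X := X) hj hx hr
  have e2 := mac_vb (n := n) (X := X) hj hj'
  have e3 : x = X j' := by
    rcases lt_trichotomy x (X j') with h' | h' | h'
    · have := lx_lt (n := n) (m := m) h'
      omega
    · exact h'
    · have := lx_lt (n := n) (m := m) h'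
      omega
  subst e3
  have hC : j / 3 = j' / 3 := by omega
  rcases eq_or_ne r (lr S j') with rfl | hne
  · exact cmp_lit hX hj hj' hC h
  have hlr := lr_lt (S := S) j'
  have e0 := cmp_lit (n := n) (σ := σ) (S := S) hX hj hj' hC
  have hbd := eV_v_bound (n := n) (X := X) (S := S) (σ := σ) j
  have hm1 : mic n m X S σ (8 * j) (8 * (3 * X j' + lr S j')) -
      mic n m X S σ (8 * j) (8 * j' + 1) ≤ 7 ∧
      -7 ≤ mic n m X S σ (8 * j) (8 * (3 * X j' + lr S j')) -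
      mic n m X S σ (8 * j) (8 * j' + 1) := by
    rw [mic, mic, brs_vz hj (hX j' hj') hlr, brs_b, muA_lit, sA_lit]
    rcases v_facts (X := X) (S := S) (σ := σ) n j with ⟨h1, h2, h3⟩ | ⟨h1, h2, h3⟩ <;>
    rcases b_facts (X := X) (S := S) (σ := σ) n j' with ⟨h4, h5, h6⟩ | ⟨h4, h5, h6⟩ <;>
    rw [h2, h3, h5, h6] <;>
    rcases st_cases (X := X) (S := S) (σ := σ) j with h | h <;>
    rcases st_cases (X := X) (S := S) (σ := σ) j' with h' | h' <;> rw [h'] <;> (try rw [h]) <;>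
    constructor <;> linarith
  have hv1 : 8 * j ≠ 16 * X j' + 1 := by omega
  have hv2 : 8 * j ≠ 16 * X j' + 9 := by omega
  have hxz : (0 : ℤ) ≤ (X j' : ℤ) := by positivity
  have hrk : 3 * lr S j' ≤ rN S (8 * j) (8 * j' + 1) + 1 ∧
      rN S (8 * j) (8 * j' + 1) ≤ 3 * lr S j' + 1 := by
    rcases eq_or_ne j j' with rfl | hne'
    · rw [rN_b_own]; omega
    · have := rN_b_oth (S := S) (v := 8 * j) (j := j') (by omega)
      omega
  rw [rN_z' hr hv1 hv2]
  rcases Nat.lt_or_gt_of_ne hne with h' | h'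
  · left
    have := mic_zz' (S := S) (σ := σ) (v := 8 * j) (e := 2) hr hlr h'
      (by rw [brs_vz hj hx hr, brs_vz hj hx hlr]) hbd.2 hbd.1
    refine ⟨?_, fun _ => ?_⟩
    · omega
    · linarith [hm1.1, hm1.2]
  · right
    have := mic_zz' (S := S) (σ := σ) (v := 8 * j) (e := 2) hlr hr h'
      (by rw [brs_vz hj hx hr, brs_vz hj hx hlr]) hbd.2 hbd.1
    refine ⟨?_, fun _ => ?_⟩
    · omega
    · linarith [hm1.1, hm1.2]

end

end Pool.Agent.Helper72.PR
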