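import Pool.Agent.Helper72.PR.BaseCmp

/-!
The comparison theorem, second part.
-/

namespace Pool.Agent.Helper72.PR

section

variable {n m : ℕ} {X : ℕ → ℕ} {S : ℕ → Bool} {σ : ℕ → Bool}

/-- the literals of a clause have different variables -/
def Dis (m : ℕ) (X : ℕ → ℕ) : Prop :=
  ∀ j < 3 * m, ∀ j' < 3 * m, j / 3 = j' / 3 → j ≠ j' → X j ≠ X j'

theorem cmp_bb (hd : Dis m X) {v j j' : ℕ} (hj : j < 3 * m)
    (hj' : j' < 3 * m) (hne : j ≠ j') : Cmp n m X S σ v (8 * j + 1) (8 * j' + 1) := by
  intro h
  exfalso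
  rw [mac, mac, aN_b, aN_b, bN_b, bN_b] at h
  have hC : j / 3 < m := by omega
  have hC' : j' / 3 < m := by omega
  have e3 : X j = X j' := by
    rcases lt_trichotomy (X j) (X j') with h' | h' | h'
    · have := lx_lt (n := n) (m := m) h'
      omega
    · exact h'
    · have := lx_lt (n := n) (m := m) h'
      omega
  rw [e3] at h
  exact hd j hj j' hj' (by omega) hne e3

theorem cmp_e23 {v : ℕ} (hv : v ≠ 26) (h : 2 * eV n X S σ v < 16 * (n : ℤ) + 40) :
    Cmp n m X S σ v (8 * 2 + 2) (8 * 3 + 2) := by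
  intro _
  right
  rw [mic, mic, brs_e (by norm_num), brs_e (by norm_num), muA_e, muA_e, sA_e, sA_e, rN_e, rN_e]
  simp only [OfNat.ofNat_ne_zero, OfNat.ofNat_ne_one, if_false, if_true, Nat.reduceEqDiff,
    false_or, or_self, if_neg hv, zero_lt_one, true_and]
  intro _
  linarith

theorem cmp_e23' : Cmp n m X S σ (8 * 3 + 2) (8 * 2 + 2) (8 * 3 + 2) := by
  intro _
  left
  rw [mic, mic, brs_e (by norm_num), brs_e (by norm_num), muA_e, muA_e, sA_e, sA_e, rN_e, rN_e,
    eV_u]
  norm_num
  intro _
  positivity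

theorem cmp_v (hd : Dis m X) (hX : ∀ j < 3 * m, X j < n) {j : ℕ}
    (hj : j < 3 * m) {a b : ℕ} (ha : a ∈ alts n m) (hb : b ∈ alts n m) (hne : a ≠ b) :
    Cmp n m X S σ (8 * j) a b := by
  have he0 := mac_ve0 (n := n) (X := X) hj
  have he1 := mac_ve1 (n := n) (X := X) hj
  have he2 := mac_ve2 (n := n) (X := X) hj (le_refl 2)
  have he3 := mac_ve2 (n := n) (X := X) hj (show 2 ≤ 3 by norm_num)
  have hC : j / 3 < m := by omega
  have h23 : Cmp n m X S σ (8 * j) (8 * 2 + 2) (8 * 3 + 2) := by
    apply cmp_e23 (by omega)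
    have := (eV_v_bound (n := n) (X := X) (S := S) (σ := σ) j).2
    have hn : (0 : ℤ) ≤ (n : ℤ) := by positivity
    linarith
  rw [mem_alts] at ha hb
  rcases ha with ⟨x, r, hx, hr, rfl⟩ | ⟨j1, hj1, rfl⟩ | ⟨i, hi, rfl⟩ <;>
  rcases hb with ⟨x', r', hx', hr', rfl⟩ | ⟨j2, hj2, rfl⟩ | ⟨i', hi', rfl⟩
  · exact cmp_vzz hj hx hr hx' hr' hne
  · exact cmp_vzb hX hj hj2 hx hr
  · intro h
    exfalso
    have e1 := mac_vz (X := X) hj hx hr
    interval_cases i' <;> omega
  · exact (cmp_vzb hX hj hj1 hx' hr').symm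
  · exact cmp_bb hd hj1 hj2 (fun e => hne (by rw [e]))
  · intro h
    exfalso
    have e1 := mac_vb (n := n) (X := X) hj hj1
    have hC' : j1 / 3 < m := by omega
    interval_cases i' <;> omega
  · intro h
    exfalso
    have e1 := mac_vz (X := X) hj hx' hr'
    interval_cases i <;> omega
  · intro h
    exfalso
    have e1 := mac_vb (n := n) (X := X) hj hj2
    have hC' : j2 / 3 < m := by omega
    interval_cases i <;> omega
  · interval_cases i <;> interval_cases i' <;>
    first
      | exact absurd rfl hne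
      | exact h23
      | exact h23.symm
      | (intro h; exfalso; omega)

/-! ### palette voters -/

theorem eV_u_bound {i : ℕ} (hi : i < 3) : -1 ≤ eV n X S σ (8 * i + 2) ∧
    eV n X S σ (8 * i + 2) ≤ 1 := by
  rw [eV_u]
  interval_cases i <;> norm_num

theorem brs_lz {i x r : ℕ} (hi : i < 2) (hx : x < n) (hr : r < 3) :
    brs n m X (8 * i + 2) (8 * (3 * x + r)) = -1 := by
  rw [brs, aN_z x r hr, bN_z x r hr, tN_u, if_pos hi, if_pos]
  have f1 := lx_lt (n := n) (m := m) hx
  split_ifs <;> omega

theorem cmp_l (hd : Dis m X) (hX : ∀ j < 3 * m, X j < n) {i : ℕ}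
    (hi : i < 2) {a b : ℕ} (ha : a ∈ alts n m) (hb : b ∈ alts n m) (hne : a ≠ b) :
    Cmp n m X S σ (8 * i + 2) a b := by
  have he0 := mac_le (n := n) (m := m) (X := X) hi (show 0 < 2 by norm_num)
  have he1 := mac_le (n := n) (m := m) (X := X) hi (show 1 < 2 by norm_num)
  have he2 := mac_le2 (n := n) (m := m) (X := X) hi (le_refl 2)
  have he3 := mac_le2 (n := n) (m := m) (X := X) hi (show 2 ≤ 3 by norm_num)
  have hbd := eV_u_bound (n := n) (X := X) (S := S) (σ := σ) (show i < 3 by omega)
  have hn : (0 : ℤ) ≤ (n : ℤ) := by positivity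
  have h23 : Cmp n m X S σ (8 * i + 2) (8 * 2 + 2) (8 * 3 + 2) := by
    apply cmp_e23 (by omega)
    linarith [hbd.2]
  have h01 : Cmp n m X S σ (8 * i + 2) (8 * 0 + 2) (8 * 1 + 2) := by
    intro _
    rw [mic, mic, tV_ne (by omega), muA_e, muA_e, sA_e, sA_e, rN_e, rN_e, eV_u]
    interval_cases i
    · right; norm_num
    · left; norm_num
  rw [mem_alts] at ha hb
  rcases ha with ⟨x, r, hx, hr, rfl⟩ | ⟨j1, hj1, rfl⟩ | ⟨i1, hi1, rfl⟩ <;>
  rcases hb with ⟨x', r', hx', hr', rfl⟩ | ⟨j2, hj2, rfl⟩ | ⟨i2, hi2, rfl⟩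
  · intro h
    have e1 := mac_lz (m := m) (X := X) hi hx hr
    have e2 := mac_lz (m := m) (X := X) hi hx' hr'
    have e3 : x = x' := by
      rcases lt_trichotomy x x' with h' | h' | h'
      · have := lx_lt (n := n) (m := m) h'
        omega
      · exact h'
      · have := lx_lt (n := n) (m := m) h'
        omega
    subst e3
    have hne' : r ≠ r' := fun e => hne (by rw [e])
    have hxz : (0 : ℤ) ≤ (x : ℤ) := by positivity
    refine cmp_zz hr hr' hne' ?_ (by linarith [hbd.2]) (by linarith [hbd.1]) (by omega)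
      (by omega) h
    rw [brs_lz hi hx hr, brs_lz hi hx hr']
  · intro h
    exfalso
    have e1 := mac_lz (m := m) (X := X) hi hx hr
    have e2 := mac_lb (n := n) (X := X) hi hj2
    have := lx_lt (n := n) (m := m) (hX j2 hj2)
    omega
  · intro h
    exfalso
    have e1 := mac_lz (m := m) (X := X) hi hx hr
    interval_cases i2 <;> omega
  · intro h
    exfalso
    have e1 := mac_lz (m := m) (X := X) hi hx' hr'
    have e2 := mac_lb (n := n) (X := X) hi hj1
    have := lx_lt (n := n) (m := m) (hX j1 hj1)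
    omega
  · exact cmp_bb hd hj1 hj2 (fun e => hne (by rw [e]))
  · intro h
    exfalso
    have e2 := mac_lb (n := n) (X := X) hi hj1
    have := lx_lt (n := n) (m := m) (hX j1 hj1)
    interval_cases i2 <;> omega
  · intro h
    exfalso
    have e1 := mac_lz (m := m) (X := X) hi hx' hr'
    interval_cases i1 <;> omega
  · intro h
    exfalso
    have e2 := mac_lb (n := n) (X := X) hi hj2
    have := lx_lt (n := n) (m := m) (hX j2 hj2)
    interval_cases i1 <;> omega
  · interval_cases i1 <;> interval_cases i2 <;>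
    first
      | exact absurd rfl hne
      | exact h23
      | exact h23.symm
      | exact h01
      | exact h01.symm
      | (intro h; exfalso; omega)

theorem cmp_r (hd : Dis m X) {i : ℕ}
    (hi : 2 ≤ i) (hi4 : i < 4) {a b : ℕ} (ha : a ∈ alts n m) (hb : b ∈ alts n m) (hne : a ≠ b) :
    Cmp n m X S σ (8 * i + 2) a b := by
  have he0 := mac_re0 (n := n) (m := m) (X := X) hi
  have he1 := mac_re1 (n := n) (m := m) (X := X) hi
  have he2 := mac_re2 (n := n) (m := m) (X := X) hi (le_refl 2)
  have he3 := mac_re2 (n := n) (m := m) (X := X) hi (show 2 ≤ 3 by norm_num)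
  have hn : (0 : ℤ) ≤ (n : ℤ) := by positivity
  have h23 : Cmp n m X S σ (8 * i + 2) (8 * 2 + 2) (8 * 3 + 2) := by
    interval_cases i
    · apply cmp_e23 (by omega)
      have hbd := eV_u_bound (n := n) (X := X) (S := S) (σ := σ) (show 2 < 3 by omega)
      linarith [hbd.2]
    · exact cmp_e23'
  rw [mem_alts] at ha hb
  rcases ha with ⟨x, r, hx, hr, rfl⟩ | ⟨j1, hj1, rfl⟩ | ⟨i1, hi1, rfl⟩ <;>
  rcases hb with ⟨x', r', hx', hr', rfl⟩ | ⟨j2, hj2, rfl⟩ | ⟨i2, hi2, rfl⟩
  · intro h
    exfalso
    have f1 := lx_lt (n := n) (m := m) hx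
    have f2 := lx_lt (n := n) (m := m) hx'
    rcases Nat.lt_or_ge r 2 with hr2 | hr2 <;> rcases Nat.lt_or_ge r' 2 with hr2' | hr2'
    · have e1 := mac_rz' (m := m) (X := X) hi hx hr2
      have e2 := mac_rz' (m := m) (X := X) hi hx' hr2'
      omega
    · have e1 := mac_rz' (m := m) (X := X) hi hx hr2
      have : r' = 2 := by omega
      subst this
      have e2 := mac_rz (m := m) (X := X) hi hx'
      omega
    · have e1 := mac_rz' (m := m) (X := X) hi hx' hr2'
      have : r = 2 := by omega
      subst this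
      have e2 := mac_rz (m := m) (X := X) hi hx
      omega
    · have e0 : r = 2 := by omega
      have e0' : r' = 2 := by omega
      subst e0 e0'
      have e1 := mac_rz (m := m) (X := X) hi hx
      have e2 := mac_rz (m := m) (X := X) hi hx'
      rcases lt_trichotomy x x' with h' | h' | h'
      · have := lx_lt (n := n) (m := m) h'
        omega
      · omega
      · have := lx_lt (n := n) (m := m) h'
        omega
  · intro h
    exfalso
    have f1 := lx_lt (n := n) (m := m) hx
    have e3 := mac_rb (n := n) (X := X) hi hj2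
    have hC : j2 / 3 < m := by omega
    rcases Nat.lt_or_ge r 2 with hr2 | hr2
    · have e1 := mac_rz' (m := m) (X := X) hi hx hr2
      omega
    · have : r = 2 := by omega
      subst this
      have e2 := mac_rz (m := m) (X := X) hi hx
      omega
  · intro h
    exfalso
    have f1 := lx_lt (n := n) (m := m) hx
    rcases Nat.lt_or_ge r 2 with hr2 | hr2
    · have e1 := mac_rz' (m := m) (X := X) hi hx hr2
      interval_cases i2 <;> omega
    · have : r = 2 := by omega
      subst this
      have e2 := mac_rz (m := m) (X := X) hi hx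
      interval_cases i2 <;> omega
  · intro h
    exfalso
    have f1 := lx_lt (n := n) (m := m) hx'
    have e3 := mac_rb (n := n) (X := X) hi hj1
    have hC : j1 / 3 < m := by omega
    rcases Nat.lt_or_ge r' 2 with hr2 | hr2
    · have e1 := mac_rz' (m := m) (X := X) hi hx' hr2
      omega
    · have : r' = 2 := by omega
      subst this
      have e2 := mac_rz (m := m) (X := X) hi hx'
      omega
  · exact cmp_bb hd hj1 hj2 (fun e => hne (by rw [e]))
  · intro h
    exfalso
    have e3 := mac_rb (n := n) (X := X) hi hj1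
    have hC : j1 / 3 < m := by omega
    interval_cases i2 <;> omega
  · intro h
    exfalso
    have f1 := lx_lt (n := n) (m := m) hx'
    rcases Nat.lt_or_ge r' 2 with hr2 | hr2
    · have e1 := mac_rz' (m := m) (X := X) hi hx' hr2
      interval_cases i1 <;> omega
    · have : r' = 2 := by omega
      subst this
      have e2 := mac_rz (m := m) (X := X) hi hx'
      interval_cases i1 <;> omega
  · intro h
    exfalso
    have e3 := mac_rb (n := n) (X := X) hi hj2
    have hC : j2 / 3 < m := by omega
    interval_cases i1 <;> omega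
  · interval_cases i1 <;> interval_cases i2 <;>
    first
      | exact absurd rfl hne
      | exact h23
      | exact h23.symm
      | (intro h; exfalso; omega)

end

end Pool.Agent.Helper72.PR
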