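import Pool.Agent.Helper72.PR.BaseCmp2

/-!
The comparison theorem, third part: voters of variables.
-/

namespace Pool.Agent.Helper72.PR

section

variable {n m : ℕ} {X : ℕ → ℕ} {S : ℕ → Bool} {σ : ℕ → Bool}

theorem lx_add (n m x y : ℕ) : lx n m (x + y) = lx n m x + lx n m y := by
  unfold lx
  ring

theorem lx_one (n m : ℕ) : lx n m 1 = n + m + 3 := by
  unfold lx
  ring

theorem eV_w_bound {x s : ℕ} (hs : s < 2) :
    -(8 * (x : ℤ) + 16) ≤ eV n X S σ (8 * (2 * x + s) + 1) ∧
    eV n X S σ (8 * (2 * x + s) + 1) ≤ 8 * (x : ℤ) + 16 := by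
  have hxz : (0 : ℤ) ≤ (x : ℤ) := by positivity
  rw [eV_w x s hs]
  rcases sg_cases (σ := σ) x with h | h <;> rw [h] <;> split_ifs <;> constructor <;> linarith

theorem brs_wz {x s y r : ℕ} (hx : x < n) (hs : s < 2) (hy : y < n) (hr : r < 3) (hxy : x ≤ y) :
    brs n m X (8 * (2 * x + s) + 1) (8 * (3 * y + r)) = -1 := by
  rw [brs, aN_z y r hr, bN_z y r hr, tN_w x s hs, if_pos]
  have f1 := lx_lt (n := n) (m := m) hx
  rcases Nat.lt_or_ge x y with h' | h'
  · have f3 := lx_lt (n := n) (m := m) h'
    split_ifs <;> omega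
  · have : x = y := by omega
    subst this
    split_ifs <;> omega

/-- own cluster -/
theorem cmp_own {x s r r' : ℕ} (hx : x < n) (hs : s < 2) (hr : r < 3) (hr' : r' < 3)
    (hne : r ≠ r') :
    Cmp n m X S σ (8 * (2 * x + s) + 1) (8 * (3 * x + r)) (8 * (3 * x + r')) := by
  intro _
  rw [mic, mic, brs_wz hx hs hx hr (le_refl x), brs_wz hx hs hx hr' (le_refl x),
    tV_ne (by omega), muA_z x r hr, muA_z x r' hr', sA_z x r hr, sA_z x r' hr', eV_w x s hs,
    rN_z _ x r hr, rN_z _ x r' hr']
  have hxz : (0 : ℤ) ≤ (x : ℤ) := by positivity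
  have h1 : (8 * (2 * x + 0) + 1 = 16 * x + 1) ∧ ¬ (8 * (2 * x + 0) + 1 = 16 * x + 9) := by omega
  have h2 : ¬ (8 * (2 * x + 1) + 1 = 16 * x + 1) ∧ (8 * (2 * x + 1) + 1 = 16 * x + 9) := by omega
  have h3 : sg σ x * (sg σ x * (8 * (x : ℤ) + 16)) = 8 * (x : ℤ) + 16 := by
    rcases sg_cases (σ := σ) x with h | h <;> rw [h] <;> ring
  generalize hE : sg σ x * (8 * (x : ℤ) + 16) = E at *
  interval_cases s
  · rw [if_pos h1.1, if_neg h1.2, if_pos rfl]
    interval_cases r <;> interval_cases r' <;>
    first
      | exact absurd rfl hne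
      | (left; refine ⟨by norm_num, fun _ => ?_⟩; norm_num; linarith)
      | (right; refine ⟨by norm_num, fun _ => ?_⟩; norm_num; linarith)
  · rw [if_neg h2.1, if_pos h2.2, if_neg (show ¬ (1 = 0) by norm_num)]
    interval_cases r <;> interval_cases r' <;>
    first
      | exact absurd rfl hne
      | (left; refine ⟨by norm_num, fun _ => ?_⟩; norm_num; linarith)
      | (right; refine ⟨by norm_num, fun _ => ?_⟩; norm_num; linarith)

theorem cmp_w (hd : Dis m X) {x s : ℕ}
    (hx : x < n) (hs : s < 2) {a b : ℕ} (ha : a ∈ alts n m) (hb : b ∈ alts n m) (hne : a ≠ b) :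
    Cmp n m X S σ (8 * (2 * x + s) + 1) a b := by
  have he0 := mac_we0 (n := n) (m := m) (X := X) hx hs
  have he1 := mac_we1 (n := n) (m := m) (X := X) hx hs
  have he2 := mac_we2 (n := n) (m := m) (X := X) (x := x) hs (le_refl 2)
  have he3 := mac_we2 (n := n) (m := m) (X := X) (x := x) hs (show 2 ≤ 3 by norm_num)
  have hn : (0 : ℤ) ≤ (n : ℤ) := by positivity
  have hxz : (0 : ℤ) ≤ (x : ℤ) := by positivity
  have hxn : (x : ℤ) + 1 ≤ (n : ℤ) := by exact_mod_cast hx
  have hbd := eV_w_bound (n := n) (X := X) (S := S) (σ := σ) (x := x) hs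
  have fx := lx_lt (n := n) (m := m) hx
  have h23 : Cmp n m X S σ (8 * (2 * x + s) + 1) (8 * 2 + 2) (8 * 3 + 2) := by
    apply cmp_e23 (by omega)
    linarith [hbd.2]
  -- two alternatives of variables
  have hzz : ∀ y r y' r', y < n → r < 3 → y' < n → r' < 3 →
      8 * (3 * y + r) ≠ 8 * (3 * y' + r') →
      Cmp n m X S σ (8 * (2 * x + s) + 1) (8 * (3 * y + r)) (8 * (3 * y' + r')) := by
    intro y r y' r' hy hr hy' hr' hne h
    by_cases c1 : x ≤ y ∨ r = 2 <;> by_cases c2 : x ≤ y' ∨ r' = 2
    · have e1 := mac_wz (m := m) (X := X) hx hs hy hr c1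
      have e2 := mac_wz (m := m) (X := X) hx hs hy' hr' c2
      have e3 : y = y' := by
        rcases lt_trichotomy y y' with h' | h' | h'
        · have := lx_lt (n := n) (m := m) h'
          omega
        · exact h'
        · have := lx_lt (n := n) (m := m) h'
          omega
      subst e3
      have hne' : r ≠ r' := fun e => hne (by rw [e])
      have hxy : x ≤ y := by omega
      rcases Nat.lt_or_ge x y with hxy' | hxy'
      · have hxyz : (x : ℤ) + 1 ≤ (y : ℤ) := by exact_mod_cast hxy'
        refine cmp_zz hr hr' hne' ?_ (by linarith [hbd.2]) (by linarith [hbd.1]) (by omega)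
          (by omega) h
        rw [brs_wz hx hs hy hr hxy, brs_wz hx hs hy hr' hxy]
      · have : x = y := by omega
        subst this
        exact cmp_own hx hs hr hr' hne' h
    · exfalso
      have e1 := mac_wz (m := m) (X := X) hx hs hy hr c1
      have e2 := mac_wz' (m := m) (X := X) hx hs hy' (show y' < x by omega)
        (show r' < 2 by omega)
      rcases Nat.lt_or_ge y x with h' | h'
      · have := lx_lt (n := n) (m := m) h'
        omega
      · rcases Nat.lt_or_ge x y with h'' | h''
        · have := lx_lt (n := n) (m := m) h''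
          omega
        · have : x = y := by omega
          subst this
          omega
    · exfalso
      have e1 := mac_wz (m := m) (X := X) hx hs hy' hr' c2
      have e2 := mac_wz' (m := m) (X := X) hx hs hy (show y < x by omega)
        (show r < 2 by omega)
      rcases Nat.lt_or_ge y' x with h' | h'
      · have := lx_lt (n := n) (m := m) h'
        omega
      · rcases Nat.lt_or_ge x y' with h'' | h''
        · have := lx_lt (n := n) (m := m) h''
          omega
        · have : x = y' := by omega
          subst this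
          omega
    · exfalso
      have e1 := mac_wz' (m := m) (X := X) hx hs hy' (show y' < x by omega)
        (show r' < 2 by omega)
      have e2 := mac_wz' (m := m) (X := X) hx hs hy (show y < x by omega)
        (show r < 2 by omega)
      omega
  have hzb : ∀ y r j', y < n → r < 3 → j' < 3 * m →
      Cmp n m X S σ (8 * (2 * x + s) + 1) (8 * (3 * y + r)) (8 * j' + 1) := by
    intro y r j' hy hr hj' h
    exfalso
    have e3 := mac_wb (n := n) (X := X) (x := x) hs hj'
    have hC : j' / 3 < m := by omega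
    by_cases c1 : x ≤ y ∨ r = 2
    · have e1 := mac_wz (m := m) (X := X) hx hs hy hr c1
      have e4 : lx n m (X j' + x + 1) = lx n m (X j') + lx n m x + (n + m + 3) := by
        rw [lx_add, lx_add, lx_one]
      rcases lt_trichotomy y (X j' + x + 1) with h' | h' | h'
      · have := lx_lt (n := n) (m := m) h'
        omega
      · subst h'
        omega
      · have := lx_lt (n := n) (m := m) h'
        omega
    · have e1 := mac_wz' (m := m) (X := X) hx hs hy (show y < x by omega)
        (show r < 2 by omega)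
      omega
  have hze : ∀ y r i, y < n → r < 3 → i < 4 →
      Cmp n m X S σ (8 * (2 * x + s) + 1) (8 * (3 * y + r)) (8 * i + 2) := by
    intro y r i hy hr hi h
    exfalso
    by_cases c1 : x ≤ y ∨ r = 2
    · have e1 := mac_wz (m := m) (X := X) hx hs hy hr c1
      rcases Nat.lt_or_ge y x with h' | h'
      · have := lx_lt (n := n) (m := m) h'
        interval_cases i <;> omega
      · rcases Nat.lt_or_ge x y with h'' | h''
        · have := lx_lt (n := n) (m := m) h''
          interval_cases i <;> omega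
        · have : x = y := by omega
          subst this
          interval_cases i <;> omega
    · have e1 := mac_wz' (m := m) (X := X) hx hs hy (show y < x by omega)
        (show r < 2 by omega)
      interval_cases i <;> omega
  have hbe : ∀ j i, j < 3 * m → i < 4 →
      Cmp n m X S σ (8 * (2 * x + s) + 1) (8 * j + 1) (8 * i + 2) := by
    intro j i hj hi h
    exfalso
    have e3 := mac_wb (n := n) (X := X) (x := x) hs hj
    have hC : j / 3 < m := by omega
    interval_cases i <;> omega
  rw [mem_alts] at ha hb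
  rcases ha with ⟨y, r, hy, hr, rfl⟩ | ⟨j1, hj1, rfl⟩ | ⟨i1, hi1, rfl⟩ <;>
  rcases hb with ⟨y', r', hy', hr', rfl⟩ | ⟨j2, hj2, rfl⟩ | ⟨i2, hi2, rfl⟩
  · exact hzz y r y' r' hy hr hy' hr' hne
  · exact hzb y r j2 hy hr hj2
  · exact hze y r i2 hy hr hi2
  · exact (hzb y' r' j1 hy' hr' hj1).symm
  · exact cmp_bb hd hj1 hj2 (fun e => hne (by rw [e]))
  · exact hbe j1 i2 hj1 hi2
  · exact (hze y' r' i1 hy' hr' hi1).symm
  · exact (hbe j2 i1 hj2 hi1).symm
  · interval_cases i1 <;> interval_cases i2 <;>
    first
      | exact absurd rfl hne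
      | exact h23
      | exact h23.symm
      | (intro h; exfalso; omega)

/-- the comparison theorem -/
theorem cmp_all (hd : Dis m X) (hX : ∀ j < 3 * m, X j < n) {v a b : ℕ}
    (hv : IsVot n m v) (ha : a ∈ alts n m) (hb : b ∈ alts n m) (hne : a ≠ b) :
    Cmp n m X S σ v a b := by
  rcases hv with ⟨j, hj, rfl⟩ | ⟨x, r, hx, hr, rfl⟩ | ⟨i, hi, rfl⟩
  · exact cmp_v hd hX hj ha hb hne
  · exact cmp_w hd hx hr ha hb hne
  · rcases Nat.lt_or_ge i 2 with h | h
    · exact cmp_l hd hX h ha hb hne
    · exact cmp_r hd h hi ha hb hne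

end

end Pool.Agent.Helper72.PR
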