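import Pool.Agent.Helper72.PR.Base

/-!
Properties of the sorting keys.
-/

namespace Pool.Agent.Helper72.PR

section

variable {n m : ℕ} {X : ℕ → ℕ} {S : ℕ → Bool}

/-- names of voters -/
def IsVot (n m v : ℕ) : Prop := (∃ j < 3 * m, v = 8 * j) ∨
  (∃ x r, x < n ∧ r < 2 ∧ v = 8 * (2 * x + r) + 1) ∨ (∃ i < 4, v = 8 * i + 2)

theorem lx_lt {x y : ℕ} (h : x < y) : lx n m x + (n + m + 3) ≤ lx n m y := by
  have : lx n m x + (n + m + 3) = (n + m + 3) * (x + 1) := by unfold lx; ring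
  rw [this]
  exact Nat.mul_le_mul_left _ h

theorem rN_lt (v a : ℕ) : rN S v a < 10 := by
  unfold rN
  split_ifs <;> norm_num

theorem lx_zero : lx n m 0 = 0 := by simp [lx]

/-! voters of clauses -/

theorem mac_vz {j x r : ℕ} (hj : j < 3 * m) (hx : x < n) (hr : r < 3) :
    mac n m X (8 * j) (8 * (3 * x + r)) + (j / 3) =
      18 * lx n m n + 74 * (n + m + 3) + 4 * lx n m x := by
  rw [mac, aN_z x r hr, bN_z x r hr, tN_v]
  have f1 := lx_lt (n := n) (m := m) hx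
  split_ifs <;> omega

theorem mac_vb {j j' : ℕ} (hj : j < 3 * m) (hj' : j' < 3 * m) :
    mac n m X (8 * j) (8 * j' + 1) + 2 * (j' / 3) =
      18 * lx n m n + 74 * (n + m + 3) + 4 * lx n m (X j') + j / 3 := by
  rw [mac, aN_b, bN_b, tN_v]
  omega

theorem mac_ve0 {j : ℕ} (hj : j < 3 * m) :
    mac n m X (8 * j) (8 * 0 + 2) + j / 3 = 18 * lx n m n + 62 * (n + m + 3) := by
  rw [mac, aN_e, bN_e, tN_v]
  simp only [Nat.zero_lt_two, if_true]
  omega

theorem mac_ve1 {j : ℕ} (hj : j < 3 * m) :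
    mac n m X (8 * j) (8 * 1 + 2) = 18 * lx n m n + 70 * (n + m + 3) + j / 3 := by
  rw [mac, aN_e, bN_e, tN_v]
  simp only [Nat.one_lt_two, if_true, one_ne_zero, if_false]
  omega

theorem mac_ve2 {j i : ℕ} (hj : j < 3 * m) (hi : 2 ≤ i) :
    mac n m X (8 * j) (8 * i + 2) = 18 * lx n m n + 70 * (n + m + 3) + j / 3 + 1 := by
  rw [mac, aN_e, bN_e, tN_v]
  rw [if_neg (by omega), if_neg (by omega), if_neg (by omega)]
  omega

/-! voters of variables -/

theorem mac_wz {x s y r : ℕ} (hx : x < n) (hs : s < 2) (hy : y < n) (hr : r < 3)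
    (h : x ≤ y ∨ r = 2) :
    mac n m X (8 * (2 * x + s) + 1) (8 * (3 * y + r)) + 2 * lx n m x =
      18 * lx n m n + 72 * (n + m + 3) + 4 * lx n m y + 1 := by
  rw [mac, aN_z y r hr, bN_z y r hr, tN_w x s hs]
  have f1 := lx_lt (n := n) (m := m) hx
  have f2 := lx_lt (n := n) (m := m) hy
  rcases h with h | h
  · rcases Nat.lt_or_ge x y with h' | h'
    · have f3 := lx_lt (n := n) (m := m) h'
      split_ifs <;> omega
    · have : x = y := by omega
      subst this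
      split_ifs <;> omega
  · rw [if_pos h]
    omega

theorem mac_wz' {x s y r : ℕ} (hx : x < n) (hs : s < 2) (hy : y < n)
    (h : y < x) (hr : r < 2) :
    mac n m X (8 * (2 * x + s) + 1) (8 * (3 * y + r)) + (2 * y + r + 2) =
      18 * lx n m n + 72 * (n + m + 3) + 2 * lx n m x := by
  rw [mac, aN_z y r (by omega), bN_z y r (by omega), tN_w x s hs]
  have f1 := lx_lt (n := n) (m := m) hx
  have f2 := lx_lt (n := n) (m := m) h
  rw [if_neg (by omega)]
  omega

theorem mac_wb {x s j' : ℕ} (hs : s < 2) (hj' : j' < 3 * m) :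
    mac n m X (8 * (2 * x + s) + 1) (8 * j' + 1) + 2 * (j' / 3) + 1 =
      18 * lx n m n + 76 * (n + m + 3) + 4 * lx n m (X j') + 2 * lx n m x := by
  rw [mac, aN_b, bN_b, tN_w x s hs]
  omega

theorem mac_we0 {x s : ℕ} (hx : x < n) (hs : s < 2) :
    mac n m X (8 * (2 * x + s) + 1) (8 * 0 + 2) + 2 * lx n m x =
      18 * lx n m n + 60 * (n + m + 3) + 1 := by
  rw [mac, aN_e, bN_e, tN_w x s hs]
  have f1 := lx_lt (n := n) (m := m) hx
  simp only [Nat.zero_lt_two, if_true]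
  omega

theorem mac_we1 {x s : ℕ} (hx : x < n) (hs : s < 2) :
    mac n m X (8 * (2 * x + s) + 1) (8 * 1 + 2) + 1 =
      18 * lx n m n + 72 * (n + m + 3) + 2 * lx n m x := by
  rw [mac, aN_e, bN_e, tN_w x s hs]
  have f1 := lx_lt (n := n) (m := m) hx
  simp only [Nat.one_lt_two, if_true, one_ne_zero, if_false]
  omega

theorem mac_we2 {x s i : ℕ} (hs : s < 2) (hi : 2 ≤ i) :
    mac n m X (8 * (2 * x + s) + 1) (8 * i + 2) =
      18 * lx n m n + 72 * (n + m + 3) + 2 * lx n m x := by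
  rw [mac, aN_e, bN_e, tN_w x s hs]
  rw [if_neg (by omega), if_neg (by omega), if_neg (by omega)]
  omega

/-! palette voters on the left -/

theorem mac_lz {i y r : ℕ} (hi : i < 2) (hy : y < n) (hr : r < 3) :
    mac n m X (8 * i + 2) (8 * (3 * y + r)) =
      20 * lx n m n + 80 * (n + m + 3) + 4 * lx n m y + 1 := by
  rw [mac, aN_z y r hr, bN_z y r hr, tN_u, if_pos hi]
  have f2 := lx_lt (n := n) (m := m) hy
  split_ifs <;> omega

theorem mac_lb {i j' : ℕ} (hi : i < 2) (hj' : j' < 3 * m) :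
    mac n m X (8 * i + 2) (8 * j' + 1) + 2 * (j' / 3) + 1 =
      16 * lx n m n + 68 * (n + m + 3) + 4 * lx n m (X j') := by
  rw [mac, aN_b, bN_b, tN_u, if_pos hi]
  omega

theorem mac_le {i i' : ℕ} (hi : i < 2) (hi' : i' < 2) :
    mac n m X (8 * i + 2) (8 * i' + 2) = 20 * lx n m n + 68 * (n + m + 3) + 1 := by
  rw [mac, aN_e, bN_e, tN_u, if_pos hi, if_pos hi']
  split_ifs <;> omega

theorem mac_le2 {i i' : ℕ} (hi : i < 2) (hi' : 2 ≤ i') :
    mac n m X (8 * i + 2) (8 * i' + 2) = 16 * lx n m n + 64 * (n + m + 3) := by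
  rw [mac, aN_e, bN_e, tN_u, if_pos hi, if_neg (by omega), if_neg (by omega), if_neg (by omega)]
  omega

/-! palette voters on the right -/

theorem mac_rz {i y : ℕ} (hi : 2 ≤ i) (hy : y < n) :
    mac n m X (8 * i + 2) (8 * (3 * y + 2)) =
      16 * lx n m n + 72 * (n + m + 3) + 4 * lx n m y + 1 := by
  rw [mac, aN_z y 2 (by omega), bN_z y 2 (by omega), tN_u, if_neg (by omega), if_pos rfl]
  have f2 := lx_lt (n := n) (m := m) hy
  omega

theorem mac_rz' {i y r : ℕ} (hi : 2 ≤ i) (hy : y < n) (hr : r < 2) :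
    mac n m X (8 * i + 2) (8 * (3 * y + r)) + (2 * y + r + 2) =
      20 * lx n m n + 72 * (n + m + 3) := by
  rw [mac, aN_z y r (by omega), bN_z y r (by omega), tN_u, if_neg (by omega), if_neg (by omega)]
  have f2 := lx_lt (n := n) (m := m) hy
  omega

theorem mac_rb {i j' : ℕ} (hi : 2 ≤ i) (hj' : j' < 3 * m) :
    mac n m X (8 * i + 2) (8 * j' + 1) + 2 * (j' / 3) + 1 =
      20 * lx n m n + 76 * (n + m + 3) + 4 * lx n m (X j') := by
  rw [mac, aN_b, bN_b, tN_u, if_neg (by omega)]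
  omega

theorem mac_re0 {i : ℕ} (hi : 2 ≤ i) :
    mac n m X (8 * i + 2) (8 * 0 + 2) = 16 * lx n m n + 60 * (n + m + 3) + 1 := by
  rw [mac, aN_e, bN_e, tN_u, if_neg (show ¬ i < 2 by omega)]
  simp only [Nat.zero_lt_two, if_true]
  omega

theorem mac_re1 {i : ℕ} (hi : 2 ≤ i) :
    mac n m X (8 * i + 2) (8 * 1 + 2) + 1 = 20 * lx n m n + 72 * (n + m + 3) := by
  rw [mac, aN_e, bN_e, tN_u, if_neg (show ¬ i < 2 by omega)]
  simp only [Nat.one_lt_two, if_true, one_ne_zero, if_false]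
  omega

theorem mac_re2 {i i' : ℕ} (hi : 2 ≤ i) (hi' : 2 ≤ i') :
    mac n m X (8 * i + 2) (8 * i' + 2) = 20 * lx n m n + 72 * (n + m + 3) := by
  rw [mac, aN_e, bN_e, tN_u, if_neg (by omega), if_neg (by omega), if_neg (by omega),
    if_neg (by omega)]
  omega

end

end Pool.Agent.Helper72.PR
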