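import Pool.Agent.Helper72.PR.BaseKey

/-!
The small parts of the distances and the main comparison.
-/

namespace Pool.Agent.Helper72.PR

section

variable (n m : ℕ) (X : ℕ → ℕ) (S : ℕ → Bool) (σ : ℕ → Bool)

/-- sign of a variable -/
def sg (x : ℕ) : ℤ := if σ x then 1 else -1

/-- sign of a literal -/
def st (j : ℕ) : ℤ := if S j then sg σ (X j) else -sg σ (X j)

/-- the literal whose sign occurs before in the clause -/
def third (j : ℕ) : Prop := (j % 3 = 1 ∧ st X S σ (j - 1) = st X S σ j) ∨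
  (j % 3 = 2 ∧ (st X S σ (j - 1) = st X S σ j ∨ st X S σ (j - 2) = st X S σ j))

instance (j : ℕ) : Decidable (third X S σ j) := by
  unfold third
  infer_instance

/-- vertical sign of an alternative -/
def sA (a : ℕ) : ℤ :=
  if a % 8 = 0 then (if a / 8 % 3 = 1 then -sg σ (a / 24) else sg σ (a / 24))
  else if a % 8 = 1 then
    (if third X S σ (a / 8) then st X S σ (a / 8) else -st X S σ (a / 8))
  else if a / 8 = 0 ∨ a / 8 = 2 then 1 else -1

/-- small shift of an alternative -/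
def muA (a : ℕ) : ℤ :=
  if a % 8 = 0 then (16 * ((a / 24 : ℕ) : ℤ) + 24) * ((a / 8 % 3 : ℕ) : ℤ)
  else if a % 8 = 1 then (16 * ((X (a / 8) : ℕ) : ℤ) + 24) * ((lr S (a / 8) : ℕ) : ℤ) -
    (if third X S σ (a / 8) then 1 else 3)
  else if a / 8 = 3 then -(16 * (n : ℤ) + 40) else 0

/-- small horizontal shift of a voter -/
def tV (v : ℕ) : ℤ := if v % 8 = 0 ∧ third X S σ (v / 8) then 1 else 0

/-- small vertical shift of a voter -/
def eV (v : ℕ) : ℤ :=
  if v % 8 = 0 then (if third X S σ (v / 8) then 0 else 2 * st X S σ (v / 8))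
  else if v % 8 = 1 then
    (if v / 8 % 2 = 0 then -(sg σ (v / 16) * (8 * ((v / 16 : ℕ) : ℤ) + 16))
      else sg σ (v / 16) * (8 * ((v / 16 : ℕ) : ℤ) + 16))
  else if v / 8 = 0 then -1 else if v / 8 = 1 then 1 else if v / 8 = 2 then 0
  else 16 * (n : ℤ) + 40

/-- which branch is active -/
def brs (v a : ℕ) : ℤ := if bN n m X a + 2 * tN n m v < aN n m a then -1 else 1

/-- the small part of the distance -/
def mic (v a : ℕ) : ℤ := brs n m X v a * tV X S σ v + muA n X S σ a - sA X S σ a * eV n X S σ v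

end

section

variable {n m : ℕ} {X : ℕ → ℕ} {S : ℕ → Bool} {σ : ℕ → Bool}

theorem sg_cases (x : ℕ) : sg σ x = 1 ∨ sg σ x = -1 := by
  unfold sg
  split_ifs <;> simp

theorem st_cases (j : ℕ) : st X S σ j = 1 ∨ st X S σ j = -1 := by
  unfold st
  rcases sg_cases (σ := σ) (X j) with h | h <;> rw [h] <;> split_ifs <;> simp

theorem sA_z (x r : ℕ) (hr : r < 3) : sA X S σ (8 * (3 * x + r)) =
    if r = 1 then -sg σ x else sg σ x := by
  have h1 : (8 * (3 * x + r)) % 8 = 0 := by omega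
  have h2 : (8 * (3 * x + r)) / 24 = x := by omega
  have h3 : (8 * (3 * x + r)) / 8 % 3 = r := by omega
  rw [sA, if_pos h1, h2, h3]

theorem sA_b (j : ℕ) : sA X S σ (8 * j + 1) =
    if third X S σ j then st X S σ j else -st X S σ j := by
  have h1 : ¬ (8 * j + 1) % 8 = 0 := by omega
  have h2 : (8 * j + 1) % 8 = 1 := by omega
  have h3 : (8 * j + 1) / 8 = j := by omega
  rw [sA, if_neg h1, if_pos h2, h3]

theorem sA_e (i : ℕ) : sA X S σ (8 * i + 2) = if i = 0 ∨ i = 2 then 1 else -1 := by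
  have h1 : ¬ (8 * i + 2) % 8 = 0 := by omega
  have h2 : ¬ (8 * i + 2) % 8 = 1 := by omega
  have h3 : (8 * i + 2) / 8 = i := by omega
  rw [sA, if_neg h1, if_neg h2, h3]

theorem muA_z (x r : ℕ) (hr : r < 3) : muA n X S σ (8 * (3 * x + r)) =
    (16 * (x : ℤ) + 24) * (r : ℤ) := by
  have h1 : (8 * (3 * x + r)) % 8 = 0 := by omega
  have h2 : (8 * (3 * x + r)) / 24 = x := by omega
  have h3 : (8 * (3 * x + r)) / 8 % 3 = r := by omega
  rw [muA, if_pos h1, h2, h3]

theorem muA_b (j : ℕ) : muA n X S σ (8 * j + 1) = (16 * ((X j : ℕ) : ℤ) + 24) *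
    ((lr S j : ℕ) : ℤ) - (if third X S σ j then 1 else 3) := by
  have h1 : ¬ (8 * j + 1) % 8 = 0 := by omega
  have h2 : (8 * j + 1) % 8 = 1 := by omega
  have h3 : (8 * j + 1) / 8 = j := by omega
  rw [muA, if_neg h1, if_pos h2, h3]

theorem muA_e (i : ℕ) : muA n X S σ (8 * i + 2) = if i = 3 then -(16 * (n : ℤ) + 40) else 0 := by
  have h1 : ¬ (8 * i + 2) % 8 = 0 := by omega
  have h2 : ¬ (8 * i + 2) % 8 = 1 := by omega
  have h3 : (8 * i + 2) / 8 = i := by omega
  rw [muA, if_neg h1, if_neg h2, h3]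

theorem tV_v (j : ℕ) : tV X S σ (8 * j) = if third X S σ j then 1 else 0 := by
  have h1 : (8 * j) % 8 = 0 := by omega
  have h3 : (8 * j) / 8 = j := by omega
  rw [tV, h3]
  simp [h1]

theorem tV_ne {v : ℕ} (h : v % 8 ≠ 0) : tV X S σ v = 0 := by
  rw [tV, if_neg (fun h' => h h'.1)]

theorem eV_v (j : ℕ) : eV n X S σ (8 * j) = if third X S σ j then 0 else 2 * st X S σ j := by
  have h1 : (8 * j) % 8 = 0 := by omega
  have h3 : (8 * j) / 8 = j := by omega
  rw [eV, if_pos h1, h3]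

theorem eV_w (x r : ℕ) (hr : r < 2) : eV n X S σ (8 * (2 * x + r) + 1) =
    if r = 0 then -(sg σ x * (8 * (x : ℤ) + 16)) else sg σ x * (8 * (x : ℤ) + 16) := by
  have h1 : ¬ (8 * (2 * x + r) + 1) % 8 = 0 := by omega
  have h2 : (8 * (2 * x + r) + 1) % 8 = 1 := by omega
  have h3 : (8 * (2 * x + r) + 1) / 16 = x := by omega
  have h4 : (8 * (2 * x + r) + 1) / 8 % 2 = r := by omega
  rw [eV, if_neg h1, if_pos h2, h3, h4]

theorem eV_u (i : ℕ) : eV n X S σ (8 * i + 2) =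
    if i = 0 then -1 else if i = 1 then 1 else if i = 2 then 0 else 16 * (n : ℤ) + 40 := by
  have h1 : ¬ (8 * i + 2) % 8 = 0 := by omega
  have h2 : ¬ (8 * i + 2) % 8 = 1 := by omega
  have h3 : (8 * i + 2) / 8 = i := by omega
  rw [eV, if_neg h1, if_neg h2, h3]

/-- the signs in every clause are not all equal -/
def Good (m : ℕ) (X : ℕ → ℕ) (S : ℕ → Bool) (σ : ℕ → Bool) : Prop :=
  ∀ C < m, ¬ (st X S σ (3 * C) = st X S σ (3 * C + 1) ∧
    st X S σ (3 * C + 1) = st X S σ (3 * C + 2))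

/-- the comparison of two alternatives in the same class -/
def Cmp (n m : ℕ) (X : ℕ → ℕ) (S : ℕ → Bool) (σ : ℕ → Bool) (v a b : ℕ) : Prop :=
  mac n m X v a = mac n m X v b →
    (rN S v a < rN S v b ∧ (Good m X S σ → mic n m X S σ v a < mic n m X S σ v b)) ∨
    (rN S v b < rN S v a ∧ (Good m X S σ → mic n m X S σ v b < mic n m X S σ v a))

theorem Cmp.symm {v a b : ℕ} (h : Cmp n m X S σ v a b) : Cmp n m X S σ v b a :=
  fun h' => (h h'.symm).symm

/-! ### voters of clauses -/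

theorem brs_vz {j x r : ℕ} (hj : j < 3 * m) (hx : x < n) (hr : r < 3) :
    brs n m X (8 * j) (8 * (3 * x + r)) = -1 := by
  rw [brs, aN_z x r hr, bN_z x r hr, tN_v, if_pos]
  have f1 := lx_lt (n := n) (m := m) hx
  split_ifs <;> omega

theorem brs_b {v j' : ℕ} : brs n m X v (8 * j' + 1) = 1 := by
  rw [brs, aN_b, if_neg (by omega)]

theorem brs_e {v i : ℕ} (hi : 2 ≤ i) : brs n m X v (8 * i + 2) = 1 := by
  rw [brs, aN_e, if_neg (show ¬ i < 2 by omega), if_neg (by omega)]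

theorem sA_cases (a : ℕ) : sA X S σ a = 1 ∨ sA X S σ a = -1 := by
  unfold sA
  rcases sg_cases (σ := σ) (a / 24) with h | h <;>
  rcases st_cases (X := X) (S := S) (σ := σ) (a / 8) with h' | h' <;>
  rw [h, h'] <;> split_ifs <;> simp

theorem mic_zz' {v x r r' : ℕ} {e : ℤ} (hr : r < 3) (hr' : r' < 3) (hlt : r < r')
    (hb : brs n m X v (8 * (3 * x + r)) = brs n m X v (8 * (3 * x + r')))
    (h1 : eV n X S σ v ≤ e) (h2 : -e ≤ eV n X S σ v) :
    mic n m X S σ v (8 * (3 * x + r)) + (16 * (x : ℤ) + 24) ≤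
      mic n m X S σ v (8 * (3 * x + r')) + 2 * e := by
  rw [mic, mic, hb, muA_z x r hr, muA_z x r' hr']
  have h3 : (16 * (x : ℤ) + 24) * (r : ℤ) + (16 * (x : ℤ) + 24) ≤
      (16 * (x : ℤ) + 24) * (r' : ℤ) := by
    have : (16 * (x : ℤ) + 24) * (r : ℤ) + (16 * (x : ℤ) + 24) =
      (16 * (x : ℤ) + 24) * ((r : ℤ) + 1) := by ring
    rw [this]
    apply mul_le_mul_of_nonneg_left
    · exact_mod_cast hlt
    · positivity
  rcases sA_cases (X := X) (S := S) (σ := σ) (8 * (3 * x + r)) with h4 | h4 <;>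
  rcases sA_cases (X := X) (S := S) (σ := σ) (8 * (3 * x + r')) with h5 | h5 <;>
  rw [h4, h5] <;> linarith

theorem mic_zz {v x r r' : ℕ} (hr : r < 3) (hr' : r' < 3) (hlt : r < r')
    (hb : brs n m X v (8 * (3 * x + r)) = brs n m X v (8 * (3 * x + r')))
    (h1 : eV n X S σ v < 8 * (x : ℤ) + 12) (h2 : -(8 * (x : ℤ) + 12) < eV n X S σ v) :
    mic n m X S σ v (8 * (3 * x + r)) < mic n m X S σ v (8 * (3 * x + r')) := by
  have := mic_zz' (S := S) (σ := σ) (e := 8 * (x : ℤ) + 11) hr hr' hlt hb (by linarith)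
    (by linarith)
  linarith

theorem rN_z' {v x r : ℕ} (hr : r < 3) (h1 : v ≠ 16 * x + 1) (h2 : v ≠ 16 * x + 9) :
    rN S v (8 * (3 * x + r)) = 3 * r := by
  rw [rN_z _ _ _ hr, if_neg h1, if_neg h2]
  interval_cases r <;> rfl

theorem cmp_zz {v x r r' : ℕ} (hr : r < 3) (hr' : r' < 3) (hne : r ≠ r')
    (hb : brs n m X v (8 * (3 * x + r)) = brs n m X v (8 * (3 * x + r')))
    (h1 : eV n X S σ v < 8 * (x : ℤ) + 12) (h2 : -(8 * (x : ℤ) + 12) < eV n X S σ v)
    (h3 : v ≠ 16 * x + 1) (h4 : v ≠ 16 * x + 9) :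
    Cmp n m X S σ v (8 * (3 * x + r)) (8 * (3 * x + r')) := by
  intro _
  rw [rN_z' hr h3 h4, rN_z' hr' h3 h4]
  rcases Nat.lt_or_gt_of_ne hne with h | h
  · left
    exact ⟨by omega, fun _ => mic_zz hr hr' h hb h1 h2⟩
  · right
    exact ⟨by omega, fun _ => mic_zz hr' hr h hb.symm h1 h2⟩

theorem eV_v_bound (j : ℕ) : -2 ≤ eV n X S σ (8 * j) ∧ eV n X S σ (8 * j) ≤ 2 := by
  rw [eV_v]
  rcases st_cases (X := X) (S := S) (σ := σ) j with h1 | h1 <;> rw [h1] <;> split_ifs <;>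
    constructor <;> norm_num

theorem cmp_vzz {j x r x' r' : ℕ} (hj : j < 3 * m) (hx : x < n) (hr : r < 3) (hx' : x' < n)
    (hr' : r' < 3) (hne : 8 * (3 * x + r) ≠ 8 * (3 * x' + r')) :
    Cmp n m X S σ (8 * j) (8 * (3 * x + r)) (8 * (3 * x' + r')) := by
  intro h
  have e1 := mac_vz (X := X) hj hx hr
  have e2 := mac_vz (X := X) hj hx' hr'
  have e3 : x = x' := by
    rcases lt_trichotomy x x' with h' | h' | h'
    · have := lx_lt (n := n) (m := m) h'
      omega
    · exact h'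
    · have := lx_lt (n := n) (m := m) h'
      omega
  subst e3
  have hv1 : 8 * j ≠ 16 * x + 1 := by omega
  have hv2 : 8 * j ≠ 16 * x + 9 := by omega
  have hne' : r ≠ r' := fun e => hne (by rw [e])
  have hb := eV_v_bound (n := n) (X := X) (S := S) (σ := σ) j
  have hxz : (0 : ℤ) ≤ (x : ℤ) := by positivity
  refine cmp_zz hr hr' hne' ?_ (by linarith [hb.2]) (by linarith [hb.1]) hv1 hv2 h
  rw [brs_vz hj hx hr, brs_vz hj hx hr']

theorem third_iff0 (C : ℕ) : ¬ third X S σ (3 * C) := by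
  unfold third
  have h1 : ¬ (3 * C) % 3 = 1 := by omega
  have h2 : ¬ (3 * C) % 3 = 2 := by omega
  tauto

theorem third_iff1 (C : ℕ) : third X S σ (3 * C + 1) ↔ st X S σ (3 * C) = st X S σ (3 * C + 1) := by
  unfold third
  have h1 : (3 * C + 1) % 3 = 1 := by omega
  have h2 : ¬ (3 * C + 1) % 3 = 2 := by omega
  have h3 : 3 * C + 1 - 1 = 3 * C := by omega
  rw [h3]
  tauto

theorem third_iff2 (C : ℕ) : third X S σ (3 * C + 2) ↔
    (st X S σ (3 * C + 1) = st X S σ (3 * C + 2) ∨ st X S σ (3 * C) = st X S σ (3 * C + 2)) := by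
  unfold third
  have h1 : ¬ (3 * C + 2) % 3 = 1 := by omega
  have h2 : (3 * C + 2) % 3 = 2 := by omega
  have h3 : 3 * C + 2 - 1 = 3 * C + 1 := by omega
  have h4 : 3 * C + 2 - 2 = 3 * C := by omega
  rw [h3, h4]
  tauto

theorem third_facts (hg : Good m X S σ) {j j' : ℕ} (hj : j < 3 * m) (hC : j / 3 = j' / 3)
    (hne : j ≠ j') : ¬ (third X S σ j ∧ third X S σ j') ∧
      (¬ third X S σ j → ¬ third X S σ j' → st X S σ j' = - st X S σ j) := by
  obtain ⟨C, hC0⟩ : ∃ C, C = j / 3 := ⟨_, rfl⟩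
  have hgC := hg C (by omega)
  have hj1 : j = 3 * C ∨ j = 3 * C + 1 ∨ j = 3 * C + 2 := by omega
  have hj2 : j' = 3 * C ∨ j' = 3 * C + 1 ∨ j' = 3 * C + 2 := by omega
  have a0 := third_iff0 (X := X) (S := S) (σ := σ) C
  have a1 := third_iff1 (X := X) (S := S) (σ := σ) C
  have a2 := third_iff2 (X := X) (S := S) (σ := σ) C
  have b0 := st_cases (X := X) (S := S) (σ := σ) (3 * C)
  have b1 := st_cases (X := X) (S := S) (σ := σ) (3 * C + 1)
  have b2 := st_cases (X := X) (S := S) (σ := σ) (3 * C + 2)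
  rcases hj1 with rfl | rfl | rfl <;> rcases hj2 with rfl | rfl | rfl <;>
  first
    | exact absurd rfl hne
    | (simp only [a0, a1, a2, false_and, and_false, not_false_eq_true, forall_const, true_and]
       clear a0 a1 a2
       generalize st X S σ (3 * C) = s0 at *
       generalize st X S σ (3 * C + 1) = s1 at *
       generalize st X S σ (3 * C + 2) = s2 at *
       omega)

end

end Pool.Agent.Helper72.PR
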