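import Pool.Agent.Helper72.PR.BaseStruct

/-!
The realisation of the base profile.
-/

namespace Pool.Agent.Helper72.PR

attribute [local irreducible] ord kmax

section

variable {n m : ℕ} {X : ℕ → ℕ} {S : ℕ → Bool} {σ : ℕ → Bool}

/-- scale factor -/
def MM (n : ℕ) : ℝ := 100 * (n : ℝ) + 200

/-- abscissa of an alternative -/
def xA (n m : ℕ) (X : ℕ → ℕ) (a : ℕ) : ℝ := MM n * ((aN n m a : ℝ) - (bN n m X a : ℝ))

/-- ordinate of an alternative -/
def yA (n m : ℕ) (X : ℕ → ℕ) (S σ : ℕ → Bool) (K : ℝ) (a : ℕ) : ℝ :=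
  (sA X S σ a : ℝ) * (K + MM n * ((aN n m a : ℝ) + (bN n m X a : ℝ)) + (muA n X S σ a : ℝ))

/-- abscissa of a voter -/
def xV (n m : ℕ) (X : ℕ → ℕ) (S σ : ℕ → Bool) (v : ℕ) : ℝ :=
  2 * MM n * (tN n m v : ℝ) + (tV X S σ v : ℝ)

theorem eV_bound {v : ℕ} (hv : IsVot n m v) :
    -(16 * (n : ℤ) + 40) ≤ eV n X S σ v ∧ eV n X S σ v ≤ 16 * (n : ℤ) + 40 := by
  have hn : (0 : ℤ) ≤ (n : ℤ) := by positivity
  rcases hv with ⟨j, hj, rfl⟩ | ⟨x, r, hx, hr, rfl⟩ | ⟨i, hi, rfl⟩
  · have := eV_v_bound (n := n) (X := X) (S := S) (σ := σ) j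
    constructor <;> linarith [this.1, this.2]
  · have := eV_w_bound (n := n) (X := X) (S := S) (σ := σ) (x := x) hr
    have hxn : (x : ℤ) + 1 ≤ (n : ℤ) := by exact_mod_cast hx
    constructor <;> linarith [this.1, this.2]
  · rw [eV_u]
    split_ifs <;> constructor <;> linarith

theorem tV_bound (v : ℕ) : 0 ≤ tV X S σ v ∧ tV X S σ v ≤ 1 := by
  unfold tV
  split_ifs <;> constructor <;> norm_num

theorem muA_bound (hX : ∀ j < 3 * m, X j < n) {a : ℕ} (ha : a ∈ alts n m) :
    -(16 * (n : ℤ) + 40) ≤ muA n X S σ a ∧ muA n X S σ a ≤ 32 * (n : ℤ) + 48 := by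
  have hn : (0 : ℤ) ≤ (n : ℤ) := by positivity
  rw [mem_alts] at ha
  rcases ha with ⟨x, r, hx, hr, rfl⟩ | ⟨j, hj, rfl⟩ | ⟨i, hi, rfl⟩
  · rw [muA_z x r hr]
    have hxz : (0 : ℤ) ≤ (x : ℤ) := by positivity
    have hxn : (x : ℤ) + 1 ≤ (n : ℤ) := by exact_mod_cast hx
    interval_cases r <;> constructor <;> push_cast <;> linarith
  · rw [muA_b]
    have hxz : (0 : ℤ) ≤ (X j : ℤ) := by positivity
    have hxn : (X j : ℤ) + 1 ≤ (n : ℤ) := by exact_mod_cast hX j hj
    unfold lr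
    cases S j <;> split_ifs <;> constructor <;> push_cast <;> simp at * <;> linarith
  · rw [muA_e]
    split_ifs <;> constructor <;> linarith

theorem brs_tV_bound (v a : ℕ) : -1 ≤ brs n m X v a * tV X S σ v ∧
    brs n m X v a * tV X S σ v ≤ 1 := by
  have := tV_bound (X := X) (S := S) (σ := σ) v
  unfold brs
  split_ifs <;> constructor <;> linarith [this.1, this.2]

theorem mic_bound (hX : ∀ j < 3 * m, X j < n) {v a : ℕ} (hv : IsVot n m v)
    (ha : a ∈ alts n m) :
    -(48 * (n : ℤ) + 89) ≤ mic n m X S σ v a ∧ mic n m X S σ v a ≤ 48 * (n : ℤ) + 89 := by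
  have h1 := eV_bound (X := X) (S := S) (σ := σ) hv
  have h2 := muA_bound (S := S) (σ := σ) hX ha
  have h3 := brs_tV_bound (n := n) (m := m) (X := X) (S := S) (σ := σ) v a
  have hn : (0 : ℤ) ≤ (n : ℤ) := by positivity
  unfold mic
  rcases sA_cases (X := X) (S := S) (σ := σ) a with h | h <;> rw [h] <;> constructor <;>
    linarith [h1.1, h1.2, h2.1, h2.2, h3.1, h3.2]

/-- the distance -/
theorem dist_eq (hX : ∀ j < 3 * m, X j < n) {v a : ℕ} (hv : IsVot n m v)
    (ha : a ∈ alts n m) {K : ℝ} (hK : MM n ≤ K) :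
    |xV n m X S σ v - xA n m X a| + |(eV n X S σ v : ℝ) - yA n m X S σ K a| =
      K + (2 * MM n * (mac n m X v a : ℝ) + (mic n m X S σ v a : ℝ)) := by
  have h1 := eV_bound (X := X) (S := S) (σ := σ) hv
  have h2 := muA_bound (S := S) (σ := σ) hX ha
  have h3 := tV_bound (X := X) (S := S) (σ := σ) v
  have hn : (0 : ℝ) ≤ (n : ℝ) := by positivity
  have hM : 200 ≤ MM n := by unfold MM; linarith
  have e1 : (-(16 * (n : ℝ) + 40)) ≤ (eV n X S σ v : ℝ) := by exact_mod_cast h1.1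
  have e2 : (eV n X S σ v : ℝ) ≤ 16 * (n : ℝ) + 40 := by exact_mod_cast h1.2
  have e3 : (-(16 * (n : ℝ) + 40)) ≤ (muA n X S σ a : ℝ) := by exact_mod_cast h2.1
  have e4 : (0 : ℝ) ≤ (tV X S σ v : ℝ) := by exact_mod_cast h3.1
  have e5 : (tV X S σ v : ℝ) ≤ 1 := by exact_mod_cast h3.2
  have ha0 : (0 : ℝ) ≤ (aN n m a : ℝ) := by positivity
  have hb0 : (0 : ℝ) ≤ (bN n m X a : ℝ) := by positivity
  have hP0 : 0 ≤ MM n * ((aN n m a : ℝ) + (bN n m X a : ℝ)) := by positivity
  -- vertical part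
  have hy : |(eV n X S σ v : ℝ) - yA n m X S σ K a| =
      K + MM n * ((aN n m a : ℝ) + (bN n m X a : ℝ)) + (muA n X S σ a : ℝ) -
      (sA X S σ a : ℝ) * (eV n X S σ v : ℝ) := by
    unfold yA
    have hMn : MM n = 100 * (n : ℝ) + 200 := rfl
    rcases sA_cases (X := X) (S := S) (σ := σ) a with h | h
    · rw [h, abs_of_nonpos]
      · push_cast; ring
      · push_cast; linarith
    · rw [h, abs_of_nonneg]
      · push_cast; ring
      · push_cast; linarith
  rw [hy]
  -- horizontal part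
  have hx : |xV n m X S σ v - xA n m X a| + MM n * ((aN n m a : ℝ) + (bN n m X a : ℝ)) =
      2 * MM n * (mac n m X v a : ℝ) + (brs n m X v a : ℝ) * (tV X S σ v : ℝ) := by
    unfold xV xA brs
    split_ifs with hlt
    · have hmac : (mac n m X v a : ℝ) = (aN n m a : ℝ) - (tN n m v : ℝ) := by
        have : mac n m X v a + tN n m v = aN n m a := by
          unfold mac
          omega
        rw [← this]
        push_cast
        ring
      have hlt' : (bN n m X a : ℝ) + 2 * (tN n m v : ℝ) + 1 ≤ (aN n m a : ℝ) := by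
        exact_mod_cast hlt
      have hprod : MM n * ((bN n m X a : ℝ) + 2 * (tN n m v : ℝ) + 1) ≤ MM n * (aN n m a : ℝ) :=
        mul_le_mul_of_nonneg_left hlt' (by linarith)
      rw [hmac, abs_of_nonpos]
      · push_cast; ring
      · linarith
    · have hmac : (mac n m X v a : ℝ) = (bN n m X a : ℝ) + (tN n m v : ℝ) := by
        have : mac n m X v a = bN n m X a + tN n m v := by
          unfold mac
          omega
        rw [this]
        push_cast
        ring
      have hlt' : (aN n m a : ℝ) ≤ (bN n m X a : ℝ) + 2 * (tN n m v : ℝ) := by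
        exact_mod_cast (not_lt.1 hlt)
      have hprod : MM n * (aN n m a : ℝ) ≤ MM n * ((bN n m X a : ℝ) + 2 * (tN n m v : ℝ)) :=
        mul_le_mul_of_nonneg_left hlt' (by linarith)
      rw [hmac, abs_of_nonneg]
      · push_cast; ring
      · linarith
  have hmic : (mic n m X S σ v a : ℝ) = (brs n m X v a : ℝ) * (tV X S σ v : ℝ) +
      (muA n X S σ a : ℝ) - (sA X S σ a : ℝ) * (eV n X S σ v : ℝ) := by
    unfold mic
    push_cast
    ring
  rw [hmic]
  linarith

theorem key_cmp (hg : Good m X S σ) (hd : Dis m X) (hX : ∀ j < 3 * m, X j < n) {v a b : ℕ}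
    (hv : IsVot n m v) (ha : a ∈ alts n m) (hb : b ∈ alts n m)
    (h : key n m X S v a < key n m X S v b) :
    2 * MM n * (mac n m X v a : ℝ) + (mic n m X S σ v a : ℝ) <
      2 * MM n * (mac n m X v b : ℝ) + (mic n m X S σ v b : ℝ) := by
  have h1 := rN_lt (S := S) v a
  have h2 := rN_lt (S := S) v b
  have hne : a ≠ b := fun e => by rw [e] at h; exact lt_irrefl _ h
  unfold key at h
  rcases Nat.lt_or_ge (mac n m X v a) (mac n m X v b) with h3 | h3
  · have h4 := (mic_bound (S := S) (σ := σ) hX hv ha).2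
    have h5 := (mic_bound (S := S) (σ := σ) hX hv hb).1
    have h6 : (mic n m X S σ v a : ℝ) ≤ 48 * (n : ℝ) + 89 := by exact_mod_cast h4
    have h7 : (-(48 * (n : ℝ) + 89)) ≤ (mic n m X S σ v b : ℝ) := by exact_mod_cast h5
    have hn : (0 : ℝ) ≤ (n : ℝ) := by positivity
    have hMn : MM n = 100 * (n : ℝ) + 200 := rfl
    have h8 : (mac n m X v a : ℝ) + 1 ≤ (mac n m X v b : ℝ) := by exact_mod_cast h3
    have h9 : MM n * ((mac n m X v a : ℝ) + 1) ≤ MM n * (mac n m X v b : ℝ) :=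
      mul_le_mul_of_nonneg_left h8 (by linarith)
    linarith
  · have h4 : mac n m X v a = mac n m X v b := by omega
    have h5 := cmp_all (S := S) (σ := σ) hd hX hv ha hb hne h4
    have h6 : mic n m X S σ v a < mic n m X S σ v b := by
      rcases h5 with h5 | h5
      · exact h5.2 hg
      · omega
    have h7 : (mic n m X S σ v a : ℝ) < (mic n m X S σ v b : ℝ) := by exact_mod_cast h6
    rw [h4]
    linarith

theorem base_real1 (hg : Good m X S σ) (hd : Dis m X) (hX : ∀ j < 3 * m, X j < n) :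
    RealBy (D1 2) (base n m X S).2.1 := by
  refine ⟨fun a => ![xA n m X a, yA n m X S σ (MM n) a], ?_⟩
  intro w hw
  obtain ⟨v, hv, rfl⟩ := of_mem_baseV hw
  refine ⟨![xV n m X S σ v, (eV n X S σ v : ℝ)], ?_⟩
  apply pairwise_ord (key_inj hd hX hv)
  intro a ha b hb h
  have h1 := dist_eq (S := S) (σ := σ) hX hv ha (le_refl (MM n))
  have h2 := dist_eq (S := S) (σ := σ) hX hv hb (le_refl (MM n))
  have h3 := key_cmp hg hd hX hv ha hb h
  unfold D1
  rw [Fin.sum_univ_two, Fin.sum_univ_two]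
  simp only [Matrix.cons_val_zero, Matrix.cons_val_one, Matrix.cons_val_fin_one]
  linarith

theorem max_abs (s t : ℝ) : max |s + t| |s - t| = |s| + |t| := by
  rcases le_total 0 s with hs | hs <;> rcases le_total 0 t with ht | ht
  · rw [abs_of_nonneg hs, abs_of_nonneg ht, abs_of_nonneg (by linarith : 0 ≤ s + t), max_eq_left]
    rw [abs_le]; constructor <;> linarith
  · rw [abs_of_nonneg hs, abs_of_nonpos ht, abs_of_nonneg (by linarith : 0 ≤ s - t), max_eq_right]
    · ring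
    · rw [abs_le]; constructor <;> linarith
  · rw [abs_of_nonpos hs, abs_of_nonneg ht, abs_of_nonpos (by linarith : s - t ≤ 0), max_eq_right]
    · ring
    · rw [abs_le]; constructor <;> linarith
  · rw [abs_of_nonpos hs, abs_of_nonpos ht, abs_of_nonpos (by linarith : s + t ≤ 0), max_eq_left]
    · ring
    · rw [abs_le]; constructor <;> linarith

theorem dist_two (x y x' y' : ℝ) : dist (![x + y, x - y] : Fin 2 → ℝ) ![x' + y', x' - y'] =
    |x - x'| + |y - y'| := by
  rw [← max_abs]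
  apply le_antisymm
  · rw [dist_pi_le_iff (le_max_of_le_left (abs_nonneg _))]
    intro i
    fin_cases i
    · simp only [Fin.zero_eta, Matrix.cons_val_zero, Real.dist_eq]
      refine le_trans (le_of_eq ?_) (le_max_left _ _)
      congr 1
      ring
    · simp only [Fin.mk_one, Matrix.cons_val_one, Matrix.cons_val_fin_one, Real.dist_eq]
      refine le_trans (le_of_eq ?_) (le_max_right _ _)
      congr 1
      ring
  · apply max_le
    · have := dist_le_pi_dist (![x + y, x - y] : Fin 2 → ℝ) ![x' + y', x' - y'] 0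
      simp only [Matrix.cons_val_zero, Real.dist_eq] at this
      refine le_trans (le_of_eq ?_) this
      congr 1
      ring
    · have := dist_le_pi_dist (![x + y, x - y] : Fin 2 → ℝ) ![x' + y', x' - y'] 1
      simp only [Matrix.cons_val_one, Matrix.cons_val_fin_one, Real.dist_eq] at this
      refine le_trans (le_of_eq ?_) this
      congr 1
      ring

theorem mac_le_bound (hX : ∀ j < 3 * m, X j < n) {v a : ℕ} (hv : IsVot n m v)
    (ha : a ∈ alts n m) : mac n m X v a ≤ 24 * lx n m n + 80 * (n + m + 3) + 1 := by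
  have h1 := tN_le hv
  have h2 := aN_le ha
  have h3 := bN_le hX ha
  unfold mac
  omega

theorem base_FR (hg : Good m X S σ) (hd : Dis m X) (hX : ∀ j < 3 * m, X j < n) :
    FR 2 (base n m X S) := by
  have hn : (0 : ℝ) ≤ (n : ℝ) := by positivity
  have hMn : MM n = 100 * (n : ℝ) + 200 := rfl
  have hL : (0 : ℝ) ≤ ((24 * lx n m n + 80 * (n + m + 3) + 1 : ℕ) : ℝ) := by positivity
  have hM0 : 0 ≤ MM n := by linarith
  have hL' : (0 : ℝ) ≤ ((4 * lx n m n + 8 * (n + m + 3) : ℕ) : ℝ) := by positivity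
  refine ⟨2 * MM n * ((24 * lx n m n + 80 * (n + m + 3) + 1 : ℕ) : ℝ) + 2 * MM n,
    2 * MM n * ((4 * lx n m n + 8 * (n + m + 3) : ℕ) : ℝ) + MM n,
    add_nonneg (mul_nonneg (by linarith) hL) (by linarith),
    add_nonneg (mul_nonneg (by linarith) hL') hM0, ?_⟩
  intro K₀
  have hK1 : K₀ ≤ max K₀ 0 := le_max_left _ _
  have hK2 : 0 ≤ max K₀ 0 := le_max_right _ _
  refine ⟨max K₀ 0, hK1,
    fun a => ![xA n m X a + yA n m X S σ (max K₀ 0 + MM n) a,
      xA n m X a - yA n m X S σ (max K₀ 0 + MM n) a], ?_⟩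
  intro w hw
  obtain ⟨v, hv, rfl⟩ := of_mem_baseV hw
  have hev := eV_bound (X := X) (S := S) (σ := σ) hv
  have e1 : (-(16 * (n : ℝ) + 40)) ≤ (eV n X S σ v : ℝ) := by exact_mod_cast hev.1
  have e2 : (eV n X S σ v : ℝ) ≤ 16 * (n : ℝ) + 40 := by exact_mod_cast hev.2
  have htv := tV_bound (X := X) (S := S) (σ := σ) v
  have e4 : (0 : ℝ) ≤ (tV X S σ v : ℝ) := by exact_mod_cast htv.1
  have e5 : (tV X S σ v : ℝ) ≤ 1 := by exact_mod_cast htv.2
  have hK3 : MM n ≤ max K₀ 0 + MM n := by linarith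
  refine ⟨![xV n m X S σ v + (eV n X S σ v : ℝ), xV n m X S σ v - (eV n X S σ v : ℝ)], ?_, ?_, ?_⟩
  · have h0 : (0 : Fin 2 → ℝ) = ![0 + 0, 0 - 0] := by
      funext i
      fin_cases i <;> simp
    rw [h0, dist_two, sub_zero, sub_zero]
    have ht : (tN n m v : ℝ) ≤ ((4 * lx n m n + 8 * (n + m + 3) : ℕ) : ℝ) := by
      exact_mod_cast tN_le hv
    have ht0 : (0 : ℝ) ≤ (tN n m v : ℝ) := by positivity
    have hprod : 2 * MM n * (tN n m v : ℝ) ≤
        2 * MM n * ((4 * lx n m n + 8 * (n + m + 3) : ℕ) : ℝ) :=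
      mul_le_mul_of_nonneg_left ht (by linarith)
    have hprod0 : 0 ≤ 2 * MM n * (tN n m v : ℝ) := mul_nonneg (by linarith) ht0
    have a1 : |xV n m X S σ v| = xV n m X S σ v := by
      apply abs_of_nonneg
      unfold xV
      linarith
    have a2 : |(eV n X S σ v : ℝ)| ≤ 16 * (n : ℝ) + 40 := abs_le.2 ⟨e1, e2⟩
    rw [a1]
    unfold xV
    linarith
  · intro a ha
    rw [dist_two, dist_eq (S := S) (σ := σ) hX hv ha hK3]
    have h4 := mic_bound (S := S) (σ := σ) hX hv ha
    have h6 : (mic n m X S σ v a : ℝ) ≤ 48 * (n : ℝ) + 89 := by exact_mod_cast h4.2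
    have h7 : (-(48 * (n : ℝ) + 89)) ≤ (mic n m X S σ v a : ℝ) := by exact_mod_cast h4.1
    have h8 : (mac n m X v a : ℝ) ≤ ((24 * lx n m n + 80 * (n + m + 3) + 1 : ℕ) : ℝ) := by
      exact_mod_cast mac_le_bound hX hv ha
    have h9 : 2 * MM n * (mac n m X v a : ℝ) ≤
        2 * MM n * ((24 * lx n m n + 80 * (n + m + 3) + 1 : ℕ) : ℝ) :=
      mul_le_mul_of_nonneg_left h8 (by linarith)
    have h10 : 0 ≤ 2 * MM n * (mac n m X v a : ℝ) := mul_nonneg (by linarith) (Nat.cast_nonneg _)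
    constructor <;> linarith
  · apply pairwise_ord (key_inj hd hX hv)
    intro a ha b hb h
    have h3 := key_cmp hg hd hX hv ha hb h
    rw [dist_two, dist_two, dist_eq (S := S) (σ := σ) hX hv ha hK3,
      dist_eq (S := S) (σ := σ) hX hv hb hK3]
    linarith

end

end Pool.Agent.Helper72.PR
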