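import Pool.Agent.Helper72.PR.BaseCmp3

/-!
The base profile is well formed and has the required structure.
-/

namespace Pool.Agent.Helper72.PR

attribute [local irreducible] ord kmax

section

variable {n m : ℕ} {X : ℕ → ℕ} {S : ℕ → Bool}

theorem tN_le {v : ℕ} (hv : IsVot n m v) : tN n m v ≤ 4 * lx n m n + 8 * (n + m + 3) := by
  rcases hv with ⟨j, hj, rfl⟩ | ⟨x, r, hx, hr, rfl⟩ | ⟨i, hi, rfl⟩
  · rw [tN_v]
    omega
  · rw [tN_w x r hr]
    have := lx_lt (n := n) (m := m) hx
    omega
  · rw [tN_u]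
    split_ifs <;> omega

theorem aN_le {a : ℕ} (ha : a ∈ alts n m) : aN n m a ≤ 24 * lx n m n + 80 * (n + m + 3) + 1 := by
  rw [mem_alts] at ha
  rcases ha with ⟨x, r, hx, hr, rfl⟩ | ⟨j, hj, rfl⟩ | ⟨i, hi, rfl⟩
  · rw [aN_z x r hr]
    have := lx_lt (n := n) (m := m) hx
    omega
  · rw [aN_b]
    omega
  · rw [aN_e]
    split_ifs <;> omega

theorem bN_le (hX : ∀ j < 3 * m, X j < n) {a : ℕ} (ha : a ∈ alts n m) :
    bN n m X a ≤ 20 * lx n m n + 68 * (n + m + 3) := by
  rw [mem_alts] at ha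
  rcases ha with ⟨x, r, hx, hr, rfl⟩ | ⟨j, hj, rfl⟩ | ⟨i, hi, rfl⟩
  · rw [bN_z x r hr]
    split_ifs <;> omega
  · rw [bN_b]
    have := lx_lt (n := n) (m := m) (hX j hj)
    omega
  · rw [bN_e]
    split_ifs <;> omega

theorem key_lt (hX : ∀ j < 3 * m, X j < n) {v a : ℕ} (hv : IsVot n m v) (ha : a ∈ alts n m) :
    key n m X S v a < kmax n m := by
  have h1 := tN_le hv
  have h2 := aN_le ha
  have h3 := bN_le hX ha
  have h4 := rN_lt (S := S) v a
  unfold key mac kmax
  omega

theorem key_inj (hd : Dis m X) (hX : ∀ j < 3 * m, X j < n) {v : ℕ} (hv : IsVot n m v) :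
    ∀ a ∈ alts n m, ∀ b ∈ alts n m, key n m X S v a = key n m X S v b → a = b := by
  intro a ha b hb h
  by_contra hne
  have h1 := rN_lt (S := S) v a
  have h2 := rN_lt (S := S) v b
  unfold key at h
  have h3 := cmp_all (S := S) (σ := fun _ => true) hd hX hv ha hb hne (by omega)
  omega

theorem key_of_mac {v a b : ℕ} (h : mac n m X v a < mac n m X v b) :
    key n m X S v a < key n m X S v b := by
  have h1 := rN_lt (S := S) v a
  unfold key
  omega

theorem key_of_rank {v a b : ℕ} (h : mac n m X v a = mac n m X v b)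
    (h' : rN S v a < rN S v b) : key n m X S v a < key n m X S v b := by
  unfold key
  omega

theorem base_WF (hd : Dis m X) (hX : ∀ j < 3 * m, X j < n) : WF (base n m X S) := by
  have hperm : ∀ v, IsVot n m v → (ord n m X S v).Perm (alts n m) := fun v hv =>
    perm_ord (fun a ha => key_lt hX hv ha) (key_inj hd hX hv)
  constructor
  · exact nodup_alts
  · intro v hv
    change v ∈ (List.range (3 * m)).map (fun j => ord n m X S (8 * j)) ++
      ((List.range (2 * n)).map (fun i => ord n m X S (8 * i + 1)) ++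
      [ord n m X S 2, ord n m X S 10, ord n m X S 18, ord n m X S 26]) at hv
    change v.Perm (alts n m)
    rw [List.mem_append, List.mem_append, List.mem_map, List.mem_map] at hv
    simp only [List.mem_range, List.mem_cons, List.not_mem_nil, or_false] at hv
    rcases hv with ⟨j, hj, rfl⟩ | ⟨i, hi, rfl⟩ | rfl | rfl | rfl | rfl
    · exact hperm _ (Or.inl ⟨j, hj, rfl⟩)
    · exact hperm _ (Or.inr (Or.inl ⟨i / 2, i % 2, by omega, by omega, by omega⟩))
    · exact hperm _ (Or.inr (Or.inr ⟨0, by omega, by omega⟩))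
    · exact hperm _ (Or.inr (Or.inr ⟨1, by omega, by omega⟩))
    · exact hperm _ (Or.inr (Or.inr ⟨2, by omega, by omega⟩))
    · exact hperm _ (Or.inr (Or.inr ⟨3, by omega, by omega⟩))

theorem mem_baseV {v : ℕ} (hv : IsVot n m v) : ord n m X S v ∈ (base n m X S).2.1 := by
  change ord n m X S v ∈ (List.range (3 * m)).map (fun j => ord n m X S (8 * j)) ++
      ((List.range (2 * n)).map (fun i => ord n m X S (8 * i + 1)) ++
      [ord n m X S 2, ord n m X S 10, ord n m X S 18, ord n m X S 26])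
  rw [List.mem_append, List.mem_append]
  rcases hv with ⟨j, hj, rfl⟩ | ⟨x, r, hx, hr, rfl⟩ | ⟨i, hi, rfl⟩
  · left
    exact List.mem_map.2 ⟨j, List.mem_range.2 hj, rfl⟩
  · right; left
    exact List.mem_map.2 ⟨2 * x + r, List.mem_range.2 (by omega), rfl⟩
  · right; right
    interval_cases i <;> simp

theorem of_mem_baseV {w : List ℕ} (hw : w ∈ (base n m X S).2.1) :
    ∃ v, IsVot n m v ∧ w = ord n m X S v := by
  change w ∈ (List.range (3 * m)).map (fun j => ord n m X S (8 * j)) ++
      ((List.range (2 * n)).map (fun i => ord n m X S (8 * i + 1)) ++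
      [ord n m X S 2, ord n m X S 10, ord n m X S 18, ord n m X S 26]) at hw
  rw [List.mem_append, List.mem_append, List.mem_map, List.mem_map] at hw
  simp only [List.mem_range, List.mem_cons, List.not_mem_nil, or_false] at hw
  rcases hw with ⟨j, hj, rfl⟩ | ⟨i, hi, rfl⟩ | rfl | rfl | rfl | rfl
  · exact ⟨_, Or.inl ⟨j, hj, rfl⟩, rfl⟩
  · exact ⟨_, Or.inr (Or.inl ⟨i / 2, i % 2, by omega, by omega, by omega⟩), rfl⟩
  · exact ⟨_, Or.inr (Or.inr ⟨0, by omega, by omega⟩), rfl⟩
  · exact ⟨_, Or.inr (Or.inr ⟨1, by omega, by omega⟩), rfl⟩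
  · exact ⟨_, Or.inr (Or.inr ⟨2, by omega, by omega⟩), rfl⟩
  · exact ⟨_, Or.inr (Or.inr ⟨3, by omega, by omega⟩), rfl⟩

theorem mem_baseP {π : List ℕ × ℕ} : π ∈ (base n m X S).2.2 ↔
    ∃ i < 4, π = (ord n m X S (8 * i + 2), 8 * i + 2) := by
  change π ∈ [(ord n m X S 2, 2), (ord n m X S 10, 10), (ord n m X S 18, 18),
    (ord n m X S 26, 26)] ↔ _
  simp only [List.mem_cons, List.not_mem_nil, or_false]
  constructor
  · rintro (rfl | rfl | rfl | rfl)
    · exact ⟨0, by omega, rfl⟩
    · exact ⟨1, by omega, rfl⟩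
    · exact ⟨2, by omega, rfl⟩
    · exact ⟨3, by omega, rfl⟩
  · rintro ⟨i, hi, rfl⟩
    interval_cases i <;> simp

theorem isVot_v {j : ℕ} (hj : j < 3 * m) : IsVot n m (8 * j) := Or.inl ⟨j, hj, rfl⟩
theorem isVot_w {x r : ℕ} (hx : x < n) (hr : r < 2) : IsVot n m (8 * (2 * x + r) + 1) :=
  Or.inr (Or.inl ⟨x, r, hx, hr, rfl⟩)
theorem isVot_u {i : ℕ} (hi : i < 4) : IsVot n m (8 * i + 2) := Or.inr (Or.inr ⟨i, hi, rfl⟩)
theorem alts_z {x r : ℕ} (hx : x < n) (hr : r < 3) : 8 * (3 * x + r) ∈ alts n m :=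
  mem_alts.2 (Or.inl ⟨x, r, hx, hr, rfl⟩)
theorem alts_b {j : ℕ} (hj : j < 3 * m) : 8 * j + 1 ∈ alts n m :=
  mem_alts.2 (Or.inr (Or.inl ⟨j, hj, rfl⟩))
theorem alts_e {i : ℕ} (hi : i < 4) : 8 * i + 2 ∈ alts n m :=
  mem_alts.2 (Or.inr (Or.inr ⟨i, hi, rfl⟩))

/-- keys of the palette -/
theorem key_palC {i i' : ℕ} (hi : i < 4) (hi' : i' < 4) (hne : i ≠ i') :
    key n m X S (8 * i + 2) (8 * i' + 2) < key n m X S (8 * i + 2) (8 * i + 2) := by
  rcases Nat.lt_or_ge i 2 with h | h
  · rcases Nat.lt_or_ge i' 2 with h' | h'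
    · apply key_of_rank
      · rw [mac_le h h', mac_le h h]
      · rw [rN_e, rN_e]
        interval_cases i <;> interval_cases i' <;> first | exact absurd rfl hne | norm_num
    · apply key_of_mac
      rw [mac_le h h, mac_le2 h h']
      omega
  · rcases Nat.lt_or_ge i' 2 with h' | h'
    · apply key_of_mac
      have h1 := mac_re0 (n := n) (m := m) (X := X) h
      have h2 := mac_re1 (n := n) (m := m) (X := X) h
      have h3 := mac_re2 (n := n) (m := m) (X := X) h h
      interval_cases i' <;> omega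
    · apply key_of_rank
      · rw [mac_re2 h h', mac_re2 h h]
      · rw [rN_e, rN_e]
        interval_cases i <;> interval_cases i' <;> first | exact absurd rfl hne | norm_num

theorem mac_v_e_z {j x r i : ℕ} (hj : j < 3 * m) (hx : x < n) (hr : r < 3) (hi : i < 4) :
    mac n m X (8 * j) (8 * i + 2) < mac n m X (8 * j) (8 * (3 * x + r)) := by
  have e1 := mac_vz (X := X) hj hx hr
  have he0 := mac_ve0 (n := n) (X := X) hj
  have he1 := mac_ve1 (n := n) (X := X) hj
  have he2 := mac_ve2 (n := n) (X := X) hj (le_refl 2)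
  have he3 := mac_ve2 (n := n) (X := X) hj (show 2 ≤ 3 by norm_num)
  interval_cases i <;> omega

theorem mac_v_e_b {j j' i : ℕ} (hj : j < 3 * m) (hj' : j' < 3 * m) (hi : i < 4) :
    mac n m X (8 * j) (8 * i + 2) < mac n m X (8 * j) (8 * j' + 1) := by
  have e1 := mac_vb (n := n) (X := X) hj hj'
  have he0 := mac_ve0 (n := n) (X := X) hj
  have he1 := mac_ve1 (n := n) (X := X) hj
  have he2 := mac_ve2 (n := n) (X := X) hj (le_refl 2)
  have he3 := mac_ve2 (n := n) (X := X) hj (show 2 ≤ 3 by norm_num)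
  interval_cases i <;> omega

theorem mac_u_z_e {i x r : ℕ} (hi2 : 2 ≤ i) (hx : x < n) (hr : r < 3) :
    mac n m X (8 * i + 2) (8 * (3 * x + r)) < mac n m X (8 * i + 2) (8 * i + 2) := by
  have he2 := mac_re2 (n := n) (m := m) (X := X) hi2 hi2
  have f1 := lx_lt (n := n) (m := m) hx
  rcases Nat.lt_or_ge r 2 with hr2 | hr2
  · have e1 := mac_rz' (m := m) (X := X) hi2 hx hr2
    omega
  · have : r = 2 := by omega
    subst this
    have e2 := mac_rz (m := m) (X := X) hi2 hx
    omega

theorem mac_u_b_e (hX : ∀ j < 3 * m, X j < n) {i j : ℕ} (hi2 : i < 2) (hj : j < 3 * m) :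
    mac n m X (8 * i + 2) (8 * j + 1) < mac n m X (8 * i + 2) (8 * i + 2) := by
  have he2 := mac_le (n := n) (m := m) (X := X) hi2 hi2
  have e2 := mac_lb (n := n) (X := X) hi2 hj
  have f1 := lx_lt (n := n) (m := m) (hX j hj)
  omega

theorem mac_w_e_z {x s i : ℕ} (hx : x < n) (hs : s < 2) (hi2 : 2 ≤ i) :
    mac n m X (8 * (2 * x + s) + 1) (8 * i + 2) <
      mac n m X (8 * (2 * x + s) + 1) (8 * (3 * x + s)) := by
  have he2 := mac_we2 (n := n) (m := m) (X := X) (x := x) hs hi2
  have e1 := mac_wz (m := m) (X := X) hx hs hx (show s < 3 by omega) (Or.inl (le_refl x))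
  omega

/-- the structure of the base profile -/
def base_data (hd : Dis m X) (hX : ∀ j < 3 * m, X j < n) :
    SData n m X S (base n m X S) := by
  have hpref : ∀ v, IsVot n m v → ∀ a ∈ alts n m, ∀ b ∈ alts n m,
      key n m X S v a < key n m X S v b → Pref (ord n m X S v) a b := fun v hv a ha b hb h =>
    pref_ord (fun a ha => key_lt hX hv ha) (key_inj hd hX hv) ha hb h
  have hTR01 : ∀ π ∈ (base n m X S).2.2, π ≠ (ord n m X S 2, 2) → π ≠ (ord n m X S 10, 10) →
      ∃ i, 2 ≤ i ∧ i < 4 ∧ π = (ord n m X S (8 * i + 2), 8 * i + 2) := by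
    intro π hπ h1 h2
    obtain ⟨i, hi, rfl⟩ := mem_baseP.1 hπ
    refine ⟨i, ?_, hi, rfl⟩
    by_contra h
    have : i = 0 ∨ i = 1 := by omega
    rcases this with rfl | rfl
    · exact h1 rfl
    · exact h2 rfl
  have hTR23 : ∀ π ∈ (base n m X S).2.2, π ≠ (ord n m X S 18, 18) → π ≠ (ord n m X S 26, 26) →
      ∃ i, i < 2 ∧ π = (ord n m X S (8 * i + 2), 8 * i + 2) := by
    intro π hπ h1 h2
    obtain ⟨i, hi, rfl⟩ := mem_baseP.1 hπ
    refine ⟨i, ?_, rfl⟩
    by_contra h
    have : i = 2 ∨ i = 3 := by omega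
    rcases this with rfl | rfl
    · exact h1 rfl
    · exact h2 rfl
  exact
  { pi := fun i => (ord n m X S (8 * (i : ℕ) + 2), 8 * (i : ℕ) + 2)
    vv := fun j => ord n m X S (8 * j)
    zz := fun x r => 8 * (3 * x + r)
    bb := fun j => 8 * j + 1
    ww := fun x r => ord n m X S (8 * (2 * x + r) + 1)
    nodupP := by
      apply List.Nodup.of_map Prod.snd
      change [2, 10, 18, 26].Nodup
      decide
    palV := by
      intro π hπ
      obtain ⟨i, hi, rfl⟩ := mem_baseP.1 hπ
      exact ⟨mem_baseV (isVot_u hi), alts_e hi⟩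
    palC := by
      intro π hπ π' hπ' hne
      obtain ⟨i, hi, rfl⟩ := mem_baseP.1 hπ
      obtain ⟨i', hi', rfl⟩ := mem_baseP.1 hπ'
      have h : i ≠ i' := fun e => hne (by rw [e])
      exact hpref _ (isVot_u hi) _ (alts_e hi') _ (alts_e hi) (key_palC hi hi' h)
    piP := fun i => mem_baseP.2 ⟨i, i.isLt, rfl⟩
    vvV := fun j hj => mem_baseV (isVot_v hj)
    wwV := fun x hx r hr => mem_baseV (isVot_w hx hr)
    zzA := fun x hx r hr => alts_z hx hr
    bbA := fun j hj => alts_b hj
    trz := by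
      intro j hj x hx r hr π hπ h1 h2
      obtain ⟨i, hi2, hi4, rfl⟩ := hTR01 π hπ h1 h2
      exact ⟨hpref _ (isVot_v hj) _ (alts_e hi4) _ (alts_z hx hr)
        (key_of_mac (mac_v_e_z hj hx hr hi4)), hpref _ (isVot_u hi4) _ (alts_z hx hr) _
        (alts_e hi4) (key_of_mac (mac_u_z_e hi2 hx hr))⟩
    trb := by
      intro j hj j' hj' π hπ h1 h2
      obtain ⟨i, hi2, rfl⟩ := hTR23 π hπ h1 h2
      exact ⟨hpref _ (isVot_v hj) _ (alts_e (by omega)) _ (alts_b hj')
        (key_of_mac (mac_v_e_b hj hj' (by omega))), hpref _ (isVot_u (by omega)) _ (alts_b hj') _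
        (alts_e (by omega)) (key_of_mac (mac_u_b_e hX hi2 hj'))⟩
    trw := by
      intro x hx r hr π hπ h1 h2
      obtain ⟨i, hi2, hi4, rfl⟩ := hTR01 π hπ h1 h2
      exact ⟨hpref _ (isVot_w hx hr) _ (alts_e hi4) _ (alts_z hx (by omega))
        (key_of_mac (mac_w_e_z hx hr hi2)), hpref _ (isVot_u hi4) _ (alts_z hx (by omega)) _
        (alts_e hi4) (key_of_mac (mac_u_z_e hi2 hx (by omega)))⟩
    v12 := by
      intro j hj x hx
      apply hpref _ (isVot_v hj) _ (alts_z hx (by omega)) _ (alts_z hx (by omega))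
      have e1 := mac_vz (X := X) hj hx (show 1 < 3 by norm_num)
      have e2 := mac_vz (X := X) hj hx (show 2 < 3 by norm_num)
      apply key_of_rank (by omega)
      rw [rN_z' (by omega) (by omega) (by omega), rN_z' (by omega) (by omega) (by omega)]
      norm_num
    v01 := by
      intro j hj x hx
      apply hpref _ (isVot_v hj) _ (alts_z hx (by omega)) _ (alts_z hx (by omega))
      have e1 := mac_vz (X := X) hj hx (show 0 < 3 by norm_num)
      have e2 := mac_vz (X := X) hj hx (show 1 < 3 by norm_num)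
      apply key_of_rank (by omega)
      rw [rN_z' (by omega) (by omega) (by omega), rN_z' (by omega) (by omega) (by omega)]
      norm_num
    w121 := by
      intro x hx
      apply hpref _ (isVot_w hx (by omega)) _ (alts_z hx (by omega)) _ (alts_z hx (by omega))
      have e1 := mac_wz (m := m) (X := X) hx (show 1 < 2 by norm_num) hx (show 2 < 3 by norm_num)
        (Or.inl (le_refl x))
      have e2 := mac_wz (m := m) (X := X) hx (show 1 < 2 by norm_num) hx (show 1 < 3 by norm_num)
        (Or.inl (le_refl x))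
      apply key_of_rank (by omega)
      rw [rN_z _ x 2 (by norm_num), rN_z _ x 1 (by norm_num)]
      have : 8 * (2 * x + 1) + 1 = 16 * x + 9 := by ring
      rw [this]
      simp
    w101 := by
      intro x hx
      apply hpref _ (isVot_w hx (by omega)) _ (alts_z hx (by omega)) _ (alts_z hx (by omega))
      have e1 := mac_wz (m := m) (X := X) hx (show 1 < 2 by norm_num) hx (show 0 < 3 by norm_num)
        (Or.inl (le_refl x))
      have e2 := mac_wz (m := m) (X := X) hx (show 1 < 2 by norm_num) hx (show 1 < 3 by norm_num)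
        (Or.inl (le_refl x))
      apply key_of_rank (by omega)
      rw [rN_z _ x 0 (by norm_num), rN_z _ x 1 (by norm_num)]
      have : 8 * (2 * x + 1) + 1 = 16 * x + 9 := by ring
      rw [this]
      simp
    w010 := by
      intro x hx
      apply hpref _ (isVot_w hx (by omega)) _ (alts_z hx (by omega)) _ (alts_z hx (by omega))
      have e1 := mac_wz (m := m) (X := X) hx (show 0 < 2 by norm_num) hx (show 1 < 3 by norm_num)
        (Or.inl (le_refl x))
      have e2 := mac_wz (m := m) (X := X) hx (show 0 < 2 by norm_num) hx (show 0 < 3 by norm_num)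
        (Or.inl (le_refl x))
      apply key_of_rank (by omega)
      rw [rN_z _ x 1 (by norm_num), rN_z _ x 0 (by norm_num)]
      have : 8 * (2 * x + 0) + 1 = 16 * x + 1 := by ring
      rw [this]
      simp
    own := by
      intro j hj
      apply hpref _ (isVot_v hj) _ (alts_z (hX j hj) (lr_lt j)) _ (alts_b hj)
      have e1 := mac_vz (X := X) hj (hX j hj) (lr_lt (S := S) j)
      have e2 := mac_vb (n := n) (X := X) hj hj
      apply key_of_rank (by omega)
      rw [rN_z' (lr_lt j) (by omega) (by omega), rN_b_own]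
      omega
    oth := by
      intro j hj j' hj' hC hne
      apply hpref _ (isVot_v hj) _ (alts_b hj') _ (alts_z (hX j' hj') (lr_lt j'))
      have e1 := mac_vz (X := X) hj (hX j' hj') (lr_lt (S := S) j')
      have e2 := mac_vb (n := n) (X := X) hj hj'
      apply key_of_rank (by omega)
      have e3 := rN_b_oth (S := S) (v := 8 * j) (j := j') (by omega)
      rw [rN_z' (lr_lt j') (by omega) (by omega)]
      omega }

end

end Pool.Agent.Helper72.PR
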