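import Pool.Agent.Helper72.PR.Sound

/-!
Extension of profiles by one dimension.
-/

namespace Pool.Agent.Helper72.PR

/-! ### general facts on `Pref` -/

theorem Pref.map {v : List ℕ} {a b : ℕ} (h : Pref v a b) (f : ℕ → ℕ) :
    Pref (v.map f) (f a) (f b) := by
  have := List.Sublist.map f h
  simpa [Pref] using this

theorem Pref.filter {v : List ℕ} {a b : ℕ} (h : Pref v a b) {p : ℕ → Bool} (ha : p a = true)
    (hb : p b = true) : Pref (v.filter p) a b := by
  have := List.Sublist.filter p h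
  simpa [Pref, ha, hb] using this

theorem Pref.append_left {v : List ℕ} {a b : ℕ} (h : Pref v a b) (l : List ℕ) :
    Pref (l ++ v) a b := List.Sublist.trans h (List.sublist_append_right _ _)

theorem Pref.append_right {v : List ℕ} {a b : ℕ} (h : Pref v a b) (l : List ℕ) :
    Pref (v ++ l) a b := List.Sublist.trans h (List.sublist_append_left _ _)

theorem Pref.cons' {v : List ℕ} {a b : ℕ} (h : Pref v a b) (c : ℕ) : Pref (c :: v) a b :=
  List.Sublist.trans h (List.sublist_cons_self _ _)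

theorem pref_append {v w : List ℕ} {a b : ℕ} (ha : a ∈ v) (hb : b ∈ w) : Pref (v ++ w) a b := by
  have h1 : [a].Sublist v := List.singleton_sublist.2 ha
  have h2 : [b].Sublist w := List.singleton_sublist.2 hb
  exact h1.append h2

theorem pref_cons {v : List ℕ} {a b : ℕ} (hb : b ∈ v) : Pref (a :: v) a b := by
  have h2 : [b].Sublist v := List.singleton_sublist.2 hb
  exact h2.cons_cons a

theorem Pref.ne {v : List ℕ} {a b : ℕ} (h : Pref v a b) (hv : v.Nodup) : a ≠ b := by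
  have := hv.sublist h
  simpa using this

/-- well-formed profiles -/
def WF (Q : Prof) : Prop := Q.1.Nodup ∧ ∀ v ∈ Q.2.1, v.Perm Q.1

theorem SData.nodup_snd {n m : ℕ} {X : ℕ → ℕ} {S : ℕ → Bool} {Q : Prof}
    (s : SData n m X S Q) (hQ : WF Q) : (Q.2.2.map Prod.snd).Nodup := by
  refine List.Nodup.map_on ?_ s.nodupP
  intro π hπ π' hπ' h
  by_contra hne
  have h1 := s.palC π hπ π' hπ' hne
  have h2 : π.1.Nodup := (hQ.2 _ (s.palV π hπ).1).nodup_iff.2 hQ.1
  exact h1.ne h2 h.symm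

/-- transfer of the structure to an extended profile -/
def SData.ext {n m : ℕ} {X : ℕ → ℕ} {S : ℕ → Bool} {Q : Prof} (s : SData n m X S Q) (Q' : Prof)
    (ρ : ℕ → ℕ) (φ : List ℕ → List ℕ) (hV : ∀ v ∈ Q.2.1, φ v ∈ Q'.2.1)
    (hA : ∀ a ∈ Q.1, ρ a ∈ Q'.1)
    (hpref : ∀ v a b, Pref v a b → Pref (φ v) (ρ a) (ρ b))
    (hP : ∀ π ∈ Q.2.2, (φ π.1, ρ π.2) ∈ Q'.2.2)
    (hnew : ∀ π' ∈ Q'.2.2, (∃ π ∈ Q.2.2, π' = (φ π.1, ρ π.2)) ∨
      (∀ v ∈ Q.2.1, ∀ a ∈ Q.1, Pref (φ v) π'.2 (ρ a) ∧ Pref π'.1 (ρ a) π'.2))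
    (hnd : Q'.2.2.Nodup) (hpV : ∀ π ∈ Q'.2.2, π.1 ∈ Q'.2.1 ∧ π.2 ∈ Q'.1)
    (hpC : ∀ π ∈ Q'.2.2, ∀ π' ∈ Q'.2.2, π ≠ π' → Pref π.1 π'.2 π.2) : SData n m X S Q' :=
  have hTR : ∀ (i j : Fin 4) (v : List ℕ) (a : ℕ), v ∈ Q.2.1 → a ∈ Q.1 →
      TR Q.2.2 (s.pi i) (s.pi j) v a →
      TR Q'.2.2 (φ (s.pi i).1, ρ (s.pi i).2) (φ (s.pi j).1, ρ (s.pi j).2) (φ v) (ρ a) := by
    intro i j v a hv ha h π' hπ' h1 h2
    rcases hnew π' hπ' with ⟨π, hπ, rfl⟩ | h3
    · have h4 : π ≠ s.pi i := fun e => h1 (by rw [e])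
      have h5 : π ≠ s.pi j := fun e => h2 (by rw [e])
      obtain ⟨h6, h7⟩ := h π hπ h4 h5
      exact ⟨hpref _ _ _ h6, hpref _ _ _ h7⟩
    · exact h3 v hv a ha
  { pi := fun i => (φ (s.pi i).1, ρ (s.pi i).2)
    vv := fun j => φ (s.vv j)
    zz := fun x r => ρ (s.zz x r)
    bb := fun j => ρ (s.bb j)
    ww := fun x r => φ (s.ww x r)
    nodupP := hnd
    palV := hpV
    palC := hpC
    piP := fun i => hP _ (s.piP i)
    vvV := fun j hj => hV _ (s.vvV j hj)
    wwV := fun x hx r hr => hV _ (s.wwV x hx r hr)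
    zzA := fun x hx r hr => hA _ (s.zzA x hx r hr)
    bbA := fun j hj => hA _ (s.bbA j hj)
    trz := fun j hj x hx r hr => hTR 0 1 _ _ (s.vvV j hj) (s.zzA x hx r hr) (s.trz j hj x hx r hr)
    trb := fun j hj j' hj' => hTR 2 3 _ _ (s.vvV j hj) (s.bbA j' hj') (s.trb j hj j' hj')
    trw := fun x hx r hr => hTR 0 1 _ _ (s.wwV x hx r hr) (s.zzA x hx r (by omega))
      (s.trw x hx r hr)
    v12 := fun j hj x hx => hpref _ _ _ (s.v12 j hj x hx)
    v01 := fun j hj x hx => hpref _ _ _ (s.v01 j hj x hx)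
    w121 := fun x hx => hpref _ _ _ (s.w121 x hx)
    w101 := fun x hx => hpref _ _ _ (s.w101 x hx)
    w010 := fun x hx => hpref _ _ _ (s.w010 x hx)
    own := fun j hj => hpref _ _ _ (s.own j hj)
    oth := fun j hj j' hj' h1 h2 => hpref _ _ _ (s.oth j hj j' hj' h1 h2) }

/-! ### the Manhattan metric -/

/-- the Manhattan distance -/
def D1 (d : ℕ) (q p : Fin d → ℝ) : ℝ := ∑ i, |q i - p i|

theorem D1_nonneg {d : ℕ} (q p : Fin d → ℝ) : 0 ≤ D1 d q p :=
  Finset.sum_nonneg (fun _ _ => abs_nonneg _)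

theorem D1_cons {d : ℕ} (x y : ℝ) (q p : Fin d → ℝ) :
    D1 (d + 1) (Fin.cons x q) (Fin.cons y p) = |x - y| + D1 d q p := by
  unfold D1
  rw [Fin.sum_univ_succ]
  simp

/-- the alternatives of the palette -/
def pal (P : List (List ℕ × ℕ)) (v : List ℕ) : List ℕ :=
  v.filter (fun a => decide (a ∈ P.map Prod.snd))

/-- old orders -/
def mp1 (P : List (List ℕ × ℕ)) (v : List ℕ) : List ℕ :=
  ((pal P v).map (fun a => 2 * a + 1)) ++ v.map (fun a => 2 * a)

/-- new orders -/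
def np1 (P : List (List ℕ × ℕ)) (v : List ℕ) : List ℕ :=
  v.map (fun a => 2 * a) ++ ((pal P v).map (fun a => 2 * a + 1))

/-- the extension for the Manhattan metric -/
def ext1 (Q : Prof) : Prof :=
  (mp1 Q.2.2 Q.1, Q.2.1.map (mp1 Q.2.2) ++ Q.2.2.map (fun π => np1 Q.2.2 π.1),
    Q.2.2.map (fun π => (mp1 Q.2.2 π.1, 2 * π.2)) ++
      Q.2.2.map (fun π => (np1 Q.2.2 π.1, 2 * π.2 + 1)))

theorem mp1_perm {P : List (List ℕ × ℕ)} {v w : List ℕ} (h : v.Perm w) :
    (mp1 P v).Perm (mp1 P w) :=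
  List.Perm.append ((h.filter _).map _) (h.map _)

theorem np1_perm {P : List (List ℕ × ℕ)} {v w : List ℕ} (h : v.Perm w) :
    (np1 P v).Perm (mp1 P w) :=
  List.perm_append_comm.trans (mp1_perm h)

theorem ext1_WF {Q : Prof} (hQ : WF Q) (hp : ∀ π ∈ Q.2.2, π.1 ∈ Q.2.1 ∧ π.2 ∈ Q.1) :
    WF (ext1 Q) := by
  constructor
  · change (mp1 Q.2.2 Q.1).Nodup
    unfold mp1
    rw [List.nodup_append]
    refine ⟨(hQ.1.filter _).map (fun a b h => by simpa using h),
      hQ.1.map (fun a b h => by simpa using h), ?_⟩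
    intro a ha b hb
    rw [List.mem_map] at ha hb
    obtain ⟨a', _, rfl⟩ := ha
    obtain ⟨b', _, rfl⟩ := hb
    omega
  · intro v hv
    change v.Perm (mp1 Q.2.2 Q.1)
    change v ∈ Q.2.1.map (mp1 Q.2.2) ++ Q.2.2.map (fun π => np1 Q.2.2 π.1) at hv
    rw [List.mem_append, List.mem_map, List.mem_map] at hv
    rcases hv with ⟨w, hw, rfl⟩ | ⟨π, hπ, rfl⟩
    · exact mp1_perm (hQ.2 w hw)
    · exact np1_perm (hQ.2 _ (hp π hπ).1)

theorem mem_pal {P : List (List ℕ × ℕ)} {v : List ℕ} {π : List ℕ × ℕ} (hπ : π ∈ P)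
    (h : π.2 ∈ v) : π.2 ∈ pal P v := by
  unfold pal
  rw [List.mem_filter]
  exact ⟨h, by simpa using ⟨π.1, hπ⟩⟩

/-- the structure of the extension -/
def ext1_data {n m : ℕ} {X : ℕ → ℕ} {S : ℕ → Bool} {Q : Prof} (s : SData n m X S Q)
    (hQ : WF Q) : SData n m X S (ext1 Q) := by
  have hmem : ∀ v ∈ Q.2.1, ∀ a ∈ Q.1, a ∈ v := fun v hv a ha => (hQ.2 v hv).mem_iff.2 ha
  refine s.ext (ext1 Q) (fun a => 2 * a) (mp1 Q.2.2) ?_ ?_ ?_ ?_ ?_ ?_ ?_ ?_
  · intro v hv
    exact List.mem_append_left _ (List.mem_map_of_mem hv)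
  · intro a ha
    exact List.mem_append_right _ (List.mem_map_of_mem (f := fun a => 2 * a) ha)
  · intro v a b h
    exact (h.map (fun a => 2 * a)).append_left _
  · intro π hπ
    exact List.mem_append_left _
      (List.mem_map_of_mem (f := fun π : List ℕ × ℕ => (mp1 Q.2.2 π.1, 2 * π.2)) hπ)
  · intro π' hπ'
    change π' ∈ _ ++ _ at hπ'
    rw [List.mem_append, List.mem_map, List.mem_map] at hπ'
    rcases hπ' with ⟨π, hπ, rfl⟩ | ⟨π, hπ, rfl⟩
    · exact Or.inl ⟨π, hπ, rfl⟩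
    · right
      intro v hv a ha
      constructor
      · exact pref_append (List.mem_map_of_mem (f := fun a => 2 * a + 1)
          (mem_pal hπ (hmem v hv _ (s.palV π hπ).2)))
          (List.mem_map_of_mem (f := fun a => 2 * a) (hmem v hv a ha))
      · exact pref_append (List.mem_map_of_mem (f := fun a => 2 * a)
          (hmem _ (s.palV π hπ).1 a ha)) (List.mem_map_of_mem (f := fun a => 2 * a + 1)
          (mem_pal hπ (hmem _ (s.palV π hπ).1 _ (s.palV π hπ).2)))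
  · have h0 := s.nodup_snd hQ
    apply List.Nodup.of_map Prod.snd
    change (List.map Prod.snd (_ ++ _)).Nodup
    rw [List.map_append, List.map_map, List.map_map, List.nodup_append]
    refine ⟨?_, ?_, ?_⟩
    · have := h0.map (f := fun a : ℕ => 2 * a) (fun a b h => by simpa using h)
      rw [List.map_map] at this
      exact this
    · have := h0.map (f := fun a : ℕ => 2 * a + 1) (fun a b h => by simpa using h)
      rw [List.map_map] at this
      exact this
    · intro a ha b hb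
      rw [List.mem_map] at ha hb
      obtain ⟨a', _, rfl⟩ := ha
      obtain ⟨b', _, rfl⟩ := hb
      simp only [Function.comp]
      omega
  · intro π' hπ'
    change π' ∈ _ ++ _ at hπ'
    rw [List.mem_append, List.mem_map, List.mem_map] at hπ'
    rcases hπ' with ⟨π, hπ, rfl⟩ | ⟨π, hπ, rfl⟩
    · exact ⟨List.mem_append_left _ (List.mem_map_of_mem (s.palV π hπ).1),
        List.mem_append_right _ (List.mem_map_of_mem (f := fun a => 2 * a) (s.palV π hπ).2)⟩
    · exact ⟨List.mem_append_right _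
          (List.mem_map_of_mem (f := fun π : List ℕ × ℕ => np1 Q.2.2 π.1) hπ),
        List.mem_append_left _ (List.mem_map_of_mem (f := fun a => 2 * a + 1)
          (mem_pal hπ (s.palV π hπ).2))⟩
  · intro π₁ h₁ π₂ h₂ hne
    change π₁ ∈ _ ++ _ at h₁
    change π₂ ∈ _ ++ _ at h₂
    rw [List.mem_append, List.mem_map, List.mem_map] at h₁ h₂
    rcases h₁ with ⟨π, hπ, rfl⟩ | ⟨π, hπ, rfl⟩ <;> rcases h₂ with ⟨π', hπ', rfl⟩ | ⟨π', hπ', rfl⟩
    · have h3 : π ≠ π' := fun e => hne (by rw [e])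
      exact ((s.palC π hπ π' hπ' h3).map (fun a => 2 * a)).append_left _
    · exact pref_append (List.mem_map_of_mem (f := fun a => 2 * a + 1)
          (mem_pal hπ' (hmem _ (s.palV π hπ).1 _ (s.palV π' hπ').2)))
          (List.mem_map_of_mem (f := fun a => 2 * a) (hmem _ (s.palV π hπ).1 _ (s.palV π hπ).2))
    · exact pref_append (List.mem_map_of_mem (f := fun a => 2 * a)
          (hmem _ (s.palV π hπ).1 _ (s.palV π' hπ').2)) (List.mem_map_of_mem
          (f := fun a => 2 * a + 1)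
          (mem_pal hπ (hmem _ (s.palV π hπ).1 _ (s.palV π hπ).2)))
    · have h3 : π ≠ π' := fun e => hne (by rw [e])
      have h4 := s.palC π hπ π' hπ' h3
      have h5 : Pref (pal Q.2.2 π.1) π'.2 π.2 := by
        unfold pal
        refine h4.filter ?_ ?_
        · simpa using ⟨π'.1, hπ'⟩
        · simpa using ⟨π.1, hπ⟩
      exact (h5.map (fun a => 2 * a + 1)).append_left _

theorem exists_bound (V : List (List ℕ)) (A : List ℕ) (F : List ℕ → ℕ → ℝ) :
    ∃ B : ℝ, 0 ≤ B ∧ ∀ v ∈ V, ∀ a ∈ A, F v a ≤ B := by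
  refine ⟨∑ v ∈ V.toFinset, ∑ a ∈ A.toFinset, |F v a|,
    Finset.sum_nonneg (fun _ _ => Finset.sum_nonneg (fun _ _ => abs_nonneg _)), ?_⟩
  intro v hv a ha
  refine le_trans (le_abs_self _) ?_
  refine le_trans (Finset.single_le_sum (f := fun a => |F v a|) (fun _ _ => abs_nonneg _)
    (List.mem_toFinset.2 ha)) ?_
  exact Finset.single_le_sum (f := fun v => ∑ a ∈ A.toFinset, |F v a|)
    (fun _ _ => Finset.sum_nonneg (fun _ _ => abs_nonneg _)) (List.mem_toFinset.2 hv)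

theorem ext1_real {d : ℕ} {Q : Prof} (hQ : WF Q) (hp : ∀ π ∈ Q.2.2, π.1 ∈ Q.2.1 ∧ π.2 ∈ Q.1)
    (h : RealBy (D1 d) Q.2.1) : RealBy (D1 (d + 1)) (ext1 Q).2.1 := by
  obtain ⟨p, h⟩ := h
  choose! q hq using h
  obtain ⟨B, hB0, hB⟩ := exists_bound Q.2.1 Q.1 (fun v a => D1 d (q v) (p a))
  have hB' : ∀ v ∈ Q.2.1, ∀ a ∈ v, D1 d (q v) (p a) ≤ B := fun v hv a ha =>
    hB v hv a ((hQ.2 v hv).mem_iff.1 ha)
  have e0 : ∀ a, (2 * a) % 2 = 0 := fun a => by omega
  have e1 : ∀ a, (2 * a) / 2 = a := fun a => by omega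
  have e2 : ∀ a, (2 * a + 1) % 2 = 1 := fun a => by omega
  have e3 : ∀ a, (2 * a + 1) / 2 = a := fun a => by omega
  refine ⟨fun a => if a % 2 = 0 then Fin.cons (B + 1) (p (a / 2)) else Fin.cons 0 (p (a / 2)), ?_⟩
  intro v' hv'
  change v' ∈ Q.2.1.map (mp1 Q.2.2) ++ Q.2.2.map (fun π => np1 Q.2.2 π.1) at hv'
  rw [List.mem_append, List.mem_map, List.mem_map] at hv'
  have habs : |B + 1| = B + 1 := abs_of_nonneg (by linarith)
  rcases hv' with ⟨v, hv, rfl⟩ | ⟨π, hπ, rfl⟩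
  · refine ⟨Fin.cons 0 (q v), ?_⟩
    unfold mp1
    rw [List.pairwise_append, List.pairwise_map, List.pairwise_map]
    simp only [e0, e1, e2, e3, if_true, one_ne_zero, if_false, D1_cons]
    refine ⟨?_, ?_, ?_⟩
    · exact ((hq v hv).filter _).imp (fun h => by linarith)
    · exact (hq v hv).imp (fun h => by linarith)
    · intro a ha b hb
      rw [List.mem_map] at ha hb
      obtain ⟨a', ha', rfl⟩ := ha
      obtain ⟨b', hb', rfl⟩ := hb
      simp only [e0, e1, e2, e3, if_true, one_ne_zero, if_false, D1_cons]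
      have h1 := hB' v hv a' (List.mem_of_mem_filter ha')
      have h2 := D1_nonneg (q v) (p b')
      have h3 : |(0 : ℝ) - (B + 1)| = B + 1 := by rw [zero_sub, abs_neg, habs]
      rw [h3, sub_self, abs_zero]
      linarith
  · have hv := (hp π hπ).1
    refine ⟨Fin.cons (B + 1) (q π.1), ?_⟩
    unfold np1
    rw [List.pairwise_append, List.pairwise_map, List.pairwise_map]
    simp only [e0, e1, e2, e3, if_true, one_ne_zero, if_false, D1_cons]
    refine ⟨?_, ?_, ?_⟩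
    · exact (hq _ hv).imp (fun h => by linarith)
    · exact ((hq _ hv).filter _).imp (fun h => by linarith)
    · intro a ha b hb
      rw [List.mem_map] at ha hb
      obtain ⟨a', ha', rfl⟩ := ha
      obtain ⟨b', hb', rfl⟩ := hb
      simp only [e0, e1, e2, e3, if_true, one_ne_zero, if_false, D1_cons]
      have h1 := hB' _ hv a' ha'
      have h2 := D1_nonneg (q π.1) (p b')
      have h3 : |B + 1 - 0| = B + 1 := by rw [sub_zero, habs]
      rw [h3, sub_self, abs_zero]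
      linarith

end Pool.Agent.Helper72.PR
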