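import Pool.Agent.Helper72.PR.Ext

/-!
Extension of profiles by one dimension, maximum metric.
-/

namespace Pool.Agent.Helper72.PR

theorem dist_cons {d : ℕ} (x y : ℝ) (q p : Fin d → ℝ) :
    dist (Fin.cons x q : Fin (d + 1) → ℝ) (Fin.cons y p) = max |x - y| (dist q p) := by
  apply le_antisymm
  · rw [dist_pi_le_iff (le_max_of_le_left (abs_nonneg _))]
    intro i
    refine Fin.cases ?_ (fun j => ?_) i
    · rw [Fin.cons_zero, Fin.cons_zero, Real.dist_eq]
      exact le_max_left _ _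
    · rw [Fin.cons_succ, Fin.cons_succ]
      exact le_trans (dist_le_pi_dist q p j) (le_max_right _ _)
  · apply max_le
    · have := dist_le_pi_dist (Fin.cons x q : Fin (d + 1) → ℝ) (Fin.cons y p) 0
      rwa [Fin.cons_zero, Fin.cons_zero, Real.dist_eq] at this
    · rw [dist_pi_le_iff dist_nonneg]
      intro j
      have := dist_le_pi_dist (Fin.cons x q : Fin (d + 1) → ℝ) (Fin.cons y p) j.succ
      rwa [Fin.cons_succ, Fin.cons_succ] at this

/-- old orders -/
def mp2 (v : List ℕ) : List ℕ := 0 :: 1 :: v.map (fun a => a + 2)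

/-- first new order -/
def np2 (v : List ℕ) : List ℕ := 1 :: (v.map (fun a => a + 2) ++ [0])

/-- second new order -/
def op2 (v : List ℕ) : List ℕ := 0 :: (v.map (fun a => a + 2) ++ [1])

/-- the extension for the maximum metric -/
def ext2 (Q : Prof) : Prof :=
  (mp2 Q.1, Q.2.1.map mp2 ++ [np2 (Q.2.1.headD []), op2 (Q.2.1.headD [])],
    Q.2.2.map (fun π => (mp2 π.1, π.2 + 2)) ++
      [(np2 (Q.2.1.headD []), 0), (op2 (Q.2.1.headD []), 1)])

theorem mp2_perm {v w : List ℕ} (h : v.Perm w) : (mp2 v).Perm (mp2 w) :=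
  ((h.map _).cons _).cons _

theorem np2_perm {v w : List ℕ} (h : v.Perm w) : (np2 v).Perm (mp2 w) := by
  refine List.Perm.trans ?_ (mp2_perm h)
  refine List.Perm.trans (List.Perm.cons 1 List.perm_append_comm) ?_
  exact List.Perm.swap _ _ _

theorem op2_perm {v w : List ℕ} (h : v.Perm w) : (op2 v).Perm (mp2 w) := by
  refine List.Perm.trans ?_ (mp2_perm h)
  exact List.Perm.cons 0 List.perm_append_comm

theorem headD_mem {α : Type} {l : List α} (h : l ≠ []) (x : α) : l.headD x ∈ l := by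
  cases l with
  | nil => exact absurd rfl h
  | cons a t => simp

theorem ext2_WF {Q : Prof} (hQ : WF Q) (hne : Q.2.1 ≠ []) : WF (ext2 Q) := by
  constructor
  · change (mp2 Q.1).Nodup
    unfold mp2
    have := hQ.1.map (f := fun a : ℕ => a + 2) (fun a b h => by simpa using h)
    simp [this]
  · intro v hv
    change v.Perm (mp2 Q.1)
    change v ∈ Q.2.1.map mp2 ++ [np2 (Q.2.1.headD []), op2 (Q.2.1.headD [])] at hv
    rw [List.mem_append, List.mem_map, List.mem_pair] at hv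
    have h0 := hQ.2 _ (headD_mem hne [])
    rcases hv with ⟨w, hw, rfl⟩ | rfl | rfl
    · exact mp2_perm (hQ.2 w hw)
    · exact np2_perm h0
    · exact op2_perm h0

/-- the structure of the extension -/
def ext2_data {n m : ℕ} {X : ℕ → ℕ} {S : ℕ → Bool} {Q : Prof} (s : SData n m X S Q)
    (hQ : WF Q) : SData n m X S (ext2 Q) := by
  have hne : Q.2.1 ≠ [] := by
    intro h
    have := (s.palV _ (s.piP 0)).1
    rw [h] at this
    simp at this
  have h0 := headD_mem hne ([] : List ℕ)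
  set v0 := Q.2.1.headD ([] : List ℕ) with hv0
  have hmem : ∀ v ∈ Q.2.1, ∀ a ∈ Q.1, a ∈ v := fun v hv a ha => (hQ.2 v hv).mem_iff.2 ha
  have hm2 : ∀ v ∈ Q.2.1, ∀ a ∈ Q.1, a + 2 ∈ v.map (fun a => a + 2) := fun v hv a ha =>
    List.mem_map_of_mem (f := fun a => a + 2) (hmem v hv a ha)
  have c1 : ∀ v ∈ Q.2.1, ∀ a ∈ Q.1, Pref (mp2 v) 0 (a + 2) := fun v hv a ha =>
    pref_cons (List.mem_cons_of_mem _ (hm2 v hv a ha))
  have c2 : ∀ v ∈ Q.2.1, ∀ a ∈ Q.1, Pref (mp2 v) 1 (a + 2) := fun v hv a ha =>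
    (pref_cons (hm2 v hv a ha)).cons' _
  have c3 : ∀ v ∈ Q.2.1, ∀ a ∈ Q.1, Pref (np2 v) (a + 2) 0 := fun v hv a ha =>
    (pref_append (hm2 v hv a ha) (List.mem_singleton.2 rfl)).cons' _
  have c4 : ∀ v ∈ Q.2.1, ∀ a ∈ Q.1, Pref (op2 v) (a + 2) 1 := fun v hv a ha =>
    (pref_append (hm2 v hv a ha) (List.mem_singleton.2 rfl)).cons' _
  have c5 : ∀ v, Pref (np2 v) 1 0 := fun v =>
    pref_cons (List.mem_append_right _ (List.mem_singleton.2 rfl))
  have c6 : ∀ v, Pref (op2 v) 0 1 := fun v =>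
    pref_cons (List.mem_append_right _ (List.mem_singleton.2 rfl))
  have hPmem : ∀ π' ∈ (ext2 Q).2.2, (∃ π ∈ Q.2.2, π' = (mp2 π.1, π.2 + 2)) ∨
      π' = (np2 v0, 0) ∨ π' = (op2 v0, 1) := by
    intro π' hπ'
    change π' ∈ Q.2.2.map (fun π => (mp2 π.1, π.2 + 2)) ++ [(np2 v0, 0), (op2 v0, 1)] at hπ'
    rw [List.mem_append, List.mem_map, List.mem_pair] at hπ'
    rcases hπ' with ⟨π, hπ, rfl⟩ | h | h
    · exact Or.inl ⟨π, hπ, rfl⟩
    · exact Or.inr (Or.inl h)
    · exact Or.inr (Or.inr h)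
  refine s.ext (ext2 Q) (fun a => a + 2) mp2 ?_ ?_ ?_ ?_ ?_ ?_ ?_ ?_
  · intro v hv
    exact List.mem_append_left _ (List.mem_map_of_mem hv)
  · intro a ha
    exact List.mem_cons_of_mem _ (List.mem_cons_of_mem _
      (List.mem_map_of_mem (f := fun a => a + 2) ha))
  · intro v a b h
    exact ((h.map (fun a => a + 2)).cons' _).cons' _
  · intro π hπ
    exact List.mem_append_left _
      (List.mem_map_of_mem (f := fun π : List ℕ × ℕ => (mp2 π.1, π.2 + 2)) hπ)
  · intro π' hπ'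
    rcases hPmem π' hπ' with h | rfl | rfl
    · exact Or.inl h
    · right
      intro v hv a ha
      exact ⟨c1 v hv a ha, c3 v0 h0 a ha⟩
    · right
      intro v hv a ha
      exact ⟨c2 v hv a ha, c4 v0 h0 a ha⟩
  · have h1 := s.nodup_snd hQ
    apply List.Nodup.of_map Prod.snd
    change (List.map Prod.snd (_ ++ _)).Nodup
    rw [List.map_append, List.map_map, List.nodup_append]
    refine ⟨?_, ?_, ?_⟩
    · have := h1.map (f := fun a : ℕ => a + 2) (fun a b h => by simpa using h)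
      rw [List.map_map] at this
      exact this
    · simp
    · intro a ha b hb
      rw [List.mem_map] at ha
      obtain ⟨a', _, rfl⟩ := ha
      simp only [List.map_cons, List.map_nil, List.mem_pair] at hb
      simp only [Function.comp]
      omega
  · intro π' hπ'
    rcases hPmem π' hπ' with ⟨π, hπ, rfl⟩ | rfl | rfl
    · exact ⟨List.mem_append_left _ (List.mem_map_of_mem (s.palV π hπ).1),
        List.mem_cons_of_mem _ (List.mem_cons_of_mem _
        (List.mem_map_of_mem (f := fun a => a + 2) (s.palV π hπ).2))⟩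
    · exact ⟨List.mem_append_right _ (by simp [hv0]), by simp [ext2, mp2]⟩
    · exact ⟨List.mem_append_right _ (by simp [hv0]), by simp [ext2, mp2]⟩
  · intro π₁ h₁ π₂ h₂ hne
    rcases hPmem π₁ h₁ with ⟨π, hπ, rfl⟩ | rfl | rfl <;>
    rcases hPmem π₂ h₂ with ⟨π', hπ', rfl⟩ | rfl | rfl
    · have h3 : π ≠ π' := fun e => hne (by rw [e])
      exact (((s.palC π hπ π' hπ' h3).map (fun a => a + 2)).cons' _).cons' _
    · exact c1 _ (s.palV π hπ).1 _ (s.palV π hπ).2
    · exact c2 _ (s.palV π hπ).1 _ (s.palV π hπ).2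
    · exact c3 v0 h0 _ (s.palV π' hπ').2
    · exact absurd rfl hne
    · exact c5 v0
    · exact c4 v0 h0 _ (s.palV π' hπ').2
    · exact c6 v0
    · exact absurd rfl hne

/-- realisable with all distances in a bounded window far away -/
def FR (d : ℕ) (Q : Prof) : Prop :=
  ∃ W R : ℝ, 0 ≤ W ∧ 0 ≤ R ∧ ∀ K₀ : ℝ, ∃ K : ℝ, K₀ ≤ K ∧ ∃ p : ℕ → Fin d → ℝ, ∀ v ∈ Q.2.1,
    ∃ q : Fin d → ℝ, dist q 0 ≤ R ∧ (∀ a ∈ Q.1, K ≤ dist q (p a) ∧ dist q (p a) ≤ K + W) ∧
      v.Pairwise (fun a b => dist q (p a) < dist q (p b))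

theorem FR.real {d : ℕ} {Q : Prof} (h : FR d Q) :
    RealBy (fun q p : Fin d → ℝ => dist q p) Q.2.1 := by
  obtain ⟨W, R, _, _, h⟩ := h
  obtain ⟨K, _, p, h⟩ := h 0
  exact ⟨p, fun v hv => by
    obtain ⟨q, _, _, h⟩ := h v hv
    exact ⟨q, h⟩⟩

theorem ext2_FR {d : ℕ} {Q : Prof} (hQ : WF Q) (hne : Q.2.1 ≠ []) (h : FR d Q) :
    FR (d + 1) (ext2 Q) := by
  obtain ⟨W, R, hW, hR, h⟩ := h
  have hmem : ∀ v ∈ Q.2.1, ∀ a ∈ v, a ∈ Q.1 := fun v hv a ha => (hQ.2 v hv).mem_iff.1 ha
  refine ⟨2 * W + 7, R + W + 3, by linarith, by linarith, fun K₀ => ?_⟩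
  obtain ⟨K, hK, p, hp⟩ := h (max K₀ 0 + W + R + 10)
  have hK0 : K₀ ≤ max K₀ 0 := le_max_left _ _
  have hK1 : 0 ≤ max K₀ 0 := le_max_right _ _
  choose! q hqR hqK hq using hp
  have h0 := headD_mem hne ([] : List ℕ)
  set v0 := Q.2.1.headD ([] : List ℕ) with hv0
  -- the new positions
  set p' : ℕ → Fin (d + 1) → ℝ := fun a => if a = 0 then Fin.cons (K - 2) 0 else
    if a = 1 then Fin.cons (-(K - 1)) 0 else Fin.cons 0 (p (a - 2)) with hp'
  have p0 : p' 0 = Fin.cons (K - 2) 0 := by simp [hp']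
  have p1 : p' 1 = Fin.cons (-(K - 1)) 0 := by simp [hp']
  have p2 : ∀ a, p' (a + 2) = Fin.cons 0 (p a) := by
    intro a
    simp [hp']
  -- distances
  have D0 : ∀ (z : ℝ) (v : List ℕ), v ∈ Q.2.1 → -(W + 3) ≤ z → z ≤ W + 3 →
      dist (Fin.cons z (q v) : Fin (d + 1) → ℝ) (p' 0) = K - 2 - z := by
    intro z v hv h1 h2
    rw [p0, dist_cons, abs_of_nonpos (by linarith)]
    have := hqR v hv
    rw [max_eq_left (by linarith)]
    ring
  have D1' : ∀ (z : ℝ) (v : List ℕ), v ∈ Q.2.1 → -(W + 3) ≤ z → z ≤ W + 3 →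
      dist (Fin.cons z (q v) : Fin (d + 1) → ℝ) (p' 1) = K - 1 + z := by
    intro z v hv h1 h2
    rw [p1, dist_cons, abs_of_nonneg (by linarith)]
    have := hqR v hv
    rw [max_eq_left (by linarith)]
    ring
  have D2 : ∀ (z : ℝ) (v : List ℕ), v ∈ Q.2.1 → -(W + 3) ≤ z → z ≤ W + 3 → ∀ a ∈ Q.1,
      dist (Fin.cons z (q v) : Fin (d + 1) → ℝ) (p' (a + 2)) = dist (q v) (p a) := by
    intro z v hv h1 h2 a ha
    rw [p2, dist_cons]
    have := (hqK v hv a ha).1
    rw [max_eq_right]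
    rw [abs_le]
    constructor <;> linarith
  refine ⟨K - 5 - W, by linarith, p', ?_⟩
  intro v' hv'
  change v' ∈ Q.2.1.map mp2 ++ [np2 v0, op2 v0] at hv'
  rw [List.mem_append, List.mem_map, List.mem_pair] at hv'
  have hA' : ∀ a ∈ (ext2 Q).1, a = 0 ∨ a = 1 ∨ ∃ b ∈ Q.1, a = b + 2 := by
    intro a ha
    change a ∈ 0 :: 1 :: Q.1.map (fun a => a + 2) at ha
    rw [List.mem_cons, List.mem_cons, List.mem_map] at ha
    rcases ha with h | h | ⟨b, hb, rfl⟩
    · exact Or.inl h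
    · exact Or.inr (Or.inl h)
    · exact Or.inr (Or.inr ⟨b, hb, rfl⟩)
  have hR' : ∀ (z : ℝ) (v : List ℕ), v ∈ Q.2.1 → -(W + 3) ≤ z → z ≤ W + 3 →
      dist (Fin.cons z (q v) : Fin (d + 1) → ℝ) 0 ≤ R + W + 3 := by
    intro z v hv h1 h2
    have h3 : (0 : Fin (d + 1) → ℝ) = Fin.cons 0 0 := by
      funext i
      refine Fin.cases ?_ (fun j => ?_) i <;> simp
    rw [h3, dist_cons]
    apply max_le
    · rw [abs_le]
      constructor <;> linarith
    · have := hqR v hv
      linarith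
  have hwin : ∀ (z : ℝ) (v : List ℕ), v ∈ Q.2.1 → -(W + 3) ≤ z → z ≤ W + 3 →
      ∀ a ∈ (ext2 Q).1, K - 5 - W ≤ dist (Fin.cons z (q v) : Fin (d + 1) → ℝ) (p' a) ∧
        dist (Fin.cons z (q v) : Fin (d + 1) → ℝ) (p' a) ≤ K - 5 - W + (2 * W + 7) := by
    intro z v hv h1 h2 a ha
    rcases hA' a ha with rfl | rfl | ⟨b, hb, rfl⟩
    · rw [D0 z v hv h1 h2]
      constructor <;> linarith
    · rw [D1' z v hv h1 h2]
      constructor <;> linarith
    · rw [D2 z v hv h1 h2 b hb]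
      have := hqK v hv b hb
      constructor <;> linarith
  have hold : ∀ (z : ℝ) (v : List ℕ), v ∈ Q.2.1 → -(W + 3) ≤ z → z ≤ W + 3 →
      (v.map (fun a => a + 2)).Pairwise (fun a b =>
        dist (Fin.cons z (q v) : Fin (d + 1) → ℝ) (p' a) <
        dist (Fin.cons z (q v) : Fin (d + 1) → ℝ) (p' b)) := by
    intro z v hv h1 h2
    rw [List.pairwise_map]
    refine List.Pairwise.imp_of_mem ?_ (hq v hv)
    intro a b ha hb h
    rw [D2 z v hv h1 h2 a (hmem v hv a ha), D2 z v hv h1 h2 b (hmem v hv b hb)]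
    exact h
  rcases hv' with ⟨v, hv, rfl⟩ | rfl | rfl
  · refine ⟨Fin.cons 0 (q v), hR' 0 v hv (by linarith) (by linarith),
      hwin 0 v hv (by linarith) (by linarith), ?_⟩
    unfold mp2
    rw [List.pairwise_cons, List.pairwise_cons]
    refine ⟨?_, ?_, hold 0 v hv (by linarith) (by linarith)⟩
    · intro a ha
      rw [D0 0 v hv (by linarith) (by linarith)]
      rw [List.mem_cons, List.mem_map] at ha
      rcases ha with rfl | ⟨b, hb, rfl⟩
      · rw [D1' 0 v hv (by linarith) (by linarith)]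
        linarith
      · rw [D2 0 v hv (by linarith) (by linarith) b (hmem v hv b hb)]
        have := (hqK v hv b (hmem v hv b hb)).1
        linarith
    · intro a ha
      rw [D1' 0 v hv (by linarith) (by linarith)]
      rw [List.mem_map] at ha
      obtain ⟨b, hb, rfl⟩ := ha
      rw [D2 0 v hv (by linarith) (by linarith) b (hmem v hv b hb)]
      have := (hqK v hv b (hmem v hv b hb)).1
      linarith
  · refine ⟨Fin.cons (-(W + 3)) (q v0), hR' _ v0 h0 (by linarith) (by linarith),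
      hwin _ v0 h0 (by linarith) (by linarith), ?_⟩
    unfold np2
    rw [List.pairwise_cons, List.pairwise_append]
    refine ⟨?_, hold _ v0 h0 (by linarith) (by linarith), List.pairwise_singleton _ _, ?_⟩
    · intro a ha
      rw [D1' _ v0 h0 (by linarith) (by linarith)]
      rw [List.mem_append, List.mem_map, List.mem_singleton] at ha
      rcases ha with ⟨b, hb, rfl⟩ | rfl
      · rw [D2 _ v0 h0 (by linarith) (by linarith) b (hmem v0 h0 b hb)]
        have := (hqK v0 h0 b (hmem v0 h0 b hb)).1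
        linarith
      · rw [D0 _ v0 h0 (by linarith) (by linarith)]
        linarith
    · intro a ha b hb
      rw [List.mem_singleton] at hb
      rw [List.mem_map] at ha
      obtain ⟨a', ha', rfl⟩ := ha
      rw [hb, D0 _ v0 h0 (by linarith) (by linarith),
        D2 _ v0 h0 (by linarith) (by linarith) a' (hmem v0 h0 a' ha')]
      have := (hqK v0 h0 a' (hmem v0 h0 a' ha')).2
      linarith
  · refine ⟨Fin.cons (W + 3) (q v0), hR' _ v0 h0 (by linarith) (by linarith),
      hwin _ v0 h0 (by linarith) (by linarith), ?_⟩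
    unfold op2
    rw [List.pairwise_cons, List.pairwise_append]
    refine ⟨?_, hold _ v0 h0 (by linarith) (by linarith), List.pairwise_singleton _ _, ?_⟩
    · intro a ha
      rw [D0 _ v0 h0 (by linarith) (by linarith)]
      rw [List.mem_append, List.mem_map, List.mem_singleton] at ha
      rcases ha with ⟨b, hb, rfl⟩ | rfl
      · rw [D2 _ v0 h0 (by linarith) (by linarith) b (hmem v0 h0 b hb)]
        have := (hqK v0 h0 b (hmem v0 h0 b hb)).1
        linarith
      · rw [D1' _ v0 h0 (by linarith) (by linarith)]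
        linarith
    · intro a ha b hb
      rw [List.mem_singleton] at hb
      rw [List.mem_map] at ha
      obtain ⟨a', ha', rfl⟩ := ha
      rw [hb, D1' _ v0 h0 (by linarith) (by linarith),
        D2 _ v0 h0 (by linarith) (by linarith) a' (hmem v0 h0 a' ha')]
      have := (hqK v0 h0 a' (hmem v0 h0 a' ha')).2
      linarith

end Pool.Agent.Helper72.PR
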