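import Pool.Agent.Helper72.PR.Poly

/-!
The realisability problems and their NP-hardness.
-/

namespace Pool.Agent.Helper72.PR

open Pool.Agent.PolyTime

/-! ### the two geometries -/

/-- the Manhattan geometry -/
noncomputable def geo1 (d : ℕ) : Geo (Fin d → ℝ) (Fin d → Bool) where
  D := D1 d
  f := fun θ p => ∑ i, (if θ i then p i else -p i)
  hle := by
    intro q p θ
    rw [← Finset.sum_sub_distrib]
    unfold D1
    apply Finset.sum_le_sum
    intro i _
    cases θ i
    · simp only [Bool.false_eq_true, if_false]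
      linarith [le_abs_self (q i - p i)]
    · simp only [if_true]
      linarith [neg_le_abs (q i - p i)]
  hex := by
    intro q p
    refine ⟨fun i => decide (q i ≤ p i), ?_⟩
    rw [← Finset.sum_sub_distrib]
    unfold D1
    apply Finset.sum_congr rfl
    intro i _
    by_cases h : q i ≤ p i
    · simp only [h, decide_true, if_true]
      rw [abs_of_nonpos (by linarith)]
      ring
    · simp only [h, decide_false, Bool.false_eq_true, if_false]
      rw [abs_of_nonneg (by linarith [not_le.1 h])]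
      ring

/-- the maximum geometry -/
noncomputable def geo2 (d : ℕ) (hd : 0 < d) : Geo (Fin d → ℝ) (Fin d × Bool) where
  D := fun q p => dist q p
  f := fun θ p => if θ.2 then p θ.1 else -p θ.1
  hle := by
    rintro q p ⟨i, b⟩
    have h := dist_le_pi_dist q p i
    rw [Real.dist_eq] at h
    cases b
    · simp only [Bool.false_eq_true, if_false]
      linarith [le_abs_self (q i - p i)]
    · simp only [if_true]
      linarith [neg_le_abs (q i - p i)]
  hex := by
    intro q p
    have : Nonempty (Fin d) := ⟨⟨0, hd⟩⟩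
    obtain ⟨i, _, hi⟩ := Finset.exists_mem_eq_sup (Finset.univ : Finset (Fin d))
      Finset.univ_nonempty (fun i => nndist (q i) (p i))
    have h : dist q p = |q i - p i| := by
      rw [dist_pi_def, hi, coe_nndist, Real.dist_eq]
    by_cases h' : q i ≤ p i
    · refine ⟨(i, true), ?_⟩
      simp only [if_true]
      rw [h, abs_of_nonpos (by linarith)]
      ring
    · refine ⟨(i, false), ?_⟩
      simp only [Bool.false_eq_true, if_false]
      rw [h, abs_of_nonneg (by linarith [not_le.1 h'])]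
      ring

/-! ### assignments -/

theorem st_eq {X : ℕ → ℕ} {S σ : ℕ → Bool} (j : ℕ) :
    st X S σ j = if lv X S σ j then 1 else -1 := by
  unfold st lv sg
  cases S j <;> cases σ (X j) <;> simp

theorem good_of_nae {m : ℕ} {X : ℕ → ℕ} {S σ : ℕ → Bool} (h : NaeSat m X S σ) :
    Good m X S σ := by
  intro C hC h'
  apply h C hC
  rw [st_eq, st_eq, st_eq] at h'
  revert h'
  cases lv X S σ (3 * C) <;> cases lv X S σ (3 * C + 1) <;> cases lv X S σ (3 * C + 2) <;> simp

/-! ### the problems -/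

/-- preference realisability for the Manhattan metric -/
def REAL1 (d : ℕ) : Set (List ℕ × List (List ℕ)) :=
  {I | I.1.Nodup ∧ (∀ v ∈ I.2, v.Perm I.1) ∧ RealBy (D1 d) I.2}

/-- preference realisability for the maximum metric -/
def REALinf (d : ℕ) : Set (List ℕ × List (List ℕ)) :=
  {I | I.1.Nodup ∧ (∀ v ∈ I.2, v.Perm I.1) ∧ RealBy (fun q p : Fin d → ℝ => dist q p) I.2}

/-- iterated extension, Manhattan metric -/
def it1 (Q : Prof) : ℕ → Prof
  | 0 => Q
  | k + 1 => ext1 (it1 Q k)

/-- iterated extension, maximum metric -/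
def it2 (Q : Prof) : ℕ → Prof
  | 0 => Q
  | k + 1 => ext2 (it2 Q k)

theorem it1_inv {n m : ℕ} {X : ℕ → ℕ} {S : ℕ → Bool} {Q : Prof} (hQ : WF Q)
    (s : SData n m X S Q) (k : ℕ) :
    WF (it1 Q k) ∧ Nonempty (SData n m X S (it1 Q k)) ∧
      (it1 Q k).2.2.length = Q.2.2.length * 2 ^ k := by
  induction k with
  | zero => exact ⟨hQ, ⟨s⟩, by simp [it1]⟩
  | succ k ih =>
    obtain ⟨h1, ⟨h2⟩, h3⟩ := ih
    refine ⟨ext1_WF h1 h2.palV, ⟨ext1_data h2 h1⟩, ?_⟩
    change (_ ++ _ : List (List ℕ × ℕ)).length = _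
    rw [List.length_append, List.length_map, List.length_map, h3, pow_succ]
    ring

theorem it2_inv {n m : ℕ} {X : ℕ → ℕ} {S : ℕ → Bool} {Q : Prof} (hQ : WF Q)
    (s : SData n m X S Q) (k : ℕ) :
    WF (it2 Q k) ∧ Nonempty (SData n m X S (it2 Q k)) ∧
      (it2 Q k).2.2.length = Q.2.2.length + 2 * k := by
  induction k with
  | zero => exact ⟨hQ, ⟨s⟩, by simp [it2]⟩
  | succ k ih =>
    obtain ⟨h1, ⟨h2⟩, h3⟩ := ih
    have hne : (it2 Q k).2.1 ≠ [] := by
      intro h
      have := (h2.palV _ (h2.piP 0)).1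
      rw [h] at this
      simp at this
    refine ⟨ext2_WF h1 hne, ⟨ext2_data h2 h1⟩, ?_⟩
    change (_ ++ _ : List (List ℕ × ℕ)).length = _
    rw [List.length_append, List.length_map, h3]
    simp only [List.length_cons, List.length_nil]
    ring

theorem it1_real {n m : ℕ} {X : ℕ → ℕ} {S : ℕ → Bool} {Q : Prof} (hQ : WF Q)
    (s : SData n m X S Q) (h : RealBy (D1 2) Q.2.1) (k : ℕ) :
    RealBy (D1 (2 + k)) (it1 Q k).2.1 := by
  induction k with
  | zero => exact h
  | succ k ih =>
    obtain ⟨h1, ⟨h2⟩, h3⟩ := it1_inv hQ s k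
    exact ext1_real h1 h2.palV ih

theorem it2_real {n m : ℕ} {X : ℕ → ℕ} {S : ℕ → Bool} {Q : Prof} (hQ : WF Q)
    (s : SData n m X S Q) (h : FR 2 Q) (k : ℕ) : FR (2 + k) (it2 Q k) := by
  induction k with
  | zero => exact h
  | succ k ih =>
    obtain ⟨h1, ⟨h2⟩, h3⟩ := it2_inv hQ s k
    have hne : (it2 Q k).2.1 ≠ [] := by
      intro h
      have := (h2.palV _ (h2.piP 0)).1
      rw [h] at this
      simp at this
    exact ext2_FR h1 hne ih

/-- the reduction for the Manhattan metric -/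
def red1 (k : ℕ) (φ : List (List (ℕ × Bool))) : List ℕ × List (List ℕ) :=
  bif φ.all (fun c => decide (c.length = 3)) then
    ((it1 (baseF φ) k).1, (it1 (baseF φ) k).2.1)
  else ([0], [[]])

/-- the reduction for the maximum metric -/
def red2 (k : ℕ) (φ : List (List (ℕ × Bool))) : List ℕ × List (List ℕ) :=
  bif φ.all (fun c => decide (c.length = 3)) then
    ((it2 (baseF φ) k).1, (it2 (baseF φ) k).2.1)
  else ([0], [[]])

theorem pt_it1 (k : ℕ) : PolyTime (fun φ => it1 (baseF φ) k) := by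
  induction k with
  | zero => exact pt_baseF
  | succ k ih => exact pt_ext1 ih

theorem pt_it2 (k : ℕ) : PolyTime (fun φ => it2 (baseF φ) k) := by
  induction k with
  | zero => exact pt_baseF
  | succ k ih => exact pt_ext2 ih

theorem pt_red1 (k : ℕ) : PolyTime (red1 k) := by
  have h := pt_it1 k
  have key : ∀ f : List (List (ℕ × Bool)) → Prof, PolyTime f → PolyTime (fun φ =>
      bif φ.all (fun c => decide (c.length = 3)) then
        (((f φ).1, (f φ).2.1) : List ℕ × List (List ℕ)) else ([0], [[]])) := by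
    intro f hf
    fun_prop
  exact key _ h

theorem pt_red2 (k : ℕ) : PolyTime (red2 k) := by
  have h := pt_it2 k
  have key : ∀ f : List (List (ℕ × Bool)) → Prof, PolyTime f → PolyTime (fun φ =>
      bif φ.all (fun c => decide (c.length = 3)) then
        (((f φ).1, (f φ).2.1) : List ℕ × List (List ℕ)) else ([0], [[]])) := by
    intro f hf
    fun_prop
  exact key _ h

theorem baseF_inv (φ : List (List (ℕ × Bool))) : WF (baseF φ) ∧
    Nonempty (SData (nn φ) (cc φ) (XX φ) (SS φ) (baseF φ)) ∧ (baseF φ).2.2.length = 4 :=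
  ⟨base_WF (XX_dis φ) (XX_lt φ), ⟨base_data (XX_dis φ) (XX_lt φ)⟩, rfl⟩

theorem not_real {P : List (List ℕ) → Prop} :
    ¬ (([0] : List ℕ).Nodup ∧ (∀ v ∈ ([[]] : List (List ℕ)), v.Perm [0]) ∧ P [[]]) := by
  rintro ⟨_, h, _⟩
  have := (h [] (by simp)).length_eq
  simp at this

theorem red1_iff (k : ℕ) (φ : List (List (ℕ × Bool))) : φ ∈ SAT3 ↔ red1 k φ ∈ REAL1 (2 + k) := by
  unfold red1
  cases hall : φ.all (fun c => decide (c.length = 3)) with
  | false =>
    rw [cond_false]
    constructor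
    · rintro ⟨h, _⟩
      exfalso
      rw [← Bool.not_eq_true, List.all_eq_true] at hall
      exact hall (fun c hc => by simpa using h c hc)
    · intro h
      exact absurd h not_real
  | true =>
    have h3 : ∀ c ∈ φ, c.length = 3 := by
      rw [List.all_eq_true] at hall
      exact fun c hc => by simpa using hall c hc
    rw [cond_true]
    obtain ⟨b1, ⟨b2⟩, b3⟩ := baseF_inv φ
    obtain ⟨i1, ⟨i2⟩, i3⟩ := it1_inv b1 b2 k
    constructor
    · rintro ⟨_, hs⟩
      obtain ⟨σ, hσ⟩ := nae_of_sat h3 hs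
      exact ⟨i1.1, i1.2, it1_real b1 b2
        (base_real1 (good_of_nae hσ) (XX_dis φ) (XX_lt φ)) k⟩
    · rintro ⟨_, _, hr⟩
      obtain ⟨σ, hσ⟩ := sound (geo1 (2 + k)) i2 (XX_lt φ) (by
        rw [i3, b3, Fintype.card_fun, Fintype.card_bool, Fintype.card_fin, pow_add]
        norm_num) hr
      exact ⟨h3, sat_of_nae h3 hσ⟩

theorem red2_iff (k : ℕ) (φ : List (List (ℕ × Bool))) :
    φ ∈ SAT3 ↔ red2 k φ ∈ REALinf (2 + k) := by
  unfold red2
  cases hall : φ.all (fun c => decide (c.length = 3)) with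
  | false =>
    rw [cond_false]
    constructor
    · rintro ⟨h, _⟩
      exfalso
      rw [← Bool.not_eq_true, List.all_eq_true] at hall
      exact hall (fun c hc => by simpa using h c hc)
    · intro h
      exact absurd h not_real
  | true =>
    have h3 : ∀ c ∈ φ, c.length = 3 := by
      rw [List.all_eq_true] at hall
      exact fun c hc => by simpa using hall c hc
    rw [cond_true]
    obtain ⟨b1, ⟨b2⟩, b3⟩ := baseF_inv φ
    obtain ⟨i1, ⟨i2⟩, i3⟩ := it2_inv b1 b2 k
    constructor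
    · rintro ⟨_, hs⟩
      obtain ⟨σ, hσ⟩ := nae_of_sat h3 hs
      exact ⟨i1.1, i1.2, (it2_real b1 b2
        (base_FR (good_of_nae hσ) (XX_dis φ) (XX_lt φ)) k).real⟩
    · rintro ⟨_, _, hr⟩
      obtain ⟨σ, hσ⟩ := sound (geo2 (2 + k) (by omega)) i2 (XX_lt φ) (by
        rw [i3, b3, Fintype.card_prod, Fintype.card_bool, Fintype.card_fin]
        ring) hr
      exact ⟨h3, sat_of_nae h3 hσ⟩

theorem npHard_REAL1 {d : ℕ} (hd : 2 ≤ d) : NPHard (REAL1 d) := by
  obtain ⟨k, rfl⟩ := Nat.exists_eq_add_of_le hd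
  exact npHard_SAT3.of_red ⟨red1 k, pt_red1 k, red1_iff k⟩

theorem npHard_REALinf {d : ℕ} (hd : 2 ≤ d) : NPHard (REALinf d) := by
  obtain ⟨k, rfl⟩ := Nat.exists_eq_add_of_le hd
  exact npHard_SAT3.of_red ⟨red2 k, pt_red2 k, red2_iff k⟩

end Pool.Agent.Helper72.PR
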