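import Pool.Agent.Helper72.PR.BaseReal
import Pool.Agent.PolyTime.CookLevin

/-!
From satisfiability to the not-all-equal form.
-/

namespace Pool.Agent.Helper72.PR

open Pool.Agent.PolyTime

/-- literal number `j` of a formula with three literals per clause -/
def lit (φ : List (List (ℕ × Bool))) (j : ℕ) : ℕ × Bool :=
  (φ.getD (j / 3) []).getD (j % 3) (0, false)

/-- number of literals -/
def qq (φ : List (List (ℕ × Bool))) : ℕ := 3 * φ.length

/-- variable occurrences -/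
def occ (φ : List (List (ℕ × Bool))) : List ℕ := (List.range (qq φ)).map (fun j => (lit φ j).1)

/-- rank of a variable -/
def rk (φ : List (List (ℕ × Bool))) (x : ℕ) : ℕ :=
  ((occ φ).filter (fun y => decide (y < x))).length

theorem rk_lt {φ : List (List (ℕ × Bool))} {x : ℕ} (hx : x ∈ occ φ) : rk φ x < qq φ := by
  have h : (occ φ).length = qq φ := by simp [occ]
  rw [← h]
  unfold rk
  rw [List.length_filter_lt_length_iff_exists]
  exact ⟨x, hx, by simp⟩

theorem rk_lt_rk {φ : List (List (ℕ × Bool))} {x y : ℕ} (hx : x ∈ occ φ) (hxy : x < y) :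
    rk φ x < rk φ y := by
  unfold rk
  have h1 : (occ φ).filter (fun z => decide (z < x)) =
      ((occ φ).filter (fun z => decide (z < y))).filter (fun z => decide (z < x)) := by
    rw [List.filter_filter]
    apply List.filter_congr
    intro z _
    rw [Bool.eq_iff_iff]
    simp only [decide_eq_true_eq, Bool.and_eq_true]
    omega
  rw [h1, List.length_filter_lt_length_iff_exists]
  exact ⟨x, List.mem_filter.2 ⟨hx, by simpa using hxy⟩, by simp⟩

theorem rk_inj {φ : List (List (ℕ × Bool))} {x y : ℕ} (hx : x ∈ occ φ) (hy : y ∈ occ φ)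
    (h : rk φ x = rk φ y) : x = y := by
  rcases lt_trichotomy x y with h1 | h1 | h1
  · have := rk_lt_rk hx h1; omega
  · exact h1
  · have := rk_lt_rk hy h1; omega

theorem mem_occ {φ : List (List (ℕ × Bool))} {j : ℕ} (hj : j < qq φ) : (lit φ j).1 ∈ occ φ :=
  List.mem_map.2 ⟨j, List.mem_range.2 hj, rfl⟩

/-- number of variables -/
def nn (φ : List (List (ℕ × Bool))) : ℕ := 2 * qq φ + 1

/-- number of clauses -/
def cc (φ : List (List (ℕ × Bool))) : ℕ := qq φ + φ.length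

/-- variable of a literal -/
def XX (φ : List (List (ℕ × Bool))) (j : ℕ) : ℕ :=
  if j < 3 * qq φ then
    (if j % 3 = 0 then qq φ else if j % 3 = 1 then qq φ + 1 + j / 3 else rk φ (lit φ (j / 3)).1)
  else qq φ + 1 + (j - 3 * qq φ)

/-- sign of a literal -/
def SS (φ : List (List (ℕ × Bool))) (j : ℕ) : Bool :=
  if j < 3 * qq φ ∧ j % 3 = 2 then (lit φ (j / 3)).2 else true

theorem XX_lt (φ : List (List (ℕ × Bool))) : ∀ j < 3 * cc φ, XX φ j < nn φ := by
  intro j hj
  have hq : qq φ = 3 * φ.length := rfl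
  unfold cc at hj
  unfold XX nn
  split_ifs with h1 h2 h3
  · omega
  · omega
  · have h4 : j / 3 < qq φ := by omega
    have := rk_lt (mem_occ h4)
    omega
  · omega

theorem XX_dis (φ : List (List (ℕ × Bool))) : Dis (cc φ) (XX φ) := by
  intro j hj j' hj' hC hne
  have hq : qq φ = 3 * φ.length := rfl
  rcases Nat.lt_or_ge j (3 * qq φ) with h1 | h1
  · have h1' : j' < 3 * qq φ := by omega
    have h4 : j / 3 < qq φ := by omega
    have h5 := rk_lt (mem_occ h4)
    have h6 := rk_lt (mem_occ (show j' / 3 < qq φ by omega))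
    unfold XX
    rw [if_pos h1, if_pos h1']
    split_ifs <;> omega
  · have h1' : ¬ j' < 3 * qq φ := by omega
    unfold XX
    rw [if_neg (by omega), if_neg h1']
    omega

theorem XX_0 (φ : List (List (ℕ × Bool))) {C : ℕ} (hC : C < qq φ) : XX φ (3 * C) = qq φ := by
  unfold XX
  rw [if_pos (by omega), if_pos (by omega)]

theorem XX_1 (φ : List (List (ℕ × Bool))) {C : ℕ} (hC : C < qq φ) :
    XX φ (3 * C + 1) = qq φ + 1 + C := by
  unfold XX
  rw [if_pos (by omega), if_neg (by omega), if_pos (by omega)]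
  omega

theorem XX_2 (φ : List (List (ℕ × Bool))) {C : ℕ} (hC : C < qq φ) :
    XX φ (3 * C + 2) = rk φ (lit φ C).1 := by
  have : (3 * C + 2) / 3 = C := by omega
  unfold XX
  rw [if_pos (by omega), if_neg (by omega), if_neg (by omega), this]

theorem XX_3 (φ : List (List (ℕ × Bool))) (j : ℕ) :
    XX φ (3 * qq φ + j) = qq φ + 1 + j := by
  unfold XX
  rw [if_neg (by omega)]
  omega

theorem SS_0 (φ : List (List (ℕ × Bool))) (C : ℕ) : SS φ (3 * C) = true := by
  unfold SS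
  rw [if_neg (by omega)]

theorem SS_1 (φ : List (List (ℕ × Bool))) (C : ℕ) : SS φ (3 * C + 1) = true := by
  unfold SS
  rw [if_neg (by omega)]

theorem SS_2 (φ : List (List (ℕ × Bool))) {C : ℕ} (hC : C < qq φ) :
    SS φ (3 * C + 2) = (lit φ C).2 := by
  have : (3 * C + 2) / 3 = C := by omega
  unfold SS
  rw [if_pos (by omega), this]

theorem SS_3 (φ : List (List (ℕ × Bool))) (j : ℕ) : SS φ (3 * qq φ + j) = true := by
  unfold SS
  rw [if_neg (by omega)]

theorem lit_mem {φ : List (List (ℕ × Bool))} (h3 : ∀ c ∈ φ, c.length = 3) {j : ℕ}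
    (hj : j < qq φ) : φ.getD (j / 3) [] ∈ φ ∧ lit φ j ∈ φ.getD (j / 3) [] := by
  have h1 : j / 3 < φ.length := by unfold qq at hj; omega
  have h2 : φ.getD (j / 3) [] = φ[j / 3] := List.getD_eq_getElem _ _ h1
  have h4 : φ[j / 3] ∈ φ := List.getElem_mem h1
  have h5 : j % 3 < (φ.getD (j / 3) []).length := by
    rw [h2, h3 _ h4]
    omega
  refine ⟨by rw [h2]; exact h4, ?_⟩
  unfold lit
  rw [List.getD_eq_getElem _ _ h5]
  exact List.getElem_mem h5

theorem exists_lit {φ : List (List (ℕ × Bool))} (h3 : ∀ c ∈ φ, c.length = 3) {c : ℕ}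
    (hc : c < φ.length) {l : ℕ × Bool} (hl : l ∈ φ[c]) : ∃ k < 3, lit φ (3 * c + k) = l := by
  obtain ⟨k, hk, rfl⟩ := List.getElem_of_mem hl
  have h4 : φ[c] ∈ φ := List.getElem_mem hc
  have hk3 : k < 3 := by rw [h3 _ h4] at hk; exact hk
  refine ⟨k, hk3, ?_⟩
  have h1 : (3 * c + k) / 3 = c := by omega
  have h2 : (3 * c + k) % 3 = k := by omega
  unfold lit
  rw [h1, h2, List.getD_eq_getElem _ _ hc, List.getD_eq_getElem _ _ hk]

theorem nae_of_sat {φ : List (List (ℕ × Bool))} (h3 : ∀ c ∈ φ, c.length = 3) (hs : φ ∈ SAT) :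
    ∃ σ, NaeSat (cc φ) (XX φ) (SS φ) σ := by
  classical
  obtain ⟨s, hs⟩ := hs
  -- the first true literal of each clause
  obtain ⟨tr, htr⟩ : ∃ tr : ℕ → Prop, ∀ j, tr j ↔ s (lit φ j).1 = (lit φ j).2 :=
    ⟨_, fun _ => Iff.rfl⟩
  obtain ⟨fst, hfst⟩ : ∃ fst : ℕ → Prop, ∀ j, fst j ↔ (tr j ∧ ∀ j' < j, j' / 3 = j / 3 → ¬ tr j') :=
    ⟨_, fun _ => Iff.rfl⟩
  have hex : ∀ c < φ.length, ∃ k < 3, tr (3 * c + k) := by
    intro c hc
    obtain ⟨l, hl, hsl⟩ := hs φ[c] (List.getElem_mem hc)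
    obtain ⟨k, hk, rfl⟩ := exists_lit h3 hc hl
    exact ⟨k, hk, (htr _).2 hsl⟩
  refine ⟨fun y => if y < qq φ then decide (∃ x ∈ occ φ, rk φ x = y ∧ s x = true)
    else if y = qq φ then false else !decide (fst (y - (qq φ + 1))), ?_⟩
  set σ : ℕ → Bool := fun y => if y < qq φ then decide (∃ x ∈ occ φ, rk φ x = y ∧ s x = true)
    else if y = qq φ then false else !decide (fst (y - (qq φ + 1))) with hσ
  have hσ0 : σ (qq φ) = false := by simp [hσ]
  have hσ1 : ∀ j, σ (qq φ + 1 + j) = !decide (fst j) := by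
    intro j
    have h1 : ¬ (qq φ + 1 + j < qq φ) := by omega
    have h2 : ¬ (qq φ + 1 + j = qq φ) := by omega
    have h3 : qq φ + 1 + j - (qq φ + 1) = j := by omega
    simp only [hσ]
    rw [if_neg h1, if_neg h2, h3]
  have hσ2 : ∀ x ∈ occ φ, σ (rk φ x) = s x := by
    intro x hx
    simp only [hσ]
    rw [if_pos (rk_lt hx)]
    cases hsx : s x
    · simp only [decide_eq_false_iff_not]
      rintro ⟨y, hy, h1, h2⟩
      rw [rk_inj hy hx h1] at h2
      rw [hsx] at h2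
      exact absurd h2 (by simp)
    · simp only [decide_eq_true_eq]
      exact ⟨x, hx, rfl, hsx⟩
  intro C hC
  have hcc : cc φ = qq φ + φ.length := rfl
  rcases Nat.lt_or_ge C (qq φ) with h1 | h1
  · rintro ⟨h4, h5⟩
    unfold lv at h4 h5
    rw [XX_0 φ h1, XX_1 φ h1, SS_0, SS_1, hσ0, hσ1] at h4
    rw [XX_1 φ h1, XX_2 φ h1, SS_1, SS_2 φ h1, hσ1, hσ2 _ (mem_occ h1)] at h5
    by_cases h6 : fst C
    · have h7 : s (lit φ C).1 = (lit φ C).2 := (htr _).1 ((hfst _).1 h6).1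
      rw [h7] at h5
      simp [h6] at h5
    · simp [h6] at h4
  · obtain ⟨c, rfl⟩ : ∃ c, C = qq φ + c := ⟨C - qq φ, by omega⟩
    have hc : c < φ.length := by omega
    have e0 : 3 * (qq φ + c) = 3 * qq φ + 3 * c := by ring
    have e1 : 3 * (qq φ + c) + 1 = 3 * qq φ + (3 * c + 1) := by ring
    have e2 : 3 * (qq φ + c) + 2 = 3 * qq φ + (3 * c + 2) := by ring
    rintro ⟨h4, h5⟩
    unfold lv at h4 h5
    rw [e1, e0, XX_3, XX_3, SS_3, SS_3, hσ1, hσ1] at h4
    rw [e1, e2, XX_3, XX_3, SS_3, SS_3, hσ1, hσ1] at h5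
    simp only [beq_true] at h4 h5
    have h6 : (fst (3 * c) ↔ fst (3 * c + 1)) := by
      rw [← decide_eq_decide]
      exact Bool.not_inj h4
    have h7 : (fst (3 * c + 1) ↔ fst (3 * c + 2)) := by
      rw [← decide_eq_decide]
      exact Bool.not_inj h5
    -- two first literals are impossible
    have h8 : ¬ (fst (3 * c) ∧ fst (3 * c + 1)) := by
      rintro ⟨a1, a2⟩
      exact ((hfst _).1 a2).2 (3 * c) (by omega) (by omega) ((hfst _).1 a1).1
    have h9 : ¬ fst (3 * c) := fun h => h8 ⟨h, h6.1 h⟩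
    have h10 : ¬ fst (3 * c + 1) := fun h => h9 (h6.2 h)
    have h11 : ¬ fst (3 * c + 2) := fun h => h10 (h7.2 h)
    have t0 : ¬ tr (3 * c) := fun h => h9 ((hfst _).2 ⟨h, fun j' hj' hj3 => by omega⟩)
    have t1 : ¬ tr (3 * c + 1) := fun h => h10 ((hfst _).2 ⟨h, fun j' hj' hj3 => by
      have : j' = 3 * c := by omega
      rw [this]
      exact t0⟩)
    have t2 : ¬ tr (3 * c + 2) := fun h => h11 ((hfst _).2 ⟨h, fun j' hj' hj3 => by
      have : j' = 3 * c ∨ j' = 3 * c + 1 := by omega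
      rcases this with rfl | rfl
      · exact t0
      · exact t1⟩)
    obtain ⟨k, hk, h12⟩ := hex c hc
    interval_cases k
    · exact t0 h12
    · exact t1 h12
    · exact t2 h12

theorem sat_of_nae {φ : List (List (ℕ × Bool))} (h3 : ∀ c ∈ φ, c.length = 3) {σ : ℕ → Bool}
    (hn : NaeSat (cc φ) (XX φ) (SS φ) σ) : φ ∈ SAT := by
  refine ⟨fun x => σ (rk φ x) != σ (qq φ), ?_⟩
  intro c hc
  obtain ⟨i, hi, rfl⟩ := List.getElem_of_mem hc
  have hcc : cc φ = qq φ + φ.length := rfl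
  have hqq : qq φ = 3 * φ.length := rfl
  have h1 := hn (qq φ + i) (by omega)
  have e0 : 3 * (qq φ + i) = 3 * qq φ + 3 * i := by ring
  have e1 : 3 * (qq φ + i) + 1 = 3 * qq φ + (3 * i + 1) := by ring
  have e2 : 3 * (qq φ + i) + 2 = 3 * qq φ + (3 * i + 2) := by ring
  unfold lv at h1
  rw [e1, e2, e0, XX_3, XX_3, XX_3, SS_3, SS_3, SS_3] at h1
  simp only [beq_true] at h1
  have hk : ∃ k < 3, σ (qq φ + 1 + (3 * i + k)) = σ (qq φ) := by
    by_contra hcon
    push Not at hcon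
    have a0 := hcon 0 (by norm_num)
    have a1 := hcon 1 (by norm_num)
    have a2 := hcon 2 (by norm_num)
    rw [Nat.add_zero] at a0
    apply h1
    revert a0 a1 a2
    cases σ (qq φ) <;> cases σ (qq φ + 1 + 3 * i) <;> cases σ (qq φ + 1 + (3 * i + 1)) <;>
      cases σ (qq φ + 1 + (3 * i + 2)) <;> simp
  obtain ⟨k, hk, h4⟩ := hk
  have hj : 3 * i + k < qq φ := by omega
  have h5 := hn (3 * i + k) (by omega)
  unfold lv at h5
  rw [XX_0 φ hj, XX_1 φ hj, XX_2 φ hj, SS_0, SS_1, SS_2 φ hj, h4] at h5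
  obtain ⟨hm1, hm2⟩ := lit_mem h3 hj
  have hdiv : (3 * i + k) / 3 = i := by omega
  rw [hdiv, List.getD_eq_getElem _ _ hi] at hm2
  refine ⟨_, hm2, ?_⟩
  change (σ (rk φ (lit φ (3 * i + k)).1) != σ (qq φ)) = (lit φ (3 * i + k)).2
  revert h5
  cases σ (qq φ) <;> cases σ (rk φ (lit φ (3 * i + k)).1) <;> cases (lit φ (3 * i + k)).2 <;> simp

end Pool.Agent.Helper72.PR
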