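import Pool.Agent.Helper72.PR.Nae

/-!
The profiles are computable in polynomial time.
-/

namespace Pool.Agent.Helper72.PR

open Pool.Agent.PolyTime

section

variable {α : Type} [PEnc α]

theorem pt_tN {n m v : α → ℕ} (hn : PolyTime n) (hm : PolyTime m) (hv : PolyTime v) :
    PolyTime (fun a => tN (n a) (m a) (v a)) := by
  unfold tN lx
  fun_prop

theorem pt_aN {n m v : α → ℕ} (hn : PolyTime n) (hm : PolyTime m) (hv : PolyTime v) :
    PolyTime (fun a => aN (n a) (m a) (v a)) := by
  unfold aN lx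
  fun_prop

theorem pt_bN {n m v : α → ℕ} {X : α → ℕ → ℕ} (hn : PolyTime n) (hm : PolyTime m)
    (hv : PolyTime v) (hX : PolyTime (fun p : α × ℕ => X p.1 p.2)) :
    PolyTime (fun a => bN (n a) (m a) (X a) (v a)) := by
  have h1 : PolyTime (fun a => X a (v a / 8)) :=
    hX.comp (f := fun a => (a, v a / 8)) (by fun_prop)
  have key : ∀ x : α → ℕ, PolyTime x → PolyTime (fun a =>
    if v a % 8 = 0 then
      (if (v a / 8) % 3 = 2 then 0 else
        16 * ((n a + m a + 3) * n a) + 64 * (n a + m a + 3) -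
          (2 * (v a / 24) + (v a / 8) % 3 + 2))
    else if v a % 8 = 1 then
      16 * ((n a + m a + 3) * n a) + 68 * (n a + m a + 3) + 4 * ((n a + m a + 3) * x a) -
        (2 * (v a / 24) + 1)
    else if v a / 8 = 0 then 0
    else if v a / 8 = 1 then 16 * ((n a + m a + 3) * n a) + 64 * (n a + m a + 3) - 1
    else 16 * ((n a + m a + 3) * n a) + 64 * (n a + m a + 3)) := by
    intro x hx
    fun_prop
  exact key _ h1

theorem pt_rN {v b : α → ℕ} {S : α → ℕ → Bool} (hv : PolyTime v)
    (hb : PolyTime b) (hS : PolyTime (fun p : α × ℕ => S p.1 p.2)) :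
    PolyTime (fun a => rN (S a) (v a) (b a)) := by
  have h1 : PolyTime (fun a => S a (b a / 8)) :=
    hS.comp (f := fun a => (a, b a / 8)) (by fun_prop)
  have key : ∀ s : α → Bool, PolyTime s → PolyTime (fun a =>
    if b a % 8 = 0 then
      (if (b a / 8) % 3 = 0 then (if v a = 16 * (b a / 24) + 1 then 5 else 0)
      else if (b a / 8) % 3 = 1 then (if v a = 16 * (b a / 24) + 9 then 8 else 3) else 6)
    else if b a % 8 = 1 then
      (if v a = b a - 1 then (if s a then 7 else 4) else (if s a then 5 else 2))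
    else if b a / 8 = 0 then 1
    else if b a / 8 = 1 then (if v a = 10 then 2 else 0)
    else if b a / 8 = 2 then 1
    else (if v a = 26 then 2 else 0)) := by
    intro s hs
    fun_prop
  exact key _ h1

theorem pt_key {n m v b : α → ℕ} {X : α → ℕ → ℕ} {S : α → ℕ → Bool} (hn : PolyTime n)
    (hm : PolyTime m) (hv : PolyTime v) (hb : PolyTime b)
    (hX : PolyTime (fun p : α × ℕ => X p.1 p.2)) (hS : PolyTime (fun p : α × ℕ => S p.1 p.2)) :
    PolyTime (fun a => key (n a) (m a) (X a) (S a) (v a) (b a)) := by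
  have h1 := pt_tN hn hm hv
  have h2 := pt_aN hn hm hb
  have h3 := pt_bN hn hm hb hX
  have h4 := pt_rN hv hb hS
  have key : ∀ t x y r : α → ℕ, PolyTime t → PolyTime x → PolyTime y → PolyTime r →
      PolyTime (fun a => 10 * max (x a - t a) (y a + t a) + r a) := by
    intro t x y r h1 h2 h3 h4
    fun_prop
  exact key _ _ _ _ h1 h2 h3 h4

theorem pt_alts {n m : α → ℕ} (hn : PolyTime n) (hm : PolyTime m) (bn : PBd n) (bm : PBd m) :
    PolyTime (fun a => alts (n a) (m a)) := by
  unfold alts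
  have h1 : PolyTime (fun a => List.range (3 * n a)) :=
    PolyTime.range (by fun_prop) ((PBd.const 3).mul bn)
  have h2 : PolyTime (fun a => List.range (3 * m a)) :=
    PolyTime.range (by fun_prop) ((PBd.const 3).mul bm)
  refine PolyTime.append (PolyTime.map h1 (by fun_prop)) (PolyTime.append
    (PolyTime.map h2 (by fun_prop)) (PolyTime.const _))

theorem pbd_kmax {n m : α → ℕ} (bn : PBd n) (bm : PBd m) : PBd (fun a => kmax (n a) (m a)) := by
  unfold kmax lx
  exact (((PBd.const 300).mul (((bn.add bm).add (PBd.const 3)).mul bn)).add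
    ((PBd.const 1000).mul ((bn.add bm).add (PBd.const 3)))).add (PBd.const 100)

theorem pt_kmax {n m : α → ℕ} (hn : PolyTime n) (hm : PolyTime m) :
    PolyTime (fun a => kmax (n a) (m a)) := by
  unfold kmax lx
  fun_prop

theorem pt_ord {n m v : α → ℕ} {X : α → ℕ → ℕ} {S : α → ℕ → Bool} (hn : PolyTime n)
    (hm : PolyTime m) (bn : PBd n) (bm : PBd m) (hv : PolyTime v)
    (hX : PolyTime (fun p : α × ℕ => X p.1 p.2)) (hS : PolyTime (fun p : α × ℕ => S p.1 p.2)) :
    PolyTime (fun a => ord (n a) (m a) (X a) (S a) (v a)) := by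
  unfold ord
  refine PolyTime.flatMap (PolyTime.range (pt_kmax hn hm) (pbd_kmax bn bm)) ?_
  refine PolyTime.filter ((pt_alts hn hm bn bm).comp (f := fun p : α × ℕ => p.1) (by fun_prop)) ?_
  have hX' : PolyTime (fun q : ((α × ℕ) × ℕ) × ℕ => X q.1.1.1 q.2) :=
    hX.comp (f := fun q : ((α × ℕ) × ℕ) × ℕ => (q.1.1.1, q.2)) (by fun_prop)
  have hS' : PolyTime (fun q : ((α × ℕ) × ℕ) × ℕ => S q.1.1.1 q.2) :=
    hS.comp (f := fun q : ((α × ℕ) × ℕ) × ℕ => (q.1.1.1, q.2)) (by fun_prop)
  have h1 : PolyTime (fun p : (α × ℕ) × ℕ =>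
      key (n p.1.1) (m p.1.1) (X p.1.1) (S p.1.1) (v p.1.1) p.2) :=
    pt_key (α := (α × ℕ) × ℕ) (n := fun p => n p.1.1) (m := fun p => m p.1.1)
      (X := fun p => X p.1.1) (S := fun p => S p.1.1) (v := fun p => v p.1.1) (b := fun p => p.2)
      (hn.comp (f := fun p : (α × ℕ) × ℕ => p.1.1) (by fun_prop))
      (hm.comp (f := fun p : (α × ℕ) × ℕ => p.1.1) (by fun_prop))
      (hv.comp (f := fun p : (α × ℕ) × ℕ => p.1.1) (by fun_prop)) (by fun_prop) hX' hS'
  exact PolyTime.decideEq h1 (by fun_prop)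

theorem pt_base {n m : α → ℕ} {X : α → ℕ → ℕ} {S : α → ℕ → Bool} (hn : PolyTime n)
    (hm : PolyTime m) (bn : PBd n) (bm : PBd m)
    (hX : PolyTime (fun p : α × ℕ => X p.1 p.2)) (hS : PolyTime (fun p : α × ℕ => S p.1 p.2)) :
    PolyTime (fun a => base (n a) (m a) (X a) (S a)) := by
  have h1 : PolyTime (fun a => List.range (3 * m a)) :=
    PolyTime.range (by fun_prop) ((PBd.const 3).mul bm)
  have h2 : PolyTime (fun a => List.range (2 * n a)) :=
    PolyTime.range (by fun_prop) ((PBd.const 2).mul bn)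
  have hX' : PolyTime (fun q : (α × ℕ) × ℕ => X q.1.1 q.2) :=
    hX.comp (f := fun q : (α × ℕ) × ℕ => (q.1.1, q.2)) (by fun_prop)
  have hS' : PolyTime (fun q : (α × ℕ) × ℕ => S q.1.1 q.2) :=
    hS.comp (f := fun q : (α × ℕ) × ℕ => (q.1.1, q.2)) (by fun_prop)
  have hord : ∀ w : α × ℕ → ℕ, PolyTime w → PolyTime (fun p : α × ℕ =>
      ord (n p.1) (m p.1) (X p.1) (S p.1) (w p)) := fun w hw =>
    pt_ord (α := α × ℕ) (n := fun p => n p.1) (m := fun p => m p.1)
      (X := fun p => X p.1) (S := fun p => S p.1)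
      (hn.comp (f := fun p : α × ℕ => p.1) (by fun_prop))
      (hm.comp (f := fun p : α × ℕ => p.1) (by fun_prop))
      (bn.comp (f := fun p : α × ℕ => p.1) (by fun_prop))
      (bm.comp (f := fun p : α × ℕ => p.1) (by fun_prop)) hw hX' hS'
  have hc : ∀ k : ℕ, PolyTime (fun a => ord (n a) (m a) (X a) (S a) k) := fun k =>
    pt_ord hn hm bn bm (PolyTime.const k) hX hS
  have hA := pt_alts hn hm bn bm
  have hV1 : PolyTime (fun a => (List.range (3 * m a)).map
      (fun j => ord (n a) (m a) (X a) (S a) (8 * j))) :=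
    PolyTime.map h1 (hord (fun p => 8 * p.2) (by fun_prop))
  have hV2 : PolyTime (fun a => (List.range (2 * n a)).map
      (fun j => ord (n a) (m a) (X a) (S a) (8 * j + 1))) :=
    PolyTime.map h2 (hord (fun p => 8 * p.2 + 1) (by fun_prop))
  have c2 := hc 2
  have c10 := hc 10
  have c18 := hc 18
  have c26 := hc 26
  have key : ∀ (A : α → List ℕ) (V1 V2 : α → List (List ℕ)) (o1 o2 o3 o4 : α → List ℕ),
      PolyTime A → PolyTime V1 → PolyTime V2 → PolyTime o1 → PolyTime o2 → PolyTime o3 →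
      PolyTime o4 → PolyTime (fun a => ((A a, V1 a ++ (V2 a ++ [o1 a, o2 a, o3 a, o4 a]),
        [(o1 a, 2), (o2 a, 10), (o3 a, 18), (o4 a, 26)]) : Prof)) := by
    intro A V1 V2 o1 o2 o3 o4 h1 h2 h3 h4 h5 h6 h7
    fun_prop
  exact key _ _ _ _ _ _ _ hA hV1 hV2 c2 c10 c18 c26

theorem pt_pal {P : α → List (List ℕ × ℕ)} {v : α → List ℕ} (hP : PolyTime P)
    (hv : PolyTime v) : PolyTime (fun a => pal (P a) (v a)) := by
  unfold pal
  fun_prop

theorem pt_mp1 {P : α → List (List ℕ × ℕ)} {v : α → List ℕ} (hP : PolyTime P)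
    (hv : PolyTime v) : PolyTime (fun a => mp1 (P a) (v a)) := by
  unfold mp1 pal
  fun_prop

theorem pt_np1 {P : α → List (List ℕ × ℕ)} {v : α → List ℕ} (hP : PolyTime P)
    (hv : PolyTime v) : PolyTime (fun a => np1 (P a) (v a)) := by
  unfold np1 pal
  fun_prop

theorem pt_ext1 {Q : α → Prof} (hQ : PolyTime Q) : PolyTime (fun a => ext1 (Q a)) := by
  unfold ext1 mp1 np1 pal
  fun_prop

theorem pt_ext2 {Q : α → Prof} (hQ : PolyTime Q) : PolyTime (fun a => ext2 (Q a)) := by
  unfold ext2 mp2 np2 op2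
  fun_prop

end

theorem pt_XX : PolyTime (fun p : List (List (ℕ × Bool)) × ℕ => XX p.1 p.2) := by
  have hq : PolyTime qq := by unfold qq; fun_prop
  have bq : PBd qq := by
    unfold qq
    exact (PBd.const 3).mul (pbd_length (by fun_prop))
  have hocc : PolyTime occ := by
    unfold occ lit
    exact PolyTime.map (PolyTime.range hq bq) (by fun_prop)
  have hrk : PolyTime (fun p : List (List (ℕ × Bool)) × ℕ => rk p.1 p.2) := by
    unfold rk
    have h1 : PolyTime (fun p : List (List (ℕ × Bool)) × ℕ => occ p.1) := hocc.comp (by fun_prop)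
    exact PolyTime.length (PolyTime.filter h1 (by fun_prop))
  have h1 : PolyTime (fun p : List (List (ℕ × Bool)) × ℕ => rk p.1 (lit p.1 (p.2 / 3)).1) :=
    hrk.comp (f := fun p : List (List (ℕ × Bool)) × ℕ => (p.1, (lit p.1 (p.2 / 3)).1)) (by
      unfold lit; fun_prop)
  have h2 : PolyTime (fun p : List (List (ℕ × Bool)) × ℕ => qq p.1) := hq.comp (by fun_prop)
  have key : ∀ f g : List (List (ℕ × Bool)) × ℕ → ℕ, PolyTime f → PolyTime g → PolyTime
      (fun p : List (List (ℕ × Bool)) × ℕ => if p.2 < 3 * g p then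
    (if p.2 % 3 = 0 then g p else if p.2 % 3 = 1 then g p + 1 + p.2 / 3 else f p)
  else g p + 1 + (p.2 - 3 * g p)) := by
    intro f g hf hg
    fun_prop
  exact key _ _ h1 h2

theorem pt_SS : PolyTime (fun p : List (List (ℕ × Bool)) × ℕ => SS p.1 p.2) := by
  unfold SS lit qq
  fun_prop

/-- the base profile of a formula -/
def baseF (φ : List (List (ℕ × Bool))) : Prof := base (nn φ) (cc φ) (XX φ) (SS φ)

theorem pt_baseF : PolyTime baseF := by
  have hq : PolyTime qq := by unfold qq; fun_prop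
  have bq : PBd qq := by
    unfold qq
    exact (PBd.const 3).mul (pbd_length (by fun_prop))
  have hn : PolyTime nn := by unfold nn qq; fun_prop
  have hc : PolyTime cc := by unfold cc qq; fun_prop
  have bn : PBd nn := by
    unfold nn
    exact ((PBd.const 2).mul bq).add (PBd.const 1)
  have bc : PBd cc := by
    unfold cc
    exact bq.add (pbd_length (by fun_prop))
  exact pt_base hn hc bn bc pt_XX pt_SS

end Pool.Agent.Helper72.PR
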