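import Mathlib

/-!
Soundness: a realisable profile with the required structure gives a truth assignment.
-/

namespace Pool.Agent.Helper72.PR

/-- `a` stands before `b` in the order `v`. -/
def Pref (v : List ℕ) (a b : ℕ) : Prop := [a, b].Sublist v

theorem Pref.rel {v : List ℕ} {a b : ℕ} (h : Pref v a b) {R : ℕ → ℕ → Prop}
    (hv : v.Pairwise R) : R a b := by
  have := hv.sublist h
  simpa using this

/-- profiles with palettes: alternatives, orders, palette pairs -/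
abbrev Prof := List ℕ × List (List ℕ) × List (List ℕ × ℕ)

/-- realisable with respect to the distance `D` -/
def RealBy {E : Type} (D : E → E → ℝ) (V : List (List ℕ)) : Prop :=
  ∃ p : ℕ → E, ∀ v ∈ V, ∃ q : E, v.Pairwise (fun a b => D q (p a) < D q (p b))

/-- a distance given by a finite set of linear types -/
structure Geo (E Θ : Type) where
  D : E → E → ℝ
  f : Θ → E → ℝ
  hle : ∀ q p θ, f θ p - f θ q ≤ D q p
  hex : ∀ q p, ∃ θ, D q p = f θ p - f θ q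

/-- type restriction of the pair `(v, a)` to two palette types -/
def TR (P : List (List ℕ × ℕ)) (π₀ π₁ : List ℕ × ℕ) (v : List ℕ) (a : ℕ) : Prop :=
  ∀ π ∈ P, π ≠ π₀ → π ≠ π₁ → Pref v π.2 a ∧ Pref π.1 a π.2

/-- value of the literal number `j` -/
def lv (X : ℕ → ℕ) (S : ℕ → Bool) (σ : ℕ → Bool) (j : ℕ) : Bool := σ (X j) == S j

/-- all clauses are satisfied in the not-all-equal sense -/
def NaeSat (m : ℕ) (X : ℕ → ℕ) (S : ℕ → Bool) (σ : ℕ → Bool) : Prop :=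
  ∀ C < m, ¬ (lv X S σ (3 * C) = lv X S σ (3 * C + 1) ∧
    lv X S σ (3 * C + 1) = lv X S σ (3 * C + 2))

/-- code of the literal -/
def lr (S : ℕ → Bool) (j : ℕ) : ℕ := if S j then 2 else 1

/-- the combinatorial structure of the profile -/
structure SData (n m : ℕ) (X : ℕ → ℕ) (S : ℕ → Bool) (Q : Prof) where
  pi : Fin 4 → List ℕ × ℕ
  vv : ℕ → List ℕ
  zz : ℕ → ℕ → ℕ
  bb : ℕ → ℕ
  ww : ℕ → ℕ → List ℕ
  nodupP : Q.2.2.Nodup
  palV : ∀ π ∈ Q.2.2, π.1 ∈ Q.2.1 ∧ π.2 ∈ Q.1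
  palC : ∀ π ∈ Q.2.2, ∀ π' ∈ Q.2.2, π ≠ π' → Pref π.1 π'.2 π.2
  piP : ∀ i, pi i ∈ Q.2.2
  vvV : ∀ j < 3 * m, vv j ∈ Q.2.1
  wwV : ∀ x < n, ∀ r < 2, ww x r ∈ Q.2.1
  zzA : ∀ x < n, ∀ r < 3, zz x r ∈ Q.1
  bbA : ∀ j < 3 * m, bb j ∈ Q.1
  trz : ∀ j < 3 * m, ∀ x < n, ∀ r < 3, TR Q.2.2 (pi 0) (pi 1) (vv j) (zz x r)
  trb : ∀ j < 3 * m, ∀ j' < 3 * m, TR Q.2.2 (pi 2) (pi 3) (vv j) (bb j')
  trw : ∀ x < n, ∀ r < 2, TR Q.2.2 (pi 0) (pi 1) (ww x r) (zz x r)
  v12 : ∀ j < 3 * m, ∀ x < n, Pref (vv j) (zz x 1) (zz x 2)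
  v01 : ∀ j < 3 * m, ∀ x < n, Pref (vv j) (zz x 0) (zz x 1)
  w121 : ∀ x < n, Pref (ww x 1) (zz x 2) (zz x 1)
  w101 : ∀ x < n, Pref (ww x 1) (zz x 0) (zz x 1)
  w010 : ∀ x < n, Pref (ww x 0) (zz x 1) (zz x 0)
  own : ∀ j < 3 * m, Pref (vv j) (zz (X j) (lr S j)) (bb j)
  oth : ∀ j < 3 * m, ∀ j' < 3 * m, j / 3 = j' / 3 → j ≠ j' →
    Pref (vv j) (bb j') (zz (X j') (lr S j'))

section

variable {E Θ : Type} (G : Geo E Θ) {V : List (List ℕ)} {p : ℕ → E} {q : List ℕ → E}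
  {τ : List ℕ → ℕ → Θ}

theorem conflict (hq : ∀ v ∈ V, v.Pairwise (fun a b => G.D (q v) (p a) < G.D (q v) (p b)))
    (hτ : ∀ v a, G.D (q v) (p a) = G.f (τ v a) (p a) - G.f (τ v a) (q v))
    {v w : List ℕ} {a b : ℕ} (hv : v ∈ V) (hw : w ∈ V) (h1 : Pref v b a) (h2 : Pref w a b) :
    τ v a ≠ τ w b := by
  intro h
  have e1 := h1.rel (hq v hv)
  have e2 := h2.rel (hq w hw)
  have e3 := hτ v a
  have e4 := hτ w b
  have e5 := G.hle (q v) (p b) (τ v a)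
  have e6 := G.hle (q w) (p a) (τ v a)
  rw [← h] at e4
  linarith

theorem conflict2 (hq : ∀ v ∈ V, v.Pairwise (fun a b => G.D (q v) (p a) < G.D (q v) (p b)))
    (hτ : ∀ v a, G.D (q v) (p a) = G.f (τ v a) (p a) - G.f (τ v a) (q v))
    {v w : List ℕ} {z b z' b' : ℕ} (hv : v ∈ V) (hw : w ∈ V)
    (h1 : Pref v z b) (h2 : Pref w b z) (h3 : Pref w z' b') (h4 : Pref v b' z')
    (t1 : τ v z = τ w z) (t2 : τ v z = τ w z') (t3 : τ v z = τ v z') :
    τ v b ≠ τ w b' := by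
  intro h
  have e1 := h1.rel (hq v hv)
  have e2 := h2.rel (hq w hw)
  have e3 := h3.rel (hq w hw)
  have e4 := h4.rel (hq v hv)
  have f1 := hτ v z
  have f2 := hτ w z
  have f3 := hτ w z'
  have f4 := hτ v z'
  have f5 := hτ v b
  have f6 := hτ w b'
  have g1 := G.hle (q w) (p b) (τ v b)
  have g2 := G.hle (q v) (p b') (τ v b)
  rw [← t1] at f2
  rw [← t2] at f3
  rw [← t3] at f4
  rw [← h] at f6
  linarith

end

theorem sound {E Θ : Type} [Fintype Θ] (G : Geo E Θ) {n m : ℕ} {X : ℕ → ℕ} {S : ℕ → Bool}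
    {Q : Prof} (s : SData n m X S Q) (hX : ∀ j < 3 * m, X j < n)
    (hK : Q.2.2.length = Fintype.card Θ) (hr : RealBy G.D Q.2.1) :
    ∃ σ : ℕ → Bool, NaeSat m X S σ := by
  classical
  obtain ⟨p, hp⟩ := hr
  have : Nonempty E := ⟨p 0⟩
  choose! q hq using hp
  choose τ0 hτ0 using G.hex
  set τ : List ℕ → ℕ → Θ := fun v a => τ0 (q v) (p a) with hτdef
  have hτ : ∀ v a, G.D (q v) (p a) = G.f (τ v a) (p a) - G.f (τ v a) (q v) := fun v a =>
    hτ0 (q v) (p a)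
  have F1 : ∀ {v w : List ℕ} {a b : ℕ}, v ∈ Q.2.1 → w ∈ Q.2.1 → Pref v b a → Pref w a b →
      τ v a ≠ τ w b := fun hv hw h1 h2 => conflict G hq hτ hv hw h1 h2
  have hsurj : ∀ θ : Θ, ∃ π ∈ Q.2.2, τ π.1 π.2 = θ := by
    have hnd : (Q.2.2.map (fun π => τ π.1 π.2)).Nodup := by
      refine List.Nodup.map_on ?_ s.nodupP
      intro π hπ π' hπ' h
      by_contra hne
      exact F1 (s.palV π hπ).1 (s.palV π' hπ').1 (s.palC π hπ π' hπ' hne)
        (s.palC π' hπ' π hπ (Ne.symm hne)) h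
    have hcard : (Q.2.2.map (fun π => τ π.1 π.2)).toFinset = Finset.univ := by
      apply Finset.eq_univ_of_card
      rw [List.toFinset_card_of_nodup hnd, List.length_map, hK]
    intro θ
    have : θ ∈ (Q.2.2.map (fun π => τ π.1 π.2)).toFinset := by rw [hcard]; exact Finset.mem_univ _
    rw [List.mem_toFinset, List.mem_map] at this
    exact this
  have hTR : ∀ {i j : Fin 4} {v : List ℕ} {a : ℕ}, v ∈ Q.2.1 → TR Q.2.2 (s.pi i) (s.pi j) v a →
      τ v a = τ (s.pi i).1 (s.pi i).2 ∨ τ v a = τ (s.pi j).1 (s.pi j).2 := by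
    intro i j v a hv h
    obtain ⟨π, hπ, he⟩ := hsurj (τ v a)
    by_cases h1 : π = s.pi i
    · left; rw [← he, h1]
    by_cases h2 : π = s.pi j
    · right; rw [← he, h2]
    exact absurd he.symm (F1 hv (s.palV π hπ).1 (h π hπ h1 h2).1 (h π hπ h1 h2).2)
  set T : Fin 4 → Θ := fun i => τ (s.pi i).1 (s.pi i).2 with hT
  refine ⟨fun x => decide (τ (s.ww x 0) (s.zz x 0) = T 0), ?_⟩
  set σ : ℕ → Bool := fun x => decide (τ (s.ww x 0) (s.zz x 0) = T 0) with hσ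
  -- literal types
  have hlit : ∀ j < 3 * m, ∀ j' < 3 * m,
      (τ (s.vv j) (s.zz (X j') (lr S j')) = T 0 ∨ τ (s.vv j) (s.zz (X j') (lr S j')) = T 1) ∧
      (τ (s.vv j) (s.zz (X j') (lr S j')) = T 0 ↔ lv X S σ j' = true) := by
    intro j hj j' hj'
    have hx := hX j' hj'
    set x := X j' with hxdef
    have a1 := hTR (s.wwV x hx 0 (by norm_num)) (s.trw x hx 0 (by norm_num))
    have b1 := hTR (s.wwV x hx 1 (by norm_num)) (s.trw x hx 1 (by norm_num))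
    have c1 := hTR (s.vvV j hj) (s.trz j hj x hx 2 (by norm_num))
    have d1 := hTR (s.vvV j hj) (s.trz j hj x hx 1 (by norm_num))
    have cb : τ (s.vv j) (s.zz x 2) ≠ τ (s.ww x 1) (s.zz x 1) :=
      F1 (s.vvV j hj) (s.wwV x hx 1 (by norm_num)) (s.v12 j hj x hx) (s.w121 x hx)
    have da : τ (s.vv j) (s.zz x 1) ≠ τ (s.ww x 0) (s.zz x 0) :=
      F1 (s.vvV j hj) (s.wwV x hx 0 (by norm_num)) (s.v01 j hj x hx) (s.w010 x hx)
    have ba : τ (s.ww x 1) (s.zz x 1) ≠ τ (s.ww x 0) (s.zz x 0) :=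
      F1 (s.wwV x hx 1 (by norm_num)) (s.wwV x hx 0 (by norm_num)) (s.w101 x hx) (s.w010 x hx)
    unfold lr lv
    rw [← hxdef]
    cases hS : S j' with
    | true =>
      simp only [if_true]
      refine ⟨c1, ?_⟩
      simp only [hσ, beq_true, decide_eq_true_eq]
      change (_ = T 0 ∨ _ = T 1) at a1 b1 c1 d1
      grind
    | false =>
      simp only [Bool.false_eq_true, if_false]
      refine ⟨d1, ?_⟩
      simp only [hσ, beq_false, Bool.not_eq_true', decide_eq_false_iff_not]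
      change (_ = T 0 ∨ _ = T 1) at a1 b1 c1 d1
      grind
  intro C hC hall
  have h0 : 3 * C < 3 * m := by omega
  have h1 : 3 * C + 1 < 3 * m := by omega
  have h2 : 3 * C + 2 < 3 * m := by omega
  -- all relevant types are equal
  have hsame : ∀ j j' k k', 3 * C ≤ j → j < 3 * C + 3 → 3 * C ≤ j' → j' < 3 * C + 3 →
      3 * C ≤ k → k < 3 * C + 3 → 3 * C ≤ k' → k' < 3 * C + 3 →
      τ (s.vv j) (s.zz (X j') (lr S j')) = τ (s.vv k) (s.zz (X k') (lr S k')) := by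
    intro j j' k k' a1 a2 b1 b2 c1 c2 d1 d2
    have e1 := hlit j (by omega) j' (by omega)
    have e2 := hlit k (by omega) k' (by omega)
    have hl : lv X S σ j' = lv X S σ k' := by
      have : j' = 3 * C ∨ j' = 3 * C + 1 ∨ j' = 3 * C + 2 := by omega
      have : k' = 3 * C ∨ k' = 3 * C + 1 ∨ k' = 3 * C + 2 := by omega
      obtain ⟨g1, g2⟩ := hall
      rcases ‹j' = 3 * C ∨ j' = 3 * C + 1 ∨ j' = 3 * C + 2› with h | h | h <;>
      rcases ‹k' = 3 * C ∨ k' = 3 * C + 1 ∨ k' = 3 * C + 2› with h' | h' | h' <;>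
      simp [h, h', g1, g2]
    rw [hl] at e1
    grind
  have hF2 : ∀ j k, 3 * C ≤ j → j < 3 * C + 3 → 3 * C ≤ k → k < 3 * C + 3 → j ≠ k →
      τ (s.vv j) (s.bb j) ≠ τ (s.vv k) (s.bb k) := by
    intro j k a1 a2 b1 b2 hne
    exact conflict2 G hq hτ (s.vvV j (by omega)) (s.vvV k (by omega))
      (s.own j (by omega)) (s.oth k (by omega) j (by omega) (by omega) (Ne.symm hne))
      (s.own k (by omega)) (s.oth j (by omega) k (by omega) (by omega) hne)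
      (hsame j j k j a1 a2 a1 a2 b1 b2 a1 a2) (hsame j j k k a1 a2 a1 a2 b1 b2 b1 b2)
      (hsame j j j k a1 a2 a1 a2 a1 a2 b1 b2)
  have t0 := hTR (s.vvV _ h0) (s.trb _ h0 _ h0)
  have t1 := hTR (s.vvV _ h1) (s.trb _ h1 _ h1)
  have t2 := hTR (s.vvV _ h2) (s.trb _ h2 _ h2)
  have u1 := hF2 (3 * C) (3 * C + 1) (by omega) (by omega) (by omega) (by omega) (by omega)
  have u2 := hF2 (3 * C) (3 * C + 2) (by omega) (by omega) (by omega) (by omega) (by omega)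
  have u3 := hF2 (3 * C + 1) (3 * C + 2) (by omega) (by omega) (by omega) (by omega) (by omega)
  rcases t0 with t0 | t0 <;> rcases t1 with t1 | t1 <;> rcases t2 with t2 | t2 <;>
    first
      | exact u1 (t0.trans t1.symm)
      | exact u2 (t0.trans t2.symm)
      | exact u3 (t1.trans t2.symm)

end Pool.Agent.Helper72.PR
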